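import Mathlib.MeasureTheory.Measure.Typeclasses.Probability
import Mathlib.Computability.RE
import Mathlib.Computability.RecursiveIn

/-!
Definitions for behaviourally correct learning of computable reals and of computable measures
relative to an oracle.
-/

namespace Pool.Agent.MP_b427ce_lc

open MeasureTheory

/-- The initial segment of length `n` of a real `X` in Cantor space. -/
def initSeg (X : ℕ → Bool) (n : ℕ) : List Bool := List.ofFn fun i : Fin n => X i

/-- The cylinder of all reals extending the finite string `σ`. -/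
def cyl (σ : List Bool) : Set (ℕ → Bool) := {X | initSeg X σ.length = σ}

/-- The standard numbering of the partial computable functions. -/
def phi (e : ℕ) : ℕ →. ℕ := (Denumerable.ofNat Nat.Partrec.Code e).eval

/-- The characteristic function of the set `A`, used as an oracle. -/
noncomputable def oracle (A : Set ℕ) : ℕ →. ℕ := fun n => Part.some (A.indicator 1 n)

/-- The oracle `A` BC-learns the computable reals. -/
def BCReals (A : Set ℕ) : Prop :=
  ∃ L : List Bool → ℕ, ComputableIn {oracle A} L ∧
    ∀ Z : ℕ → Bool, Computable Z →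
      ∃ n₀ : ℕ, ∀ n > n₀, phi (L (initSeg Z n)) = fun x => Part.some (Z x).toNat

/-- `e` is an index of the measure `μ`: on input `(σ, n)` the program `e` halts with a numerator `a`
such that `a / 2 ^ n` is within `1 / 2 ^ n` of the measure of the cylinder of `σ`. -/
def IsIndex (e : ℕ) (μ : Measure (ℕ → Bool)) : Prop :=
  ∀ (σ : List Bool) (n : ℕ), ∃ a ∈ phi e (Encodable.encode (σ, n)),
    |μ.real (cyl σ) - (a : ℝ) / 2 ^ n| ≤ 1 / 2 ^ n

/-- Computable Borel probability measures on Cantor space. -/
def ComputableMeasure (μ : Measure (ℕ → Bool)) : Prop :=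
  IsProbabilityMeasure μ ∧ ∃ e : ℕ, IsIndex e μ

/-- `X` is Martin-Loef random for `μ`: it escapes every uniformly c.e. sequence of open sets whose
`n`-th member has measure at most `2 ^ (-n)`. -/
def MLRandom (μ : Measure (ℕ → Bool)) (X : ℕ → Bool) : Prop :=
  ∀ W : ℕ × List Bool → Prop, REPred W →
    (∀ n : ℕ, μ (⋃ σ ∈ {σ | W (n, σ)}, cyl σ) ≤ 1 / 2 ^ n) →
      ∃ n : ℕ, X ∉ ⋃ σ ∈ {σ | W (n, σ)}, cyl σ

/-- The oracle `A` BC-learns the class `C` of measures. -/
def BCMeasures (A : Set ℕ) (C : Set (Measure (ℕ → Bool))) : Prop :=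
  ∃ L : List Bool → ℕ, ComputableIn {oracle A} L ∧
    ∀ μ ∈ C, ∀ X : ℕ → Bool, MLRandom μ X →
      ∃ n₀ : ℕ, ∃ μ' ∈ C, MLRandom μ' X ∧ ∀ n > n₀, IsIndex (L (initSeg X n)) μ'

end Pool.Agent.MP_b427ce_lc
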