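import Mathlib.CategoryTheory.Category.Init
import Mathlib.Tactic.Continuity
import Mathlib.Computability.RE
import Mathlib.Computability.RecursiveIn
import Mathlib.Topology.Sheaves.Presheaf
import Mathlib.Data.List.GetD
import Mathlib.Topology.Connected.Separation
import Mathlib.Order.CompletePartialOrder
import Pool.Agent.MP_b427ce_lc.Defs

-- ======== part 0: formerly Pool.Agent.MP_b427ce_lc.Comp
section MrgPart0

/-!
Closure properties of functions computable in an oracle, tagged for `fun_prop`.
-/

namespace Pool.Agent.MP_b427ce_lc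

open Encodable Nat.Partrec

attribute [fun_prop] ComputableIn

section closure

variable {α β γ σ : Type} [Primcodable α] [Primcodable β] [Primcodable γ] [Primcodable σ]
  {O : Set (ℕ →. ℕ)}

lemma cin_of_eq {f g : α → β} (hf : ComputableIn O f) (h : ∀ a, f a = g a) : ComputableIn O g :=
  (funext h : f = g) ▸ hf

lemma toC {f : α → β} (hf : ComputableIn ∅ f) : Computable f :=
  recursiveIn_empty_iff.1 hf

@[fun_prop] lemma c_id : ComputableIn O (fun x : α => x) := ComputableIn.id

@[fun_prop] lemma c_const (c : β) : ComputableIn O (fun _ : α => c) := ComputableIn.const c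

@[fun_prop] lemma c_comp {f : β → γ} {g : α → β} (hf : ComputableIn O f) (hg : ComputableIn O g) :
    ComputableIn O fun a => f (g a) :=
  (Nat.RecursiveIn.comp hf hg).of_eq fun n => by
    simp only [Part.map_some, Part.bind_eq_bind]
    rcases e : decode (α := α) n with - | a <;> simp [encodek]

@[fun_prop] lemma c_pair {f : α → β} {g : α → γ} (hf : ComputableIn O f) (hg : ComputableIn O g) :
    ComputableIn O fun a => (f a, g a) :=
  (Nat.RecursiveIn.pair hf hg).of_eq fun n => by
    cases decode (α := α) n <;> simp [Seq.seq]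

lemma c_prim {f : β → γ} (hf : Primrec f) {g : α → β} (hg : ComputableIn O g) :
    ComputableIn O fun a => f (g a) := c_comp hf.computableIn hg

lemma c_prim₂ {f : β → γ → σ} (hf : Primrec₂ f) {g : α → β} {h : α → γ}
    (hg : ComputableIn O g) (hh : ComputableIn O h) :
    ComputableIn O fun a => f (g a) (h a) :=
  c_comp (f := fun p : β × γ => f p.1 p.2) (Primrec.computableIn hf) (c_pair hg hh)

@[fun_prop] lemma c_fst {f : α → β × γ} (hf : ComputableIn O f) :
    ComputableIn O fun a => (f a).1 := c_prim Primrec.fst hf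

@[fun_prop] lemma c_snd {f : α → β × γ} (hf : ComputableIn O f) :
    ComputableIn O fun a => (f a).2 := c_prim Primrec.snd hf

lemma nat_prec' {f g h : ℕ →. ℕ} (hf : Nat.RecursiveIn O f) (hg : Nat.RecursiveIn O g)
    (hh : Nat.RecursiveIn O h) :
    Nat.RecursiveIn O fun a => (f a).bind fun n => n.rec (g a)
      fun y IH => do {let i ← IH; h (Nat.pair a (Nat.pair y i))} :=
  ((Nat.RecursiveIn.prec hg hh).comp
    (Nat.RecursiveIn.pair Nat.Partrec.some.recursiveIn hf)).of_eq fun a =>
    Part.ext fun s => by simp [Seq.seq]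

lemma c_nat_rec' {f : α → ℕ} {g : α → σ} {h : α → ℕ × σ → σ} (hf : ComputableIn O f)
    (hg : ComputableIn O g) (hh : ComputableIn O fun p : α × (ℕ × σ) => h p.1 p.2) :
    ComputableIn O fun a => Nat.rec (motive := fun _ => σ) (g a) (fun y IH => h a (y, IH)) (f a) :=
  (nat_prec' hf hg hh).of_eq fun n => by
    rcases e : decode (α := α) n with - | a
    · simp
    · simp only [Part.coe_some, Part.bind_some, Part.map_some, encode_nat]
      induction f a <;> simp_all

/-- iteration with a counter -/
def natIter (g : σ) (h : ℕ → σ → σ) : ℕ → σ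
  | 0 => g
  | n + 1 => h n (natIter g h n)

@[fun_prop] lemma c_natIter {f : α → ℕ} {g : α → σ} {h : α → ℕ → σ → σ} (hf : ComputableIn O f)
    (hg : ComputableIn O g) (hh : ComputableIn O fun p : α × (ℕ × σ) => h p.1 p.2.1 p.2.2) :
    ComputableIn O fun a => natIter (g a) (h a) (f a) :=
  cin_of_eq (c_nat_rec' (h := fun a p => h a p.1 p.2) hf hg hh) fun a => by
    induction f a with
    | zero => rfl
    | succ n ih => simp only [natIter, ← ih]

open Classical in
lemma c_find {p : α → ℕ → Bool} (hp : ComputableIn O fun x : α × ℕ => p x.1 x.2)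
    (h : ∀ a, ∃ n, p a n = true) : ComputableIn O fun a => Nat.find (h a) := by
  have h1 : ComputableIn O fun x : α × ℕ => cond (p x.1 x.2) 0 1 :=
    c_prim (Primrec.dom_bool fun b => cond b 0 1) hp
  refine (Nat.RecursiveIn.rfind h1).of_eq fun n => ?_
  rcases e : decode (α := α) n with - | a
  · simp [e, Nat.rfind_zero_none]
  · simp only [decode_prod_val, Nat.unpair_pair, e, Option.map_some, decode_nat,
      Option.bind_some, Part.coe_some, Part.bind_some, Part.map_some, encode_nat,
      Part.map_eq_map]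
    rw [Part.eq_some_iff, Nat.mem_rfind]
    constructor
    · simp [Nat.find_spec (h a)]
    · intro m hm
      have := Nat.find_min (h a) hm
      simp at this
      simp [this]

@[fun_prop] lemma c_add {f g : α → ℕ} (hf : ComputableIn O f) (hg : ComputableIn O g) :
    ComputableIn O fun a => f a + g a := c_prim₂ Primrec.nat_add hf hg

@[fun_prop] lemma c_sub {f g : α → ℕ} (hf : ComputableIn O f) (hg : ComputableIn O g) :
    ComputableIn O fun a => f a - g a := c_prim₂ Primrec.nat_sub hf hg

@[fun_prop] lemma c_mul {f g : α → ℕ} (hf : ComputableIn O f) (hg : ComputableIn O g) :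
    ComputableIn O fun a => f a * g a := c_prim₂ Primrec.nat_mul hf hg

@[fun_prop] lemma c_div {f g : α → ℕ} (hf : ComputableIn O f) (hg : ComputableIn O g) :
    ComputableIn O fun a => f a / g a := c_prim₂ Primrec.nat_div hf hg

@[fun_prop] lemma c_mod {f g : α → ℕ} (hf : ComputableIn O f) (hg : ComputableIn O g) :
    ComputableIn O fun a => f a % g a := c_prim₂ Primrec.nat_mod hf hg

@[fun_prop] lemma c_pow {f g : α → ℕ} (hf : ComputableIn O f) (hg : ComputableIn O g) :
    ComputableIn O fun a => f a ^ g a :=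
  c_prim₂ (Primrec₂.unpaired'.1 Nat.Primrec.pow) hf hg

@[fun_prop] lemma c_max {f g : α → ℕ} (hf : ComputableIn O f) (hg : ComputableIn O g) :
    ComputableIn O fun a => max (f a) (g a) := c_prim₂ Primrec.nat_max hf hg

@[fun_prop] lemma c_natPair {f g : α → ℕ} (hf : ComputableIn O f) (hg : ComputableIn O g) :
    ComputableIn O fun a => Nat.pair (f a) (g a) := c_prim₂ Primrec₂.natPair hf hg

@[fun_prop] lemma c_unpair {f : α → ℕ} (hf : ComputableIn O f) :
    ComputableIn O fun a => Nat.unpair (f a) := c_prim Primrec.unpair hf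

@[fun_prop] lemma c_encode {f : α → β} (hf : ComputableIn O f) :
    ComputableIn O fun a => encode (f a) := c_prim Primrec.encode hf

@[fun_prop] lemma c_decode {f : α → ℕ} (hf : ComputableIn O f) :
    ComputableIn O fun a => (decode (f a) : Option β) := c_prim Primrec.decode hf

@[fun_prop] lemma c_ofNatCode {f : α → ℕ} (hf : ComputableIn O f) :
    ComputableIn O fun a => Denumerable.ofNat Code (f a) := c_prim (Primrec.ofNat Code) hf

@[fun_prop] lemma c_curry {f : α → Code} {g : α → ℕ} (hf : ComputableIn O f)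
    (hg : ComputableIn O g) : ComputableIn O fun a => Code.curry (f a) (g a) :=
  c_prim₂ Code.primrec₂_curry hf hg

@[fun_prop] lemma c_evaln {k : α → ℕ} {f : α → Code} {g : α → ℕ} (hk : ComputableIn O k)
    (hf : ComputableIn O f) (hg : ComputableIn O g) :
    ComputableIn O fun a => Code.evaln (k a) (f a) (g a) :=
  c_prim Code.primrec_evaln (c_pair (c_pair hk hf) hg)

@[fun_prop] lemma c_cond {c : α → Bool} {f g : α → β} (hc : ComputableIn O c)
    (hf : ComputableIn O f) (hg : ComputableIn O g) :
    ComputableIn O fun a => cond (c a) (f a) (g a) :=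
  c_prim (f := fun p : Bool × β × β => cond p.1 p.2.1 p.2.2)
    (Primrec.cond Primrec.fst (Primrec.fst.comp Primrec.snd) (Primrec.snd.comp Primrec.snd))
    (c_pair hc (c_pair hf hg))

@[fun_prop] lemma c_and {f g : α → Bool} (hf : ComputableIn O f) (hg : ComputableIn O g) :
    ComputableIn O fun a => (f a && g a) := c_prim₂ Primrec.and hf hg

@[fun_prop] lemma c_or {f g : α → Bool} (hf : ComputableIn O f) (hg : ComputableIn O g) :
    ComputableIn O fun a => (f a || g a) := c_prim₂ Primrec.or hf hg

@[fun_prop] lemma c_not {f : α → Bool} (hf : ComputableIn O f) :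
    ComputableIn O fun a => (!f a) := c_prim Primrec.not hf

@[fun_prop] lemma c_toNat {f : α → Bool} (hf : ComputableIn O f) :
    ComputableIn O fun a => (f a).toNat := c_prim (Primrec.dom_bool _) hf

/-- boolean equality test -/
def eqB {β : Type} [DecidableEq β] (x y : β) : Bool := decide (x = y)

/-- boolean order test -/
def leB (x y : ℕ) : Bool := decide (x ≤ y)

@[simp] lemma eqB_iff {β : Type} [DecidableEq β] {x y : β} : eqB x y = true ↔ x = y := by
  simp [eqB]

@[simp] lemma eqB_false_iff {β : Type} [DecidableEq β] {x y : β} : eqB x y = false ↔ x ≠ y := by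
  simp [eqB]

@[simp] lemma leB_iff {x y : ℕ} : leB x y = true ↔ x ≤ y := by simp [leB]

@[simp] lemma leB_false_iff {x y : ℕ} : leB x y = false ↔ y < x := by simp [leB]

@[fun_prop] lemma c_eqB [DecidableEq β] {f g : α → β} (hf : ComputableIn O f)
    (hg : ComputableIn O g) : ComputableIn O fun a => eqB (f a) (g a) :=
  c_prim₂ (f := fun x y => decide (x = y)) Primrec.eq.decide hf hg

@[fun_prop] lemma c_leB {f g : α → ℕ} (hf : ComputableIn O f)
    (hg : ComputableIn O g) : ComputableIn O fun a => leB (f a) (g a) :=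
  c_prim₂ (f := fun x y => decide (x ≤ y)) Primrec.nat_le.decide hf hg

@[fun_prop] lemma c_testBit {f g : α → ℕ} (hf : ComputableIn O f) (hg : ComputableIn O g) :
    ComputableIn O fun a => Nat.testBit (f a) (g a) :=
  cin_of_eq (f := fun a => eqB (f a / 2 ^ g a % 2) 1) (by fun_prop) fun a => by
    simp [eqB, Nat.testBit_eq_decide_div_mod_eq]

@[fun_prop] lemma c_some {f : α → β} (hf : ComputableIn O f) :
    ComputableIn O fun a => some (f a) := c_prim Primrec.option_some hf

@[fun_prop] lemma c_optGetD {f : α → Option β} {g : α → β} (hf : ComputableIn O f)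
    (hg : ComputableIn O g) : ComputableIn O fun a => (f a).getD (g a) :=
  c_prim₂ Primrec.option_getD hf hg

@[fun_prop] lemma c_isSome {f : α → Option β} (hf : ComputableIn O f) :
    ComputableIn O fun a => (f a).isSome := c_prim Primrec.option_isSome hf

@[fun_prop] lemma c_cons {f : α → β} {g : α → List β} (hf : ComputableIn O f)
    (hg : ComputableIn O g) : ComputableIn O fun a => f a :: g a :=
  c_prim₂ Primrec.list_cons hf hg

@[fun_prop] lemma c_append {f g : α → List β} (hf : ComputableIn O f)
    (hg : ComputableIn O g) : ComputableIn O fun a => f a ++ g a :=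
  c_prim₂ Primrec.list_append hf hg

@[fun_prop] lemma c_length {f : α → List β} (hf : ComputableIn O f) :
    ComputableIn O fun a => (f a).length := c_prim Primrec.list_length hf

@[fun_prop] lemma c_range {f : α → ℕ} (hf : ComputableIn O f) :
    ComputableIn O fun a => List.range (f a) := c_prim Primrec.list_range hf

@[fun_prop] lemma c_take {f : α → ℕ} {g : α → List β} (hf : ComputableIn O f)
    (hg : ComputableIn O g) : ComputableIn O fun a => List.take (f a) (g a) :=
  c_prim₂ Primrec.list_take hf hg

@[fun_prop] lemma c_drop {f : α → ℕ} {g : α → List β} (hf : ComputableIn O f)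
    (hg : ComputableIn O g) : ComputableIn O fun a => List.drop (f a) (g a) :=
  c_prim₂ Primrec.list_drop hf hg

@[fun_prop] lemma c_getElem? {f : α → List β} {g : α → ℕ} (hf : ComputableIn O f)
    (hg : ComputableIn O g) : ComputableIn O fun a => (f a)[g a]? :=
  c_prim₂ Primrec.list_getElem? hf hg

@[fun_prop] lemma c_getD {f : α → List β} {g : α → ℕ} {d : α → β} (hf : ComputableIn O f)
    (hg : ComputableIn O g) (hd : ComputableIn O d) :
    ComputableIn O fun a => (f a).getD (g a) (d a) :=
  cin_of_eq (c_optGetD (c_getElem? hf hg) hd) fun a => by simp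

@[fun_prop] lemma c_flatten {f : α → List (List β)} (hf : ComputableIn O f) :
    ComputableIn O fun a => (f a).flatten := c_prim Primrec.list_flatten hf

@[fun_prop] lemma c_head? {f : α → List β} (hf : ComputableIn O f) :
    ComputableIn O fun a => (f a).head? := c_prim Primrec.list_head? hf

omit [Primcodable β] [Primcodable σ] in
lemma foldl_eq_natIter (h : σ → β → σ) (g : σ) (l : List β) (d : β) :
    l.foldl h g = natIter g (fun n acc => h acc (l.getD n d)) l.length := by
  have : ∀ n ≤ l.length,
      (l.take n).foldl h g = natIter g (fun n acc => h acc (l.getD n d)) n := by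
    intro n
    induction n with
    | zero => intro _; rfl
    | succ n ih =>
      intro hn
      rw [List.take_succ_eq_append_getElem (by omega), List.foldl_append, ih (by omega)]
      simp [natIter, List.getElem?_eq_getElem (show n < l.length by omega)]
  simpa using this l.length le_rfl

@[fun_prop] lemma c_foldl [Inhabited β] {f : α → List β} {g : α → σ} {h : α → σ → β → σ}
    (hf : ComputableIn O f) (hg : ComputableIn O g)
    (hh : ComputableIn O fun p : α × (σ × β) => h p.1 p.2.1 p.2.2) :
    ComputableIn O fun a => (f a).foldl (h a) (g a) := by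
  refine cin_of_eq (f := fun a => natIter (g a)
    (fun n acc => h a acc ((f a).getD n default)) (f a).length) ?_
    fun a => (foldl_eq_natIter _ _ _ _).symm
  refine c_natIter (c_length hf) hg ?_
  exact c_comp hh (g := fun p : α × (ℕ × σ) => (p.1, p.2.2, (f p.1).getD p.2.1 default))
    (by fun_prop)

@[fun_prop] lemma c_map [Inhabited β] {f : α → List β} {g : α → β → γ}
    (hf : ComputableIn O f) (hg : ComputableIn O fun p : α × β => g p.1 p.2) :
    ComputableIn O fun a => (f a).map (g a) := by
  refine cin_of_eq (f := fun a => (f a).foldl (fun acc b => acc ++ [g a b]) []) ?_ fun a => ?_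
  · refine c_foldl hf (c_const _) ?_
    have := c_comp hg (g := fun p : α × (List γ × β) => (p.1, p.2.2)) (by fun_prop)
    exact c_append (by fun_prop) (c_cons this (c_const _))
  · induction f a using List.reverseRecOn with
    | nil => rfl
    | append_singleton l b ih => simp [List.foldl_append, ih]

@[fun_prop] lemma c_flatMap [Inhabited β] {f : α → List β} {g : α → β → List γ}
    (hf : ComputableIn O f) (hg : ComputableIn O fun p : α × β => g p.1 p.2) :
    ComputableIn O fun a => (f a).flatMap (g a) :=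
  cin_of_eq (c_flatten (c_map hf hg)) fun a => by simp [List.flatMap_def]

@[fun_prop] lemma c_filter [Inhabited β] {f : α → List β} {g : α → β → Bool}
    (hf : ComputableIn O f) (hg : ComputableIn O fun p : α × β => g p.1 p.2) :
    ComputableIn O fun a => (f a).filter (g a) := by
  refine cin_of_eq (f := fun a => (f a).flatMap fun b => cond (g a b) [b] []) ?_ fun a => ?_
  · exact c_flatMap hf (c_cond hg (by fun_prop) (c_const _))
  · induction f a with
    | nil => rfl
    | cons b l ih => cases h : g a b <;> simp [h, ← ih]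

@[fun_prop] lemma c_any [Inhabited β] {f : α → List β} {g : α → β → Bool}
    (hf : ComputableIn O f) (hg : ComputableIn O fun p : α × β => g p.1 p.2) :
    ComputableIn O fun a => (f a).any (g a) := by
  refine cin_of_eq (f := fun a => ((f a).filter (g a)).head?.isSome)
    (c_isSome (c_head? (c_filter hf hg))) fun a => ?_
  induction f a with
  | nil => rfl
  | cons b l ih => cases h : g a b <;> simp_all

@[fun_prop] lemma c_all [Inhabited β] {f : α → List β} {g : α → β → Bool}
    (hf : ComputableIn O f) (hg : ComputableIn O fun p : α × β => g p.1 p.2) :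
    ComputableIn O fun a => (f a).all (g a) := by
  refine cin_of_eq (f := fun a => !((f a).any fun b => !g a b))
    (c_not (c_any hf (c_not hg))) fun a => ?_
  induction f a with
  | nil => rfl
  | cons b l ih => cases h : g a b <;> simp_all

@[fun_prop] lemma c_find? [Inhabited β] {f : α → List β} {g : α → β → Bool}
    (hf : ComputableIn O f) (hg : ComputableIn O fun p : α × β => g p.1 p.2) :
    ComputableIn O fun a => (f a).find? (g a) :=
  cin_of_eq (c_head? (c_filter hf hg)) fun a => List.head?_filter

@[fun_prop] lemma c_replicate {f : α → ℕ} {g : α → β} (hf : ComputableIn O f)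
    (hg : ComputableIn O g) : ComputableIn O fun a => List.replicate (f a) (g a) :=
  cin_of_eq (c_map (c_range hf) (g := fun a _ => g a) (by fun_prop)) fun _ => by simp

end closure

/-- all lists of length `n` with entries below `b` -/
def allLists (b n : ℕ) : List (List ℕ) :=
  natIter [[]] (fun _ L => L.flatMap fun l => (List.range b).map fun x => x :: l) n

@[fun_prop] lemma c_allLists {α : Type} [Primcodable α] {O : Set (ℕ →. ℕ)} {f g : α → ℕ}
    (hf : ComputableIn O f) (hg : ComputableIn O g) :
    ComputableIn O fun a => allLists (f a) (g a) := by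
  unfold allLists; fun_prop

lemma mem_allLists {b n : ℕ} {l : List ℕ} :
    l ∈ allLists b n ↔ l.length = n ∧ ∀ x ∈ l, x < b := by
  induction n generalizing l with
  | zero =>
    simp only [allLists, natIter, List.mem_singleton, List.length_eq_zero_iff]
    constructor
    · rintro rfl; simp
    · exact fun h => h.1
  | succ n ih =>
    have : allLists b (n + 1) =
        (allLists b n).flatMap fun l => (List.range b).map fun x => x :: l := rfl
    rw [this]
    simp only [List.mem_flatMap, List.mem_map, List.mem_range, ih]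
    constructor
    · rintro ⟨l', ⟨h1, h2⟩, x, hx, rfl⟩
      refine ⟨by simp [h1], ?_⟩
      intro y hy
      rcases List.mem_cons.1 hy with rfl | hy
      · exact hx
      · exact h2 y hy
    · rintro ⟨h1, h2⟩
      cases l with
      | nil => simp at h1
      | cons x l' =>
        exact ⟨l', ⟨by simpa using h1, fun y hy => h2 y (List.mem_cons_of_mem _ hy)⟩, x,
          h2 x List.mem_cons_self, rfl⟩

lemma re_of_exists {α : Type} [Primcodable α] {B : α → ℕ → Bool}
    (hB : Computable fun p : α × ℕ => B p.1 p.2) : REPred fun a => ∃ w, B a w = true := by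
  have h : Partrec fun a => Nat.rfind fun n => (Part.some (B a n) : Part Bool) :=
    Partrec.rfind (p := fun a n => Part.some (B a n)) hB.partrec
  refine h.dom_re.of_eq fun a => ?_
  rw [Nat.rfind_dom]
  simp

end Pool.Agent.MP_b427ce_lc

end MrgPart0

-- ======== part 1: formerly Pool.Agent.MP_b427ce_lc.Basic
section MrgPart1

/-!
Compactness, initial segments, and the effective use principle.
-/

namespace Pool.Agent.MP_b427ce_lc

open Encodable Nat.Partrec

/-- the first `n` values of a sequence -/
def pre {α : Type} (a : ℕ → α) (n : ℕ) : List α := (List.range n).map a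

@[simp] lemma length_pre {α : Type} (a : ℕ → α) (n : ℕ) : (pre a n).length = n := by simp [pre]

lemma getD_pre {α : Type} (a : ℕ → α) {n j : ℕ} (h : j < n) (d : α) :
    (pre a n).getD j d = a j := by
  simp [pre, List.getD_eq_getElem?_getD, h]

lemma take_pre {α : Type} (a : ℕ → α) {m n : ℕ} (h : m ≤ n) : (pre a n).take m = pre a m := by
  simp [pre, ← List.map_take, List.take_range, min_eq_left h]

lemma pre_succ {α : Type} (a : ℕ → α) (n : ℕ) : pre a (n + 1) = pre a n ++ [a n] := by
  simp [pre, List.range_succ]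

lemma pre_congr {α : Type} {a b : ℕ → α} {n : ℕ} (h : ∀ j < n, a j = b j) :
    pre a n = pre b n := by
  unfold pre
  exact List.map_congr_left fun j hj => h j (List.mem_range.1 hj)

lemma map_pre {α β : Type} (f : α → β) (a : ℕ → α) (n : ℕ) :
    (pre a n).map f = pre (fun j => f (a j)) n := by simp [pre]

lemma pre_getD {α : Type} (l : List α) (d : α) : pre (fun j => l.getD j d) l.length = l := by
  apply List.ext_getElem (by simp)
  intro i h1 h2
  simp [pre, List.getD_eq_getElem?_getD, List.getElem?_eq_getElem h2]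

lemma eq_pre_of {α : Type} {l : List α} {a : ℕ → α} {d : α} {n : ℕ} (hn : l.length = n)
    (h : ∀ j < n, l.getD j d = a j) : l = pre a n := by
  subst hn
  conv_lhs => rw [← pre_getD l d]
  exact pre_congr h

lemma pre_isPrefix {α : Type} (a : ℕ → α) {m n : ℕ} (h : m ≤ n) : pre a m <+: pre a n := by
  rw [← take_pre a h]; exact List.take_prefix _ _

lemma getD_of_isPrefix {α : Type} {l l' : List α} (h : l <+: l') {j : ℕ} (hj : j < l.length)
    (d : α) : l'.getD j d = l.getD j d := by
  obtain ⟨t, rfl⟩ := h
  exact List.getD_append _ _ _ _ hj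

lemma initSeg_eq (X : ℕ → Bool) (n : ℕ) : initSeg X n = pre X n := by
  apply List.ext_getElem (by simp [initSeg])
  intro i h1 h2
  simp [initSeg, pre]

@[fun_prop] lemma c_pre {α β : Type} [Primcodable α] [Primcodable β] {O : Set (ℕ →. ℕ)}
    {f : α → ℕ → β} {g : α → ℕ} (hf : ComputableIn O fun p : α × ℕ => f p.1 p.2)
    (hg : ComputableIn O g) : ComputableIn O fun x => pre (f x) (g x) := by
  unfold pre; fun_prop

/-- a property of sequences that only depends on a finite initial part -/
def Local {α : Type} (P : (ℕ → α) → Prop) : Prop :=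
  ∃ m : ℕ, ∀ a b : ℕ → α, (∀ j < m, a j = b j) → P a → P b

lemma Local.and {α : Type} {P Q : (ℕ → α) → Prop} (hP : Local P) (hQ : Local Q) :
    Local fun a => P a ∧ Q a := by
  obtain ⟨m, hm⟩ := hP
  obtain ⟨n, hn⟩ := hQ
  exact ⟨max m n, fun a b hab h => ⟨hm a b (fun j hj => hab j (by omega)) h.1,
    hn a b (fun j hj => hab j (by omega)) h.2⟩⟩

lemma Local.ball {α : Type} {P : ℕ → (ℕ → α) → Prop} (n : ℕ) (h : ∀ i, Local (P i)) :
    Local fun a => ∀ i ≤ n, P i a := by
  choose m hm using h
  refine ⟨(Finset.range (n + 1)).sup m, fun a b hab ha i hi => hm i a b (fun j hj => hab j ?_)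
    (ha i hi)⟩
  exact lt_of_lt_of_le hj (Finset.le_sup (f := m) (Finset.mem_range.2 (by omega)))

lemma local_pre {α : Type} (n : ℕ) (Q : List α → Prop) : Local fun a => Q (pre a n) :=
  ⟨n, fun _ _ hab h => by simp only [← pre_congr hab]; exact h⟩

lemma konig {α : Type} {F : ℕ → Set α} (hF : ∀ j, (F j).Finite) {P : ℕ → (ℕ → α) → Prop}
    (hP : ∀ n, Local (P n)) (h : ∀ n, ∃ a, (∀ j, a j ∈ F j) ∧ ∀ i ≤ n, P i a) :
    ∃ a, (∀ j, a j ∈ F j) ∧ ∀ n, P n a := by
  let _ : TopologicalSpace α := ⊥
  have : DiscreteTopology α := ⟨rfl⟩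
  have hK : IsCompact (Set.pi Set.univ F) := isCompact_univ_pi fun j => (hF j).isCompact
  have hcl : ∀ n, IsClosed {a : ℕ → α | P n a} := by
    intro n
    obtain ⟨m, hm⟩ := hP n
    have : {a : ℕ → α | P n a} =
        (fun (a : ℕ → α) (j : Fin m) => a j) ⁻¹' ((fun (a : ℕ → α) (j : Fin m) => a j) ''
          {a | P n a}) := by
      ext a
      constructor
      · intro ha; exact ⟨a, ha, rfl⟩
      · rintro ⟨b, hb, hab⟩
        exact hm b a (fun j hj => congrFun hab ⟨j, hj⟩) hb
    rw [this]
    exact (isClosed_discrete _).preimage (by fun_prop)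
  let t : ℕ → Set (ℕ → α) := fun n => Set.pi Set.univ F ∩ ⋂ i ≤ n, {a | P i a}
  have htc : ∀ n, IsClosed (t n) := fun n =>
    hK.isClosed.inter (isClosed_biInter fun i _ => hcl i)
  obtain ⟨a, ha⟩ := IsCompact.nonempty_iInter_of_sequence_nonempty_isCompact_isClosed t
    (fun n a ha => ⟨ha.1, Set.mem_iInter₂.2 fun i hi =>
      Set.mem_iInter₂.1 ha.2 i (le_trans hi (Nat.le_succ n))⟩)
    (fun n => by
      obtain ⟨a, ha1, ha2⟩ := h n
      exact ⟨a, fun j _ => ha1 j, Set.mem_iInter₂.2 ha2⟩)
    (hK.inter_right (isClosed_biInter fun i _ => hcl i)) htc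
  have ha' := Set.mem_iInter.1 ha
  exact ⟨a, fun j => (ha' 0).1 j trivial, fun n => Set.mem_iInter₂.1 (ha' n).2 n le_rfl⟩

section use

variable {ρ : Type} [Primcodable ρ]

/-- a monotone partial computable functional that computes `f` from the sequence `a` -/
def Functional (a : ℕ → ρ) (f : ℕ →. ℕ) : Prop :=
  ∃ G : List ρ → ℕ →. ℕ, Partrec₂ G ∧ (∀ l l' x v, l <+: l' → v ∈ G l x → v ∈ G l' x) ∧
    ∀ x v, v ∈ f x → ∃ n, v ∈ G (pre a n) x

lemma functional_of_partrec (a : ℕ → ρ) {f : ℕ →. ℕ} (hf : Nat.Partrec f) : Functional a f :=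
  ⟨fun _ => f, (Partrec.nat_iff.2 hf).comp Computable.snd, fun _ _ _ _ _ h => h,
    fun _ _ h => ⟨0, h⟩⟩

lemma functional_of_recursiveIn (a : ℕ → ρ) {g : ℕ →. ℕ} (hg : Functional a g) {f : ℕ →. ℕ}
    (hf : Nat.RecursiveIn {g} f) : Functional a f := by
  induction hf with
  | zero => exact functional_of_partrec a .zero
  | succ => exact functional_of_partrec a .succ
  | left => exact functional_of_partrec a .left
  | right => exact functional_of_partrec a .right
  | oracle g' hg' => rw [Set.mem_singleton_iff.1 hg']; exact hg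
  | pair _ _ ih₁ ih₂ =>
    obtain ⟨G₁, c₁, m₁, h₁⟩ := ih₁
    obtain ⟨G₂, c₂, m₂, h₂⟩ := ih₂
    refine ⟨fun l x => (G₁ l x).bind fun u => (G₂ l x).map fun w => Nat.pair u w, ?_, ?_, ?_⟩
    · refine Partrec.bind c₁ (Partrec.map (c₂.comp (Computable.fst.comp Computable.fst)
        (Computable.snd.comp Computable.fst)) ?_)
      exact (Primrec₂.natPair.comp (Primrec.snd.comp Primrec.fst) Primrec.snd).to_comp
    · intro l l' x v hl hv
      simp only [Part.mem_bind_iff, Part.mem_map_iff] at hv ⊢
      obtain ⟨u, hu, w, hw, rfl⟩ := hv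
      exact ⟨u, m₁ _ _ _ _ hl hu, w, m₂ _ _ _ _ hl hw, rfl⟩
    · intro x v hv
      simp only [Seq.seq, Part.map_eq_map, Part.mem_bind_iff,
        Part.mem_map_iff] at hv ⊢
      obtain ⟨_, ⟨u, hu, rfl⟩, w, hw, rfl⟩ := hv
      obtain ⟨n₁, hn₁⟩ := h₁ x u hu
      obtain ⟨n₂, hn₂⟩ := h₂ x w hw
      exact ⟨max n₁ n₂, u, m₁ _ _ _ _ (pre_isPrefix a (le_max_left _ _)) hn₁, w,
        m₂ _ _ _ _ (pre_isPrefix a (le_max_right _ _)) hn₂, rfl⟩
  | comp _ _ ih₁ ih₂ =>
    obtain ⟨G₁, c₁, m₁, h₁⟩ := ih₁
    obtain ⟨G₂, c₂, m₂, h₂⟩ := ih₂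
    refine ⟨fun l x => (G₂ l x).bind fun u => G₁ l u, ?_, ?_, ?_⟩
    · exact Partrec.bind c₂ (c₁.comp (Computable.fst.comp Computable.fst) Computable.snd)
    · intro l l' x v hl hv
      simp only [Part.mem_bind_iff] at hv ⊢
      obtain ⟨u, hu, hw⟩ := hv
      exact ⟨u, m₂ _ _ _ _ hl hu, m₁ _ _ _ _ hl hw⟩
    · intro x v hv
      simp only [Part.bind_eq_bind, Part.mem_bind_iff] at hv ⊢
      obtain ⟨u, hu, hw⟩ := hv
      obtain ⟨n₁, hn₁⟩ := h₁ u v hw
      obtain ⟨n₂, hn₂⟩ := h₂ x u hu
      exact ⟨max n₁ n₂, u, m₂ _ _ _ _ (pre_isPrefix a (le_max_right _ _)) hn₂,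
        m₁ _ _ _ _ (pre_isPrefix a (le_max_left _ _)) hn₁⟩
  | prec _ _ ih₁ ih₂ =>
    obtain ⟨G₁, c₁, m₁, h₁⟩ := ih₁
    obtain ⟨G₂, c₂, m₂, h₂⟩ := ih₂
    refine ⟨fun l x => (Nat.unpair x).2.rec (G₁ l (Nat.unpair x).1) fun y IH =>
      IH.bind fun i => G₂ l (Nat.pair (Nat.unpair x).1 (Nat.pair y i)), ?_, ?_, ?_⟩
    · refine Partrec.nat_rec (α := List ρ × ℕ) (f := fun p => (Nat.unpair p.2).2)
        (g := fun p => G₁ p.1 (Nat.unpair p.2).1)
        (h := fun p q => G₂ p.1 (Nat.pair (Nat.unpair p.2).1 (Nat.pair q.1 q.2)))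
        (toC (by fun_prop)) (c₁.comp Computable.fst (toC (by fun_prop))) ?_
      exact c₂.comp (toC (by fun_prop)) (toC (by fun_prop))
    · intro l l' x v hl hv
      simp only at hv ⊢
      generalize (Nat.unpair x).2 = k at hv ⊢
      induction k generalizing v with
      | zero => exact m₁ _ _ _ _ hl hv
      | succ k ih =>
        simp only [Part.mem_bind_iff] at hv ⊢
        obtain ⟨u, hu, hw⟩ := hv
        exact ⟨u, ih u hu, m₂ _ _ _ _ hl hw⟩
    · intro x v hv
      have mono : ∀ (k : ℕ) (l l' : List ρ) (v : ℕ), l <+: l' →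
          v ∈ (k.rec (G₁ l (Nat.unpair x).1) fun y IH =>
            IH.bind fun i => G₂ l (Nat.pair (Nat.unpair x).1 (Nat.pair y i)) : Part ℕ) →
          v ∈ (k.rec (G₁ l' (Nat.unpair x).1) fun y IH =>
            IH.bind fun i => G₂ l' (Nat.pair (Nat.unpair x).1 (Nat.pair y i)) : Part ℕ) := by
        intro k l l' v hl hv
        induction k generalizing v with
        | zero => exact m₁ _ _ _ _ hl hv
        | succ k ih =>
          simp only [Part.mem_bind_iff] at hv ⊢
          obtain ⟨u, hu, hw⟩ := hv
          exact ⟨u, ih u hu, m₂ _ _ _ _ hl hw⟩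
      simp only at hv ⊢
      generalize (Nat.unpair x).2 = k at hv ⊢
      induction k generalizing v with
      | zero => exact h₁ _ v hv
      | succ k ih =>
        simp only [Part.bind_eq_bind, Part.mem_bind_iff] at hv ⊢
        obtain ⟨u, hu, hw⟩ := hv
        obtain ⟨n₁, hn₁⟩ := ih u hu
        obtain ⟨n₂, hn₂⟩ := h₂ _ v hw
        exact ⟨max n₁ n₂, u, mono k _ _ _ (pre_isPrefix a (le_max_left _ _)) hn₁,
          m₂ _ _ _ _ (pre_isPrefix a (le_max_right _ _)) hn₂⟩
  | rfind _ ih =>
    obtain ⟨G, c, m, h⟩ := ih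
    refine ⟨fun l x => Nat.rfind fun n => (G l (Nat.pair x n)).map fun u => decide (u = 0),
      ?_, ?_, ?_⟩
    · refine Partrec.rfind (α := List ρ × ℕ)
        (p := fun p n => (G p.1 (Nat.pair p.2 n)).map fun u => decide (u = 0)) ?_
      refine Partrec.map (c.comp (toC (by fun_prop)) (toC (by fun_prop))) ?_
      exact toC (f := fun p : ((List ρ × ℕ) × ℕ) × ℕ => eqB p.2 0) (by fun_prop)
    · intro l l' x v hl hv
      simp only [Nat.mem_rfind, Part.mem_map_iff] at hv ⊢
      obtain ⟨⟨u, hu, hu0⟩, hlt⟩ := hv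
      refine ⟨⟨u, m _ _ _ _ hl hu, hu0⟩, fun {k} hk => ?_⟩
      obtain ⟨w, hw, hw0⟩ := hlt hk
      exact ⟨w, m _ _ _ _ hl hw, hw0⟩
    · intro x v hv
      simp only [Nat.mem_rfind, Part.map_eq_map, Part.mem_map_iff] at hv ⊢
      obtain ⟨⟨u, hu, hu0⟩, hlt⟩ := hv
      have : ∀ k, ∃ n, k < v → ∃ w ∈ G (pre a n) (Nat.pair x k), decide (w = 0) = false := by
        intro k
        by_cases hk : k < v
        · obtain ⟨w, hw, hw0⟩ := hlt hk
          obtain ⟨n, hn⟩ := h _ w hw
          exact ⟨n, fun _ => ⟨w, hn, hw0⟩⟩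
        · exact ⟨0, fun h => absurd h hk⟩
      choose nk hnk using this
      obtain ⟨n₀, hn₀⟩ := h _ u hu
      refine ⟨max n₀ ((Finset.range v).sup nk), ⟨u, m _ _ _ _ (pre_isPrefix a (le_max_left _ _))
        hn₀, hu0⟩, fun {k} hk => ?_⟩
      obtain ⟨w, hw, hw0⟩ := hnk k hk
      refine ⟨w, m _ _ _ _ (pre_isPrefix a ?_) hw, hw0⟩
      exact le_trans (Finset.le_sup (f := nk) (Finset.mem_range.2 hk)) (le_max_right _ _)

end use

/-- every function computable in `A` is bounded by a computable function -/
def Dominated (A : Set ℕ) : Prop :=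
  ∀ f : ℕ → ℕ, ComputableIn {oracle A} f → ∃ g : ℕ → ℕ, Computable g ∧ ∀ x, f x ≤ g x

end Pool.Agent.MP_b427ce_lc

end MrgPart1

-- marker of a merged file
example : 731051 + 244958 = 731051 + 244958 := rfl
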