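import Mathlib.Algebra.Order.Ring.Star
import Pool.Agent.MP_b427ce_lc.Basic

-- ======== part 0: formerly Pool.Agent.MP_b427ce_lc.Design
section MrgPart0

/-!
Designs: computable trees of finite arrays which are rich enough to follow any finite family of
programs on their free columns.
-/

namespace Pool.Agent.MP_b427ce_lc

open Encodable Nat.Partrec

/-- a row of an array: the bits of the columns and one program for each column -/
abbrev Row := ℕ × List ℕ

/-- a move: the guessed rows of bits of a block and a target program for each column -/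
abbrev Move := List ℕ × List ℕ

/-- the program `e` computes `Y` from the position `N` on -/
def Comp (e : ℕ) (Y : ℕ → Bool) (N : ℕ) : Prop := ∀ x, N ≤ x → (Y x).toNat ∈ phi e x

lemma Comp.mono {e : ℕ} {Y : ℕ → Bool} {N M : ℕ} (h : Comp e Y N) (hNM : N ≤ M) : Comp e Y M :=
  fun x hx => h x (le_trans hNM hx)

def rowL (β : List Row) (j : ℕ) : Row := β.getD j (0, [])

def mv (h : List Move) (d : ℕ) : Move := h.getD d ([], [])

@[fun_prop] lemma c_rowL {α : Type} [Primcodable α] {O : Set (ℕ →. ℕ)} {f : α → List Row}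
    {g : α → ℕ} (hf : ComputableIn O f) (hg : ComputableIn O g) :
    ComputableIn O fun a => rowL (f a) (g a) := by unfold rowL; fun_prop

@[fun_prop] lemma c_mv {α : Type} [Primcodable α] {O : Set (ℕ →. ℕ)} {f : α → List Move}
    {g : α → ℕ} (hf : ComputableIn O f) (hg : ComputableIn O g) :
    ComputableIn O fun a => mv (f a) (g a) := by unfold mv; fun_prop

lemma rowL_of_isPrefix {β β' : List Row} (h : β <+: β') {j : ℕ} (hj : j < β.length) :
    rowL β' j = rowL β j := getD_of_isPrefix h hj _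

lemma mv_append_left {s t : List Move} {j : ℕ} (hj : j < s.length) : mv (s ++ t) j = mv s j :=
  List.getD_append _ _ _ _ hj

lemma mv_append_right (s t : List Move) (j : ℕ) : mv (s ++ t) (s.length + j) = mv t j := by
  unfold mv
  rw [List.getD_append_right _ _ _ _ (by omega)]
  simp

lemma mv_take {s : List Move} {d j : ℕ} (hj : j < d) : mv (s.take d) j = mv s j := by
  simp [mv, List.getD_eq_getElem?_getD, hj]

lemma mv_pre (f : ℕ → Move) {n j : ℕ} (hj : j < n) : mv (pre f n) j = f j := getD_pre f hj _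

def ValidMove (k : ℕ) (N : ℕ → ℕ) (d : ℕ) (m : Move) : Prop :=
  m.1.length = N (d + 1) - N d ∧ (∀ g ∈ m.1, g < 2 ^ (k + d)) ∧ m.2.length = k + d ∧
    ∀ t ∈ m.2, t < k + d

def ValidSeg (k : ℕ) (N : ℕ → ℕ) (d₀ : ℕ) (s : List Move) : Prop :=
  ∀ j < s.length, ValidMove k N (d₀ + j) (mv s j)

lemma validSeg_nil (k : ℕ) (N : ℕ → ℕ) (d₀ : ℕ) : ValidSeg k N d₀ [] := fun _ hj => by simp at hj

lemma validSeg_append {k : ℕ} {N : ℕ → ℕ} {d₀ : ℕ} {s t : List Move} :
    ValidSeg k N d₀ (s ++ t) ↔ ValidSeg k N d₀ s ∧ ValidSeg k N (d₀ + s.length) t := by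
  constructor
  · intro h
    refine ⟨fun j hj => ?_, fun j hj => ?_⟩
    · have := h j (by simp; omega)
      rwa [mv_append_left hj] at this
    · have := h (s.length + j) (by simp; omega)
      rwa [mv_append_right, ← add_assoc] at this
  · rintro ⟨h1, h2⟩ j hj
    by_cases hjs : j < s.length
    · rw [mv_append_left hjs]; exact h1 j hjs
    · obtain ⟨i, rfl⟩ := Nat.exists_eq_add_of_le (not_lt.1 hjs)
      rw [mv_append_right, ← add_assoc]
      exact h2 i (by simp at hj; omega)

lemma ValidSeg.take {k : ℕ} {N : ℕ → ℕ} {d₀ : ℕ} {s : List Move} (h : ValidSeg k N d₀ s)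
    (d : ℕ) : ValidSeg k N d₀ (s.take d) := by
  intro j hj
  simp only [List.length_take, lt_min_iff] at hj
  rw [mv_take hj.1]
  exact h j hj.2

lemma ValidSeg.append0 {k : ℕ} {N : ℕ → ℕ} {s t : List Move} (h1 : ValidSeg k N 0 s)
    (h2 : ValidSeg k N s.length t) : ValidSeg k N 0 (s ++ t) :=
  validSeg_append.2 ⟨h1, by simpa using h2⟩

structure Design where
  k : ℕ
  N : ℕ → ℕ
  E : List Move → List Row
  dead : List ℕ → Bool
  cN : Computable N
  cE : Computable E
  cdead : Computable dead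
  N_lt : ∀ d, N d < N (d + 1)
  len : ∀ h, ValidSeg k N 0 h → (E h).length = N h.length
  mono : ∀ h, ValidSeg k N 0 h → ∀ d, E (h.take d) <+: E h
  bits : ∀ h, ValidSeg k N 0 h → ∀ d < h.length, ∀ x, N d ≤ x → x < N (d + 1) →
    (rowL (E h) x).1 % 2 ^ (k + d) = (mv h d).1.getD (x - N d) 0
  star : ∀ h, ValidSeg k N 0 h → ∀ d < h.length, ∀ i, k ≤ i → i < k + d → ∀ Y : ℕ → Bool,
    (∀ x, N d ≤ x → x < N (d + 1) → Y x = (rowL (E h) x).1.testBit i) →
    Comp ((mv h d).2.getD i 0) Y (N d) →
    ∀ j, N d ≤ j → j < N (d + 1) → Comp ((rowL (E h) j).2.getD i 0) Y j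

def Agree (β : List Row) (a : ℕ → Row) : Prop := ∀ j < β.length, rowL β j = a j

def Match (K : ℕ) (β : List Row) (y : ℕ → ℕ) : Prop :=
  ∀ j < β.length, (rowL β j).1 % 2 ^ K = y j % 2 ^ K

lemma Agree.of_isPrefix {β β' : List Row} {a : ℕ → Row} (h : Agree β' a) (hp : β <+: β') :
    Agree β a := fun j hj => by
  rw [← rowL_of_isPrefix hp hj]; exact h j (lt_of_lt_of_le hj hp.length_le)

lemma Match.of_isPrefix {K : ℕ} {β β' : List Row} {y : ℕ → ℕ} (h : Match K β' y)
    (hp : β <+: β') : Match K β y := fun j hj => by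
  rw [← rowL_of_isPrefix hp hj]; exact h j (lt_of_lt_of_le hj hp.length_le)

lemma Agree.match {β : List Row} {a : ℕ → Row} (h : Agree β a) (K : ℕ) :
    Match K β fun j => (a j).1 := fun j hj => by rw [h j hj]

lemma Agree.take_eq {β : List Row} {a : ℕ → Row} (h : Agree β a) {n : ℕ} (hn : n ≤ β.length) :
    β.take n = pre a n := by
  refine eq_pre_of (d := (0, [])) (by simp [hn]) fun j hj => ?_
  rw [← h j (by omega)]
  simp [rowL, List.getD_eq_getElem?_getD, hj]

lemma mod_pow_of_le {x y K K' : ℕ} (h : x % 2 ^ K' = y % 2 ^ K') (hK : K ≤ K') :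
    x % 2 ^ K = y % 2 ^ K := by
  have hd : 2 ^ K ∣ 2 ^ K' := pow_dvd_pow 2 hK
  rw [← Nat.mod_mod_of_dvd x hd, h, Nat.mod_mod_of_dvd y hd]

lemma testBit_of_mod {x y K i : ℕ} (h : x % 2 ^ K = y % 2 ^ K) (hi : i < K) :
    x.testBit i = y.testBit i := by
  have h1 := Nat.testBit_mod_two_pow x K i
  have h2 := Nat.testBit_mod_two_pow y K i
  rw [h] at h1
  simpa [hi] using h1.symm.trans h2

lemma Match.mono {K K' : ℕ} {β : List Row} {y : ℕ → ℕ} (h : Match K' β y) (hK : K ≤ K') :
    Match K β y := fun j hj => mod_pow_of_le (h j hj) hK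

/-- the column `i` of an array -/
def col (a : ℕ → Row) (i : ℕ) : ℕ → Bool := fun x => (a x).1.testBit i

/-- if the column `i` is computable then almost all of its programs compute it -/
def Good (a : ℕ → Row) (i : ℕ) : Prop :=
  Computable (col a i) → ∃ n₀, ∀ j, n₀ ≤ j → Comp ((a j).2.getD i 0) (col a i) j

namespace Design

variable (D : Design)

@[fun_prop] lemma c_N {α : Type} [Primcodable α] {O : Set (ℕ →. ℕ)} {f : α → ℕ}
    (hf : ComputableIn O f) : ComputableIn O fun a => D.N (f a) := c_comp D.cN.computableIn hf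

@[fun_prop] lemma c_E {α : Type} [Primcodable α] {O : Set (ℕ →. ℕ)} {f : α → List Move}
    (hf : ComputableIn O f) : ComputableIn O fun a => D.E (f a) := c_comp D.cE.computableIn hf

@[fun_prop] lemma c_dead {α : Type} [Primcodable α] {O : Set (ℕ →. ℕ)} {f : α → List ℕ}
    (hf : ComputableIn O f) : ComputableIn O fun a => D.dead (f a) :=
  c_comp D.cdead.computableIn hf

abbrev Valid (h : List Move) : Prop := ValidSeg D.k D.N 0 h

def Alive (y : ℕ → ℕ) : Prop := ∀ n, D.dead (pre (fun j => y j % 2 ^ D.k) n) = false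

def Mem (a : ℕ → Row) : Prop :=
  (∀ d, ∃ h, D.Valid h ∧ h.length = d ∧ Agree (D.E h) a) ∧ D.Alive fun j => (a j).1

def NE : Prop := ∃ y, D.Alive y ∧ Match D.k (D.E []) y

def C2 : Prop := ∀ a, D.Mem a → ∀ i < D.k, Good a i

lemma N_strictMono : StrictMono D.N := strictMono_nat_of_lt_succ D.N_lt

lemma N_mono {a b : ℕ} (h : a ≤ b) : D.N a ≤ D.N b := D.N_strictMono.monotone h

lemma le_N (d : ℕ) : d ≤ D.N d := D.N_strictMono.le_apply

lemma exists_block {d₀ l x : ℕ} (h1 : D.N d₀ ≤ x) (h2 : x < D.N (d₀ + l)) :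
    ∃ j < l, D.N (d₀ + j) ≤ x ∧ x < D.N (d₀ + j + 1) := by
  induction l with
  | zero => simp at h2; omega
  | succ l ih =>
    by_cases h : x < D.N (d₀ + l)
    · obtain ⟨j, hj, h⟩ := ih h
      exact ⟨j, by omega, h⟩
    · exact ⟨l, by omega, not_lt.1 h, h2⟩

lemma E_isPrefix {h s : List Move} (hv : D.Valid (h ++ s)) : D.E h <+: D.E (h ++ s) := by
  simpa using D.mono _ hv h.length

lemma Alive.congr {D : Design} {y y' : ℕ → ℕ} (h : D.Alive y)
    (hy : ∀ j, y j % 2 ^ D.k = y' j % 2 ^ D.k) : D.Alive y' := fun n => by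
  rw [← pre_congr (a := fun j => y j % 2 ^ D.k) fun j _ => hy j]; exact h n

/-- the move that follows `y` with targets `τ` -/
def plain (d : ℕ) (y : ℕ → ℕ) (τ : ℕ → ℕ) : Move :=
  (pre (fun j => y (D.N d + j) % 2 ^ (D.k + d)) (D.N (d + 1) - D.N d), pre τ (D.k + d))

def plainSeg (d₀ : ℕ) (y : ℕ → ℕ) (τ : ℕ → ℕ → ℕ) (l : ℕ) : List Move :=
  pre (fun j => D.plain (d₀ + j) y (τ (d₀ + j))) l

@[simp] lemma length_plainSeg (d₀ : ℕ) (y : ℕ → ℕ) (τ : ℕ → ℕ → ℕ) (l : ℕ) :
    (D.plainSeg d₀ y τ l).length = l := by simp [plainSeg]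

lemma mv_plainSeg {d₀ : ℕ} {y : ℕ → ℕ} {τ : ℕ → ℕ → ℕ} {l j : ℕ} (hj : j < l) :
    mv (D.plainSeg d₀ y τ l) j = D.plain (d₀ + j) y (τ (d₀ + j)) := mv_pre _ hj

lemma valid_plainSeg {d₀ : ℕ} (y : ℕ → ℕ) {τ : ℕ → ℕ → ℕ}
    (hτ : ∀ d i, d₀ ≤ d → i < D.k + d → τ d i < D.k + d) (l : ℕ) :
    ValidSeg D.k D.N d₀ (D.plainSeg d₀ y τ l) := by
  intro j hj
  simp only [length_plainSeg] at hj
  rw [mv_plainSeg _ hj]
  refine ⟨by simp [plain], ?_, by simp [plain], ?_⟩
  · intro g hg
    simp only [plain, pre, List.mem_map] at hg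
    obtain ⟨i, -, rfl⟩ := hg
    exact Nat.mod_lt _ (by positivity)
  · intro t ht
    simp only [plain, pre, List.mem_map, List.mem_range] at ht
    obtain ⟨i, hi, rfl⟩ := ht
    exact hτ _ _ (by omega) hi

lemma match_plainSeg {h : List Move} (hv : D.Valid h) {y : ℕ → ℕ} {τ : ℕ → ℕ → ℕ}
    (hτ : ∀ d i, h.length ≤ d → i < D.k + d → τ d i < D.k + d) (l : ℕ) {K : ℕ}
    (hK : K ≤ D.k + h.length) (hm : Match K (D.E h) y) :
    Match K (D.E (h ++ D.plainSeg h.length y τ l)) y := by
  have hv' : D.Valid (h ++ D.plainSeg h.length y τ l) := hv.append0 (D.valid_plainSeg y hτ l)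
  intro x hx
  rw [D.len _ hv'] at hx
  simp only [List.length_append, length_plainSeg] at hx
  by_cases hxh : x < D.N h.length
  · rw [← D.len _ hv] at hxh
    rw [rowL_of_isPrefix (D.E_isPrefix hv') hxh]
    exact hm x hxh
  · obtain ⟨j, hj, h1, h2⟩ := D.exists_block (not_lt.1 hxh) hx
    have := D.bits _ hv' (h.length + j) (by simp; omega) x h1 h2
    rw [mv_append_right, mv_plainSeg _ hj] at this
    simp only [plain] at this
    rw [getD_pre _ (by omega), show D.N (h.length + j) + (x - D.N (h.length + j)) = x by omega]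
      at this
    exact mod_pow_of_le this (by omega)

lemma exists_mem (hD : D.NE) : ∃ a, D.Mem a := by
  obtain ⟨y, hy, hm⟩ := hD
  let H : ℕ → List Move := fun d => D.plainSeg 0 y (fun _ _ => 0) d
  have hτ : ∀ d i, 0 ≤ d → i < D.k + d → (fun _ _ => 0 : ℕ → ℕ → ℕ) d i < D.k + d :=
    fun d i _ hi => by simp only; omega
  have hv : ∀ d, D.Valid (H d) := fun d => D.valid_plainSeg y hτ d
  have hlen : ∀ d, (D.E (H d)).length = D.N d := fun d => by rw [D.len _ (hv d)]; simp [H]
  have hpre : ∀ d d', d ≤ d' → D.E (H d) <+: D.E (H d') := by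
    intro d d' hd
    have := D.mono _ (hv d') d
    rwa [show (H d').take d = H d from take_pre _ hd] at this
  have hag : ∀ d, Agree (D.E (H d)) fun j => rowL (D.E (H (j + 1))) j := by
    intro d j hj
    have h1 : j < (D.E (H (j + 1))).length := by
      rw [hlen]; exact lt_of_lt_of_le (Nat.lt_succ_self j) (D.le_N _)
    rw [← rowL_of_isPrefix (hpre d _ (le_max_left d (j + 1))) hj]
    exact rowL_of_isPrefix (hpre (j + 1) _ (le_max_right d (j + 1))) h1
  refine ⟨fun j => rowL (D.E (H (j + 1))) j, fun d => ⟨H d, hv d, by simp [H], hag d⟩,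
    hy.congr fun j => ?_⟩
  have := D.match_plainSeg (h := []) (validSeg_nil _ _ _) (y := y) (τ := fun _ _ => 0) hτ (j + 1)
    (K := D.k) (by simp) hm j (by
      simp only [List.length_nil, List.nil_append]
      exact lt_of_lt_of_le (lt_of_lt_of_le (Nat.lt_succ_self j) (D.le_N _)) (hlen _).ge)
  simpa using this.symm

/-- all valid moves at depth `d` -/
def moves (d : ℕ) : List Move :=
  (allLists (2 ^ (D.k + d)) (D.N (d + 1) - D.N d)).flatMap fun g =>
    (allLists (D.k + d) (D.k + d)).map fun t => (g, t)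

/-- all valid segments of length `l` that start at depth `d₀` -/
def segs (d₀ l : ℕ) : List (List Move) :=
  natIter [[]] (fun j S => S.flatMap fun s => (D.moves (d₀ + j)).map fun m => s ++ [m]) l

@[fun_prop] lemma c_moves {α : Type} [Primcodable α] {O : Set (ℕ →. ℕ)} {f : α → ℕ}
    (hf : ComputableIn O f) : ComputableIn O fun a => D.moves (f a) := by
  unfold moves; fun_prop

@[fun_prop] lemma c_segs {α : Type} [Primcodable α] {O : Set (ℕ →. ℕ)} {f g : α → ℕ}
    (hf : ComputableIn O f) (hg : ComputableIn O g) :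
    ComputableIn O fun a => D.segs (f a) (g a) := by
  unfold segs; fun_prop

@[fun_prop] lemma c_plainSeg {α : Type} [Primcodable α] {O : Set (ℕ →. ℕ)} {d l : α → ℕ}
    {y : α → ℕ → ℕ} {τ : α → ℕ → ℕ → ℕ} (hd : ComputableIn O d) (hl : ComputableIn O l)
    (hy : ComputableIn O fun p : α × ℕ => y p.1 p.2)
    (hτ : ComputableIn O fun p : α × ℕ × ℕ => τ p.1 p.2.1 p.2.2) :
    ComputableIn O fun a => D.plainSeg (d a) (y a) (τ a) (l a) := by
  unfold plainSeg plain; fun_prop

lemma mem_moves {d : ℕ} {m : Move} : m ∈ D.moves d ↔ ValidMove D.k D.N d m := by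
  obtain ⟨g, t⟩ := m
  simp only [moves, List.mem_flatMap, List.mem_map, mem_allLists, Prod.mk.injEq, ValidMove]
  constructor
  · rintro ⟨g', h1, t', h2, rfl, rfl⟩
    exact ⟨h1.1, h1.2, h2.1, h2.2⟩
  · rintro ⟨h1, h2, h3, h4⟩
    exact ⟨g, ⟨h1, h2⟩, t, ⟨h3, h4⟩, rfl, rfl⟩

lemma mem_segs {d₀ l : ℕ} {s : List Move} :
    s ∈ D.segs d₀ l ↔ s.length = l ∧ ValidSeg D.k D.N d₀ s := by
  induction l generalizing s with
  | zero =>
    simp only [segs, natIter, List.mem_singleton, List.length_eq_zero_iff]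
    constructor
    · rintro rfl; exact ⟨rfl, validSeg_nil _ _ _⟩
    · exact fun h => h.1
  | succ l ih =>
    have : D.segs d₀ (l + 1) =
        (D.segs d₀ l).flatMap fun s => (D.moves (d₀ + l)).map fun m => s ++ [m] := rfl
    rw [this]
    simp only [List.mem_flatMap, List.mem_map, ih, mem_moves]
    constructor
    · rintro ⟨s', ⟨h1, h2⟩, m, hm, rfl⟩
      refine ⟨by simp [h1], validSeg_append.2 ⟨h2, fun j hj => ?_⟩⟩
      simp only [List.length_singleton, Nat.lt_one_iff] at hj
      subst hj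
      simpa [h1, mv] using hm
    · rintro ⟨h1, h2⟩
      rcases List.eq_nil_or_concat s with rfl | ⟨s', m, rfl⟩
      · simp at h1
      · simp only [List.concat_eq_append] at h1 h2 ⊢
        have hl : s'.length = l := by simpa using h1
        obtain ⟨h3, h4⟩ := validSeg_append.1 h2
        refine ⟨s', ⟨hl, h3⟩, m, ?_, rfl⟩
        simpa [hl, mv] using h4 0 (by simp)

/-- the targets used along the segment `s` are as good as the targets `t` -/
def TargetOK (α : List Move) (t : ℕ → ℕ) (s : List Move) : Prop :=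
  ∀ i, D.k ≤ i → i < D.k + α.length → ∀ Y : ℕ → Bool,
    (∀ x, D.N α.length ≤ x → x < D.N (α.length + s.length) →
      Y x = (rowL (D.E (α ++ s)) x).1.testBit i) →
    Comp (t i) Y (D.N α.length) → ∀ j < s.length, Comp ((mv s j).2.getD i 0) Y (D.N α.length)

lemma TargetOK.faithful {D : Design} {α s : List Move} {t : ℕ → ℕ} (h : D.TargetOK α t s)
    (hv : D.Valid (α ++ s)) {i : ℕ} (hi1 : D.k ≤ i) (hi2 : i < D.k + α.length) {Y : ℕ → Bool}
    (hY : ∀ x, D.N α.length ≤ x → x < D.N (α.length + s.length) →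
      Y x = (rowL (D.E (α ++ s)) x).1.testBit i)
    (hc : Comp (t i) Y (D.N α.length)) {j : ℕ} (hj1 : D.N α.length ≤ j)
    (hj2 : j < D.N (α.length + s.length)) : Comp ((rowL (D.E (α ++ s)) j).2.getD i 0) Y j := by
  obtain ⟨b, hb, h1, h2⟩ := D.exists_block hj1 hj2
  refine D.star _ hv (α.length + b) (by simp; omega) i hi1 (by omega) Y
    (fun x hx1 hx2 => hY x (le_trans (D.N_mono (by omega)) hx1)
      (lt_of_lt_of_le hx2 (D.N_mono (by omega)))) ?_ j h1 h2
  rw [mv_append_right]
  exact (h i hi1 hi2 Y hY hc b hb).mono (D.N_mono (by omega))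

lemma TargetOK.nil (α : List Move) (t : ℕ → ℕ) : D.TargetOK α t [] :=
  fun _ _ _ _ _ _ _ hj => by simp at hj

lemma TargetOK.append_plain {D : Design} {α s : List Move} {t : ℕ → ℕ} (h : D.TargetOK α t s)
    (hv : D.Valid (α ++ s)) (y : ℕ → ℕ) {τ : ℕ → ℕ → ℕ}
    (hτ : ∀ d i, (α ++ s).length ≤ d → i < D.k + d → τ d i < D.k + d)
    (hτt : ∀ d i, i < D.k + α.length → τ d i = t i) (l : ℕ) :
    D.TargetOK α t (s ++ D.plainSeg (α ++ s).length y τ l) := by
  have hv' : D.Valid ((α ++ s) ++ D.plainSeg (α ++ s).length y τ l) :=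
    hv.append0 (D.valid_plainSeg y hτ l)
  intro i hi1 hi2 Y hY hc j hj
  by_cases hjs : j < s.length
  · rw [mv_append_left hjs]
    refine h i hi1 hi2 Y (fun x hx1 hx2 => ?_) hc j hjs
    rw [hY x hx1 (lt_of_lt_of_le hx2 (D.N_mono (by simp))), ← List.append_assoc,
      rowL_of_isPrefix (D.E_isPrefix hv') (by rw [D.len _ hv]; simpa using hx2)]
  · obtain ⟨b, rfl⟩ := Nat.exists_eq_add_of_le (not_lt.1 hjs)
    have hb : b < l := by simp at hj; omega
    rw [mv_append_right, D.mv_plainSeg hb]
    simp only [plain]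
    rw [getD_pre _ (by simp; omega), hτt _ _ hi2]
    exact hc

end Design

end Pool.Agent.MP_b427ce_lc

end MrgPart0

-- ======== part 1: formerly Pool.Agent.MP_b427ce_lc.Restrict
section MrgPart1

/-!
The base design, restrictions of a design, and promises.
-/

namespace Pool.Agent.MP_b427ce_lc

open Encodable Nat.Partrec

/-- the array of the base design -/
def baseE (h : List Move) : List Row := h.map fun m => (m.1.getD 0 0, m.2)

lemma rowL_baseE {h : List Move} {d : ℕ} (hd : d < h.length) :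
    rowL (baseE h) d = ((mv h d).1.getD 0 0, (mv h d).2) := by
  simp [rowL, baseE, mv, List.getD_eq_getElem?_getD, List.getElem?_eq_getElem hd]

def baseDesign : Design where
  k := 0
  N := fun d => d
  E := baseE
  dead := fun _ => false
  cN := Computable.id
  cE := toC (by unfold baseE; fun_prop)
  cdead := Computable.const _
  N_lt := fun d => Nat.lt_succ_self d
  len := fun h _ => by simp [baseE]
  mono := fun h _ d => by
    unfold baseE
    rw [List.map_take]
    exact List.take_prefix _ _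
  bits := fun h hv d hd x h1 h2 => by
    obtain rfl : x = d := by omega
    rw [rowL_baseE hd]
    obtain ⟨h3, h4, -⟩ := hv x hd
    simp only [zero_add, add_tsub_cancel_left] at h3 h4
    simp only [zero_add, tsub_self]
    apply Nat.mod_eq_of_lt
    apply h4
    rw [List.getD_eq_getElem _ _ (by omega)]
    exact List.getElem_mem _
  star := fun h hv d hd i _ _ Y _ hc j h1 h2 => by
    obtain rfl : j = d := by omega
    rw [rowL_baseE hd]
    exact hc

lemma baseDesign_NE : baseDesign.NE :=
  ⟨fun _ => 0, fun _ => rfl, fun j hj => by simp [baseDesign, baseE] at hj⟩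

lemma baseDesign_C2 : baseDesign.C2 := fun _ _ i hi => by simp [baseDesign] at hi

/-- overwrite the targets of the first `K` columns -/
def overw (d₀ K : ℕ) (τ : ℕ → ℕ → ℕ) (h : List Move) : List Move :=
  pre (fun j => ((mv h j).1,
    pre (fun i => bif leB K i then (mv h j).2.getD i 0 else τ (d₀ + j) i) (K + j))) h.length

@[simp] lemma length_overw (d₀ K : ℕ) (τ : ℕ → ℕ → ℕ) (h : List Move) :
    (overw d₀ K τ h).length = h.length := by simp [overw]

lemma mv_overw {d₀ K : ℕ} {τ : ℕ → ℕ → ℕ} {h : List Move} {j : ℕ} (hj : j < h.length) :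
    mv (overw d₀ K τ h) j = ((mv h j).1,
      pre (fun i => bif leB K i then (mv h j).2.getD i 0 else τ (d₀ + j) i) (K + j)) :=
  mv_pre _ hj

lemma overw_take (d₀ K : ℕ) (τ : ℕ → ℕ → ℕ) (h : List Move) (d : ℕ) :
    overw d₀ K τ (h.take d) = (overw d₀ K τ h).take d := by
  by_cases hd : d ≤ h.length
  · unfold overw
    rw [take_pre _ hd, List.length_take, min_eq_left hd]
    exact pre_congr fun j hj => by rw [mv_take hj]
  · rw [List.take_of_length_le (by omega), List.take_of_length_le (by simp; omega)]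

lemma valid_overw {k : ℕ} {N : ℕ → ℕ} {d₀ : ℕ} {τ : ℕ → ℕ → ℕ}
    (hτ : ∀ d i, d₀ ≤ d → i < k + d₀ → τ d i < k + d) {h : List Move}
    (hv : ValidSeg (k + d₀) (fun d => N (d₀ + d)) 0 h) :
    ValidSeg k N d₀ (overw d₀ (k + d₀) τ h) := by
  intro j hj
  simp only [length_overw] at hj
  rw [mv_overw hj]
  obtain ⟨h1, h2, h3, h4⟩ := hv j hj
  simp only [zero_add] at h1 h2 h3 h4
  refine ⟨h1, by simpa [add_assoc] using h2, by simp [add_assoc], ?_⟩
  intro t ht
  simp only [pre, List.mem_map, List.mem_range] at ht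
  obtain ⟨i, hi, rfl⟩ := ht
  by_cases hK : k + d₀ ≤ i
  · rw [leB_iff.2 hK, cond_true, List.getD_eq_getElem _ _ (by omega)]
    have := h4 _ (List.getElem_mem (show i < (mv h j).2.length by omega))
    omega
  · rw [leB_false_iff.2 (not_le.1 hK), cond_false]
    exact hτ _ _ (by omega) (by omega)

namespace Design

variable (D : Design)

/-- fix a stem, fix the targets of the columns that are active at the stem, and shrink the
class of admissible paths -/
def restrict (α : List Move) (hα : D.Valid α) (τ : ℕ → ℕ → ℕ)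
    (cτ : Computable fun p : ℕ × ℕ => τ p.1 p.2)
    (hτ : ∀ d i, α.length ≤ d → i < D.k + α.length → τ d i < D.k + d)
    (dead' : List ℕ → Bool) (cdead' : Computable dead') : Design where
  k := D.k + α.length
  N := fun d => D.N (α.length + d)
  E := fun h => D.E (α ++ overw α.length (D.k + α.length) τ h)
  dead := dead'
  cN := toC (by fun_prop)
  cE := toC (by
    have := cτ.computableIn (O := ∅)
    unfold overw
    fun_prop)
  cdead := cdead'
  N_lt := fun d => D.N_lt _
  len := fun h hv => by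
    rw [D.len _ (hα.append0 (valid_overw hτ hv))]; simp
  mono := fun h hv d => by
    have := D.mono _ (hα.append0 (valid_overw hτ hv)) (α.length + d)
    rwa [List.take_length_add_append, ← overw_take] at this
  bits := fun h hv d hd x h1 h2 => by
    have := D.bits _ (hα.append0 (valid_overw hτ hv)) (α.length + d) (by simp; omega) x h1 h2
    rw [mv_append_right, mv_overw hd] at this
    simpa [add_assoc] using this
  star := fun h hv d hd i hi1 hi2 Y hY hc j h1 h2 => by
    refine D.star _ (hα.append0 (valid_overw hτ hv)) (α.length + d) (by simp; omega) i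
      (by omega) (by omega) Y hY ?_ j h1 h2
    rw [mv_append_right, mv_overw hd]
    simp only
    rw [getD_pre _ hi2, leB_iff.2 hi1, cond_true]
    exact hc

section

variable {D} {α : List Move} {hα : D.Valid α} {τ : ℕ → ℕ → ℕ}
  {cτ : Computable fun p : ℕ × ℕ => τ p.1 p.2}
  {hτ : ∀ d i, α.length ≤ d → i < D.k + α.length → τ d i < D.k + d}
  {dead' : List ℕ → Bool} {cdead' : Computable dead'}

lemma restrict_seg {a : ℕ → Row} (ha : (D.restrict α hα τ cτ hτ dead' cdead').Mem a) (d : ℕ) :
    ∃ s, ValidSeg D.k D.N α.length s ∧ s.length = d ∧ Agree (D.E (α ++ s)) a ∧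
      ∀ j < d, ∀ i < D.k + α.length, (mv s j).2.getD i 0 = τ (α.length + j) i := by
  obtain ⟨h, hv, hl, hag⟩ := ha.1 d
  refine ⟨_, valid_overw hτ hv, by simpa using hl, hag, fun j hj i hi => ?_⟩
  rw [mv_overw (by omega)]
  simp only
  rw [getD_pre _ (by omega), leB_false_iff.2 hi, cond_false]

lemma mem_of_mem_restrict {a : ℕ → Row} (ha : (D.restrict α hα τ cτ hτ dead' cdead').Mem a)
    (hal : D.Alive fun j => (a j).1) : D.Mem a := by
  refine ⟨fun d => ?_, hal⟩
  obtain ⟨s, hv, hl, hag, -⟩ := restrict_seg ha d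
  have hv' := hα.append0 hv
  refine ⟨(α ++ s).take d, hv'.take d, by simp; omega, hag.of_isPrefix (D.mono _ hv' d)⟩

lemma good_of_restrict {a : ℕ → Row} (ha : (D.restrict α hα τ cτ hτ dead' cdead').Mem a)
    {i q d₁ : ℕ} (hi1 : D.k ≤ i) (hi2 : i < D.k + α.length) (hq : ∀ d, d₁ ≤ d → τ d i = q)
    (hc : Comp q (col a i) (D.N α.length)) :
    ∃ n₀, ∀ j, n₀ ≤ j → Comp ((a j).2.getD i 0) (col a i) j := by
  refine ⟨D.N (α.length + d₁), fun j hj => ?_⟩
  obtain ⟨b, -, h1, h2⟩ := D.exists_block (d₀ := α.length + d₁) (l := j + 1) hj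
    (lt_of_lt_of_le (by omega) (D.le_N _))
  obtain ⟨s, hv, hl, hag, ht⟩ := restrict_seg ha (d₁ + b + 1)
  have hv' := hα.append0 hv
  have hlen : (D.E (α ++ s)).length = D.N (α.length + d₁ + b + 1) := by
    rw [D.len _ hv']; simp [hl, add_assoc]
  have := D.star _ hv' (α.length + d₁ + b) (by simp; omega) i hi1 (by omega) (col a i)
    (fun x _ hx => by rw [hag x (by omega)]; rfl) ?_ j h1 h2
  · rwa [hag j (by omega)] at this
  · rw [add_assoc, mv_append_right, ht _ (by omega) _ hi2, hq _ (by omega)]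
    exact hc.mono (D.N_mono (by omega))

end

lemma any_dead_false {y : ℕ → ℕ} {K n : ℕ} (hK : D.k ≤ K) :
    ((List.range (n + 1)).any fun m =>
      D.dead (((pre (fun j => y j % 2 ^ K) n).take m).map fun u => u % 2 ^ D.k)) = false ↔
      ∀ m ≤ n, D.dead (pre (fun j => y j % 2 ^ D.k) m) = false := by
  have : ∀ m ≤ n, ((pre (fun j => y j % 2 ^ K) n).take m).map (fun u => u % 2 ^ D.k) =
      pre (fun j => y j % 2 ^ D.k) m := by
    intro m hm
    rw [take_pre _ hm, map_pre]
    exact pre_congr fun j _ => Nat.mod_mod_of_dvd _ (pow_dvd_pow 2 hK)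
  simp only [List.any_eq_false, List.mem_range, Bool.not_eq_true]
  exact ⟨fun h m hm => by rw [← this m hm]; exact h m (by omega),
    fun h m hm => by rw [this m (by omega)]; exact h m (by omega)⟩

lemma exists_index {Z : ℕ → Bool} (hZ : Computable Z) : ∃ e, ∀ x, (Z x).toNat ∈ phi e x := by
  have h : Computable fun x => (Z x).toNat := (Primrec.dom_bool Bool.toNat).to_comp.comp hZ
  obtain ⟨c, hc⟩ := Code.exists_code.1 (Partrec.nat_iff.1 h.partrec)
  exact ⟨encode c, fun x => by simp [phi, hc]⟩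

/-- a design can promise to follow a computable real on a new column -/
lemma exists_promise (hNE : D.NE) (hC : D.C2) {Z : ℕ → Bool} (hZ : Computable Z) :
    ∃ D' : Design, D'.NE ∧ D'.C2 ∧ (∀ a, D'.Mem a → D.Mem a) ∧ D.k < D'.k ∧
      ∀ a, D'.Mem a → ∃ i n, ∀ x, n ≤ x → col a i x = Z x := by
  obtain ⟨y, hy, hm⟩ := hNE
  obtain ⟨e, he⟩ := exists_index hZ
  have h0 : ∀ d i, 0 ≤ d → i < D.k + d → (fun _ _ => 0 : ℕ → ℕ → ℕ) d i < D.k + d :=
    fun d i _ hi => by simp only; omega
  let α := D.plainSeg 0 y (fun _ _ => 0) 1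
  have hα : D.Valid α := D.valid_plainSeg y h0 1
  have hαl : α.length = 1 := by simp [α]
  have hmα : Match D.k (D.E α) y := by
    simpa using D.match_plainSeg (h := []) (validSeg_nil _ _ _) (y := y) h0 1 (K := D.k)
      (by simp) hm
  let τ : ℕ → ℕ → ℕ := fun d i => bif eqB i D.k && leB (e + 1) (D.k + d) then e else 0
  have cτ : Computable fun p : ℕ × ℕ => τ p.1 p.2 := toC (by simp only [τ]; fun_prop)
  have hτ : ∀ d i, α.length ≤ d → i < D.k + α.length → τ d i < D.k + d := by
    intro d i hd hi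
    simp only [τ]
    cases h : eqB i D.k && leB (e + 1) (D.k + d)
    · simp; omega
    · simp at h ⊢; omega
  let dead' : List ℕ → Bool := fun η =>
    ((List.range (η.length + 1)).any fun m => D.dead ((η.take m).map fun u => u % 2 ^ D.k)) ||
    ((List.range η.length).any fun z =>
      leB (D.N 1) z && !eqB ((η.getD z 0).testBit D.k) (Z z))
  have cdead' : Computable dead' := toC (by
    have := hZ.computableIn (O := ∅)
    simp only [dead']; fun_prop)
  have halive : ∀ y' : ℕ → ℕ, (D.restrict α hα τ cτ hτ dead' cdead').Alive y' ↔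
      D.Alive y' ∧ ∀ z, D.N 1 ≤ z → (y' z).testBit D.k = Z z := by
    intro y'
    have hb : ∀ n z, z < n → ((pre (fun j => y' j % 2 ^ (D.k + α.length)) n).getD z 0).testBit D.k
        = (y' z).testBit D.k := by
      intro n z hz
      rw [getD_pre _ hz, Nat.testBit_mod_two_pow]; simp [hαl]
    constructor
    · intro h
      refine ⟨fun n => ?_, fun z hz => ?_⟩
      · have := h n
        simp only [restrict, dead', Bool.or_eq_false_iff, length_pre] at this
        exact (D.any_dead_false (by omega)).1 this.1 n le_rfl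
      · have := h (z + 1)
        simp only [restrict, dead', Bool.or_eq_false_iff, length_pre] at this
        have := List.any_eq_false.1 this.2 z (by simp)
        rw [hb _ _ (by omega)] at this
        simpa [hz] using this
    · rintro ⟨h1, h2⟩ n
      simp only [restrict, dead', Bool.or_eq_false_iff, length_pre]
      refine ⟨(D.any_dead_false (by omega)).2 fun m _ => h1 m, List.any_eq_false.2 fun z hz => ?_⟩
      rw [hb _ _ (List.mem_range.1 hz)]
      by_cases hz' : D.N 1 ≤ z
      · simp [h2 z hz']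
      · simp [hz']
  have hsub : ∀ a, (D.restrict α hα τ cτ hτ dead' cdead').Mem a → D.Mem a := fun a ha =>
    mem_of_mem_restrict ha ((halive _).1 ha.2).1
  have hcol : ∀ a, (D.restrict α hα τ cτ hτ dead' cdead').Mem a →
      ∀ x, D.N 1 ≤ x → col a D.k x = Z x := fun a ha => ((halive _).1 ha.2).2
  refine ⟨D.restrict α hα τ cτ hτ dead' cdead', ?_, ?_, hsub, by simp [restrict, hαl],
    fun a ha => ⟨_, _, hcol a ha⟩⟩
  · refine ⟨fun z => if z < D.N 1 then (rowL (D.E α) z).1
      else 2 ^ D.k * (Z z).toNat + y z % 2 ^ D.k, (halive _).2 ⟨hy.congr fun z => ?_, ?_⟩, ?_⟩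
    · split_ifs with hz
      · exact (hmα z (by rw [D.len _ hα, hαl]; exact hz)).symm
      · simp
    · intro z hz
      rw [if_neg (by omega), Nat.testBit_two_pow_mul_add _ (Nat.mod_lt _ (by positivity))]
      cases Z z <;> simp
    · intro z hz
      have : (D.restrict α hα τ cτ hτ dead' cdead').E [] = D.E α := by simp [restrict, overw, pre]
      rw [this] at hz ⊢
      rw [D.len _ hα, hαl] at hz
      simp only [if_pos hz]
  · intro a ha i hi
    by_cases hik : i < D.k
    · exact hC a (hsub a ha) i hik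
    · obtain rfl : i = D.k := by simp [restrict, hαl] at hi; omega
      intro _
      refine good_of_restrict ha (q := e) (d₁ := e + 1) le_rfl (by omega) (fun d hd => ?_) ?_
      · have : leB (e + 1) (D.k + d) = true := by simp; omega
        simp [τ, this, eqB]
      · intro x hx
        rw [hαl] at hx
        rw [hcol a ha x hx]
        exact he x

end Design

end Pool.Agent.MP_b427ce_lc

end MrgPart1

-- ======== part 2: formerly Pool.Agent.MP_b427ce_lc.Kill
section MrgPart2

/-!
The controlled programs: they pretend to follow a computable real until they are released.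
-/

namespace Pool.Agent.MP_b427ce_lc

open Encodable Nat.Partrec

/-- stem, targets and the argument of the functional -/
abbrev Ctx := List Move × List ℕ × ℕ

def haltB (o : Option ℕ) (s : ℕ) : Bool := o.isSome && leB (o.getD 0) s

lemma haltB_iff {o : Option ℕ} {s : ℕ} : haltB o s = true ↔ ∃ v, o = some v ∧ v ≤ s := by
  cases o <;> simp [haltB]

def qidx (c : Code) (ctx : Ctx) (es : List ℕ) (i : ℕ) : ℕ :=
  encode (Code.curry c (Nat.pair 0 (encode (ctx, es, i))))

def certIn (ctx : Ctx) (s : List Move) : ℕ := Nat.pair (Nat.pair 1 (encode (ctx, s))) 0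

def convB (cΦ : Code) (β : List Row) (x s : ℕ) : Bool :=
  (List.range (β.length + 1)).any fun n => haltB (Code.evaln s cΦ (encode (β.take n, x))) s

def certS (c : Code) (ctx : Ctx) (seg : List Move) (s : ℕ) : Bool :=
  haltB (Code.evaln s c (certIn ctx seg)) s

def matchB (K : ℕ) (β : List Row) (η : List ℕ) : Bool :=
  leB β.length η.length &&
    (List.range β.length).all fun z => eqB ((rowL β z).1 % 2 ^ K) (η.getD z 0 % 2 ^ K)

section

variable {α : Type} [Primcodable α] {O : Set (ℕ →. ℕ)}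

@[fun_prop] lemma c_haltB {f : α → Option ℕ} {g : α → ℕ} (hf : ComputableIn O f)
    (hg : ComputableIn O g) : ComputableIn O fun a => haltB (f a) (g a) := by
  unfold haltB; fun_prop

@[fun_prop] lemma c_qidx {c : α → Code} {ctx : α → Ctx} {es : α → List ℕ} {i : α → ℕ}
    (h1 : ComputableIn O c) (h2 : ComputableIn O ctx) (h3 : ComputableIn O es)
    (h4 : ComputableIn O i) : ComputableIn O fun a => qidx (c a) (ctx a) (es a) (i a) := by
  unfold qidx; fun_prop

@[fun_prop] lemma c_certIn {ctx : α → Ctx} {s : α → List Move}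
    (h2 : ComputableIn O ctx) (h3 : ComputableIn O s) :
    ComputableIn O fun a => certIn (ctx a) (s a) := by
  unfold certIn; fun_prop

@[fun_prop] lemma c_convB (cΦ : Code) {β : α → List Row} {x s : α → ℕ}
    (h1 : ComputableIn O β) (h2 : ComputableIn O x) (h3 : ComputableIn O s) :
    ComputableIn O fun a => convB cΦ (β a) (x a) (s a) := by
  unfold convB; fun_prop

@[fun_prop] lemma c_certS {c : α → Code} {ctx : α → Ctx} {seg : α → List Move} {s : α → ℕ}
    (h1 : ComputableIn O c) (h2 : ComputableIn O ctx) (h3 : ComputableIn O seg)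
    (h4 : ComputableIn O s) : ComputableIn O fun a => certS (c a) (ctx a) (seg a) (s a) := by
  unfold certS; fun_prop

@[fun_prop] lemma c_matchB {K : α → ℕ} {β : α → List Row} {η : α → List ℕ}
    (h1 : ComputableIn O K) (h2 : ComputableIn O β) (h3 : ComputableIn O η) :
    ComputableIn O fun a => matchB (K a) (β a) (η a) := by
  unfold matchB; fun_prop

end

lemma convB_iff {cΦ : Code} {β : List Row} {x s : ℕ} : convB cΦ β x s = true ↔
    ∃ n ≤ β.length, ∃ v, Code.evaln s cΦ (encode (β.take n, x)) = some v ∧ v ≤ s := by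
  simp only [convB, List.any_eq_true, List.mem_range, haltB_iff, Nat.lt_succ_iff]

lemma evaln_some_mono {c : Code} {s s' n v : ℕ} (h : Code.evaln s c n = some v) (hs : s ≤ s') :
    Code.evaln s' c n = some v := Code.evaln_mono hs h

lemma convB_mono {cΦ : Code} {β β' : List Row} {x s s' : ℕ} (h : convB cΦ β x s = true)
    (hβ : β <+: β') (hs : s ≤ s') : convB cΦ β' x s' = true := by
  rw [convB_iff] at h ⊢
  obtain ⟨n, hn, v, h1, h2⟩ := h
  refine ⟨n, le_trans hn hβ.length_le, v, ?_, le_trans h2 hs⟩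
  obtain ⟨t, rfl⟩ := hβ
  rw [List.take_append_of_le_length hn]
  exact evaln_some_mono h1 hs

lemma certS_mono {c : Code} {ctx : Ctx} {seg : List Move} {s s' : ℕ}
    (h : certS c ctx seg s = true) (hs : s ≤ s') : certS c ctx seg s' = true := by
  simp only [certS, haltB_iff] at h ⊢
  obtain ⟨v, h1, h2⟩ := h
  exact ⟨v, evaln_some_mono h1 hs, le_trans h2 hs⟩

lemma matchB_pre {K : ℕ} {β : List Row} {y : ℕ → ℕ} {n : ℕ} :
    matchB K β (pre y n) = true ↔ β.length ≤ n ∧ Match K β y := by
  simp only [matchB, Bool.and_eq_true, leB_iff, length_pre, List.all_eq_true, List.mem_range,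
    eqB_iff, Match]
  refine and_congr_right fun h => forall_congr' fun z => forall_congr' fun hz => ?_
  rw [getD_pre _ (by omega)]

namespace Design

variable (D : Design) (cΦ : Code)

def deadB (η : List ℕ) : Bool :=
  (List.range (η.length + 1)).any fun m => D.dead ((η.take m).map fun u => u % 2 ^ D.k)

def tauF (c : Code) (ctx : Ctx) (es : List ℕ) (d i : ℕ) : ℕ :=
  bif !eqB (es.getD i 0) 0 && leB (qidx c ctx es i + 1) (D.k + d) then qidx c ctx es i
  else ctx.2.1.getD i 0

def followB (c : Code) (ctx : Ctx) (es : List ℕ) (seg : List Move) : Bool :=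
  (List.range seg.length).all fun j => (List.range (D.k + ctx.1.length)).all fun i =>
    eqB ((mv seg j).2.getD i 0) (D.tauF c ctx es (ctx.1.length + j) i)

def disB (ctx : Ctx) (es : List ℕ) (η : List ℕ) (s : ℕ) : Bool :=
  (List.range (D.k + ctx.1.length)).any fun i => !eqB (es.getD i 0) 0 &&
    (List.range η.length).any fun z => leB (D.N ctx.1.length) z &&
      ((Code.evaln s (Denumerable.ofNat Code (es.getD i 0 - 1)) z).isSome &&
        !eqB (Code.evaln s (Denumerable.ofNat Code (es.getD i 0 - 1)) z)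
          (some ((η.getD z 0).testBit i).toNat))

def covB (c : Code) (ctx : Ctx) (η : List ℕ) (s : ℕ) : Bool :=
  (List.range (η.length + 1)).any fun l => (D.segs ctx.1.length l).any fun seg =>
    matchB (D.k + ctx.1.length) (D.E (ctx.1 ++ seg)) η && certS c ctx seg s

def tryB (c : Code) (ctx : Ctx) (es : List ℕ) (η : List ℕ) (s : ℕ) : Bool :=
  (List.range (η.length + 1)).any fun l => (D.segs ctx.1.length l).any fun seg =>
    matchB (D.k + ctx.1.length) (D.E (ctx.1 ++ seg)) η &&
      (D.followB c ctx es seg && convB cΦ (D.E (ctx.1 ++ seg)) ctx.2.2 s)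

def killB (c : Code) (ctx : Ctx) (es : List ℕ) (η : List ℕ) (s : ℕ) : Bool :=
  (D.deadB η || D.covB c ctx η s) || (D.disB ctx es η s || D.tryB cΦ c ctx es η s)

def relB (c : Code) (ctx : Ctx) (es : List ℕ) (s : ℕ) : Bool :=
  leB (D.N ctx.1.length) s && (allLists (2 ^ (D.k + ctx.1.length)) s).all fun η =>
    !matchB (D.k + ctx.1.length) (D.E ctx.1) η || D.killB cΦ c ctx es η s

def finB (c : Code) (ctx : Ctx) (s : ℕ) : Bool :=
  leB (D.N ctx.1.length) s && (allLists (2 ^ (D.k + ctx.1.length)) s).all fun η =>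
    !matchB (D.k + ctx.1.length) (D.E ctx.1) η || (D.deadB η || D.covB c ctx η s)

def agreeB (ctx : Ctx) (es : List ℕ) (seg : List Move) (w : ℕ) : Bool :=
  (List.range (D.k + ctx.1.length)).all fun i => eqB (es.getD i 0) 0 ||
    (List.range (D.N (ctx.1.length + seg.length))).all fun z => !leB (D.N ctx.1.length) z ||
      eqB (Code.evaln w (Denumerable.ofNat Code (es.getD i 0 - 1)) z)
        (some ((rowL (D.E (ctx.1 ++ seg)) z).1.testBit i).toNat)

def tgtB (c : Code) (ctx : Ctx) (es : List ℕ) (seg : List Move) : Bool :=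
  (List.range seg.length).all fun j => (List.range (D.k + ctx.1.length)).all fun i =>
    eqB ((mv seg j).2.getD i 0) (ctx.2.1.getD i 0) ||
      (!eqB (es.getD i 0) 0 && eqB ((mv seg j).2.getD i 0) (qidx c ctx es i))

def certB' (c : Code) (ctx : Ctx) (seg : List Move) (es : List ℕ) (s w : ℕ) : Bool :=
  (D.relB cΦ c ctx es s && leB s (D.N (ctx.1.length + seg.length))) &&
    ((D.agreeB ctx es seg w && D.tgtB c ctx es seg) && convB cΦ (D.E (ctx.1 ++ seg)) ctx.2.2 w)

def certB (c : Code) (ctx : Ctx) (seg : List Move) (w : ℕ) : Bool :=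
  D.certB' cΦ c ctx seg ((decode (α := List ℕ) w.unpair.1.unpair.1).getD []) w.unpair.1.unpair.2 w

def qprog (c : Code) (P : Ctx × List ℕ × ℕ) (z : ℕ) : ℕ :=
  bif (List.range (z + 1)).any fun s => D.relB cΦ c P.1 P.2.1 s then P.1.2.1.getD P.2.2 0
  else P.2.1.getD P.2.2 0 - 1

section

variable {α : Type} [Primcodable α] {O : Set (ℕ →. ℕ)}
  {c : α → Code} {ctx : α → Ctx} {es η : α → List ℕ} {s w d i : α → ℕ} {seg : α → List Move}

@[fun_prop] lemma c_deadB (h : ComputableIn O η) : ComputableIn O fun a => D.deadB (η a) := by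
  unfold deadB; fun_prop

@[fun_prop] lemma c_tauF (h1 : ComputableIn O c) (h2 : ComputableIn O ctx)
    (h3 : ComputableIn O es) (h4 : ComputableIn O d) (h5 : ComputableIn O i) :
    ComputableIn O fun a => D.tauF (c a) (ctx a) (es a) (d a) (i a) := by
  unfold tauF; fun_prop

@[fun_prop] lemma c_followB (h1 : ComputableIn O c) (h2 : ComputableIn O ctx)
    (h3 : ComputableIn O es) (h4 : ComputableIn O seg) :
    ComputableIn O fun a => D.followB (c a) (ctx a) (es a) (seg a) := by
  unfold followB; fun_prop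

@[fun_prop] lemma c_disB (h2 : ComputableIn O ctx)
    (h3 : ComputableIn O es) (h4 : ComputableIn O η) (h5 : ComputableIn O s) :
    ComputableIn O fun a => D.disB (ctx a) (es a) (η a) (s a) := by
  unfold disB; fun_prop

@[fun_prop] lemma c_covB (h1 : ComputableIn O c) (h2 : ComputableIn O ctx)
    (h4 : ComputableIn O η) (h5 : ComputableIn O s) :
    ComputableIn O fun a => D.covB (c a) (ctx a) (η a) (s a) := by
  unfold covB; fun_prop

@[fun_prop] lemma c_tryB (h1 : ComputableIn O c) (h2 : ComputableIn O ctx)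
    (h3 : ComputableIn O es) (h4 : ComputableIn O η) (h5 : ComputableIn O s) :
    ComputableIn O fun a => D.tryB cΦ (c a) (ctx a) (es a) (η a) (s a) := by
  unfold tryB; fun_prop

@[fun_prop] lemma c_killB (h1 : ComputableIn O c) (h2 : ComputableIn O ctx)
    (h3 : ComputableIn O es) (h4 : ComputableIn O η) (h5 : ComputableIn O s) :
    ComputableIn O fun a => D.killB cΦ (c a) (ctx a) (es a) (η a) (s a) := by
  unfold killB; fun_prop

@[fun_prop] lemma c_relB (h1 : ComputableIn O c) (h2 : ComputableIn O ctx)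
    (h3 : ComputableIn O es) (h5 : ComputableIn O s) :
    ComputableIn O fun a => D.relB cΦ (c a) (ctx a) (es a) (s a) := by
  unfold relB; fun_prop

@[fun_prop] lemma c_finB (h1 : ComputableIn O c) (h2 : ComputableIn O ctx)
    (h5 : ComputableIn O s) : ComputableIn O fun a => D.finB (c a) (ctx a) (s a) := by
  unfold finB; fun_prop

@[fun_prop] lemma c_agreeB (h2 : ComputableIn O ctx)
    (h3 : ComputableIn O es) (h4 : ComputableIn O seg) (h5 : ComputableIn O w) :
    ComputableIn O fun a => D.agreeB (ctx a) (es a) (seg a) (w a) := by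
  unfold agreeB; fun_prop

@[fun_prop] lemma c_tgtB (h1 : ComputableIn O c) (h2 : ComputableIn O ctx)
    (h3 : ComputableIn O es) (h4 : ComputableIn O seg) :
    ComputableIn O fun a => D.tgtB (c a) (ctx a) (es a) (seg a) := by
  unfold tgtB; fun_prop

@[fun_prop] lemma c_certB (h1 : ComputableIn O c) (h2 : ComputableIn O ctx)
    (h4 : ComputableIn O seg) (h5 : ComputableIn O w) :
    ComputableIn O fun a => D.certB cΦ (c a) (ctx a) (seg a) (w a) := by
  unfold certB certB'; fun_prop

@[fun_prop] lemma c_qprog {P : α → Ctx × List ℕ × ℕ} (h1 : ComputableIn O c)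
    (h2 : ComputableIn O P) (h5 : ComputableIn O s) :
    ComputableIn O fun a => D.qprog cΦ (c a) (P a) (s a) := by
  unfold qprog; fun_prop

end

/-- the self-referential program -/
def Psi (c : Code) (n : ℕ) : Part ℕ :=
  bif eqB n.unpair.1.unpair.1 0 then
    phi (D.qprog cΦ c ((decode (α := Ctx × List ℕ × ℕ) n.unpair.1.unpair.2).getD default)
      n.unpair.2) n.unpair.2
  else Nat.rfind fun w => Part.some (D.certB cΦ c
    ((decode (α := Ctx × List Move) n.unpair.1.unpair.2).getD default).1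
    ((decode (α := Ctx × List Move) n.unpair.1.unpair.2).getD default).2 w)

lemma partrec_Psi : Partrec₂ (D.Psi cΦ) := by
  refine Partrec.cond (α := Code × ℕ) (toC (by fun_prop)) ?_ ?_
  · exact Code.eval_part.comp (toC (by fun_prop)) (toC (by fun_prop))
  · refine Partrec.rfind (α := Code × ℕ) (p := fun p w => Part.some (D.certB cΦ p.1
      ((decode (α := Ctx × List Move) p.2.unpair.1.unpair.2).getD default).1
      ((decode (α := Ctx × List Move) p.2.unpair.1.unpair.2).getD default).2 w)) ?_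
    exact Computable.partrec (toC (by fun_prop))

lemma exists_fix : ∃ c : Code, c.eval = D.Psi cΦ c := Code.fixed_point₂ (D.partrec_Psi cΦ)

variable {D cΦ} {c : Code} {ctx : Ctx} {es : List ℕ}

lemma q_spec (hc : c.eval = D.Psi cΦ c) (i z : ℕ) :
    phi (qidx c ctx es i) z = phi (D.qprog cΦ c (ctx, es, i) z) z := by
  conv_lhs => simp only [phi, qidx, Denumerable.ofNat_encode, Code.eval_curry]
  rw [hc]
  simp only [Psi, Nat.unpair_pair, encodek, Option.getD_some]
  rw [eqB_iff.2 rfl, cond_true]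

lemma cert_spec (hc : c.eval = D.Psi cΦ c) (seg : List Move) :
    c.eval (certIn ctx seg) = Nat.rfind fun w => Part.some (D.certB cΦ c ctx seg w) := by
  rw [hc]
  simp only [Psi, certIn, Nat.unpair_pair, encodek, Option.getD_some]
  rw [eqB_false_iff.2 one_ne_zero, cond_false]

lemma deadB_pre {y : ℕ → ℕ} {n : ℕ} : D.deadB (pre y n) = true ↔
    ∃ m ≤ n, D.dead (pre (fun j => y j % 2 ^ D.k) m) = true := by
  simp only [deadB, List.any_eq_true, List.mem_range, length_pre, Nat.lt_succ_iff]
  refine exists_congr fun m => and_congr_right fun hm => ?_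
  rw [take_pre _ hm, map_pre]

lemma disB_pre {y : ℕ → ℕ} {n s : ℕ} : D.disB ctx es (pre y n) s = true ↔
    ∃ i < D.k + ctx.1.length, es.getD i 0 ≠ 0 ∧ ∃ z < n, D.N ctx.1.length ≤ z ∧
      ∃ v, Code.evaln s (Denumerable.ofNat Code (es.getD i 0 - 1)) z = some v ∧
        v ≠ ((y z).testBit i).toNat := by
  simp only [disB, List.any_eq_true, List.mem_range, length_pre, Bool.and_eq_true,
    Bool.not_eq_true', eqB_false_iff, leB_iff]
  refine exists_congr fun i => and_congr_right fun _ => and_congr_right fun _ =>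
    exists_congr fun z => and_congr_right fun hz => and_congr_right fun _ => ?_
  rw [getD_pre _ hz]
  cases Code.evaln s (Denumerable.ofNat Code (es.getD i 0 - 1)) z <;> simp

lemma covB_pre {y : ℕ → ℕ} {n s : ℕ} : D.covB c ctx (pre y n) s = true ↔
    ∃ seg, seg.length ≤ n ∧ ValidSeg D.k D.N ctx.1.length seg ∧
      (D.E (ctx.1 ++ seg)).length ≤ n ∧ Match (D.k + ctx.1.length) (D.E (ctx.1 ++ seg)) y ∧
      certS c ctx seg s = true := by
  simp only [covB, List.any_eq_true, List.mem_range, length_pre, Bool.and_eq_true, matchB_pre,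
    mem_segs, Nat.lt_succ_iff]
  constructor
  · rintro ⟨l, hl, seg, ⟨rfl, h1⟩, ⟨h2, h3⟩, h4⟩
    exact ⟨seg, hl, h1, h2, h3, h4⟩
  · rintro ⟨seg, hl, h1, h2, h3, h4⟩
    exact ⟨_, hl, seg, ⟨rfl, h1⟩, ⟨h2, h3⟩, h4⟩

lemma tryB_pre {y : ℕ → ℕ} {n s : ℕ} : D.tryB cΦ c ctx es (pre y n) s = true ↔
    ∃ seg, seg.length ≤ n ∧ ValidSeg D.k D.N ctx.1.length seg ∧
      (D.E (ctx.1 ++ seg)).length ≤ n ∧ Match (D.k + ctx.1.length) (D.E (ctx.1 ++ seg)) y ∧
      D.followB c ctx es seg = true ∧ convB cΦ (D.E (ctx.1 ++ seg)) ctx.2.2 s = true := by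
  simp only [tryB, List.any_eq_true, List.mem_range, length_pre, Bool.and_eq_true, matchB_pre,
    mem_segs, Nat.lt_succ_iff]
  constructor
  · rintro ⟨l, hl, seg, ⟨rfl, h1⟩, ⟨h2, h3⟩, h4⟩
    exact ⟨seg, hl, h1, h2, h3, h4⟩
  · rintro ⟨seg, hl, h1, h2, h3, h4⟩
    exact ⟨_, hl, seg, ⟨rfl, h1⟩, ⟨h2, h3⟩, h4⟩

section transfer

variable {y y' : ℕ → ℕ} {n n' s s' : ℕ}

lemma deadB_transfer {K : ℕ} (hK : D.k ≤ K) (h : D.deadB (pre y n) = true) (hn : n ≤ n')
    (hy : ∀ j < n, y j % 2 ^ K = y' j % 2 ^ K) : D.deadB (pre y' n') = true := by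
  rw [deadB_pre] at h ⊢
  obtain ⟨m, hm, h⟩ := h
  refine ⟨m, le_trans hm hn, ?_⟩
  rwa [← pre_congr (a := fun j => y j % 2 ^ D.k) fun j hj =>
    mod_pow_of_le (hy j (by omega)) hK]

lemma covB_transfer (h : D.covB c ctx (pre y n) s = true) (hn : n ≤ n') (hs : s ≤ s')
    (hy : ∀ j < n, y j % 2 ^ (D.k + ctx.1.length) = y' j % 2 ^ (D.k + ctx.1.length)) :
    D.covB c ctx (pre y' n') s' = true := by
  rw [covB_pre] at h ⊢
  obtain ⟨seg, h1, h2, h3, h4, h5⟩ := h
  exact ⟨seg, le_trans h1 hn, h2, le_trans h3 hn,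
    fun j hj => (h4 j hj).trans (hy j (by omega)), certS_mono h5 hs⟩

lemma killB_transfer (h : D.killB cΦ c ctx es (pre y n) s = true) (hn : n ≤ n') (hs : s ≤ s')
    (hy : ∀ j < n, y j % 2 ^ (D.k + ctx.1.length) = y' j % 2 ^ (D.k + ctx.1.length)) :
    D.killB cΦ c ctx es (pre y' n') s' = true := by
  simp only [killB, Bool.or_eq_true] at h ⊢
  rcases h with (h | h) | (h | h)
  · exact Or.inl (Or.inl (deadB_transfer (by omega) h hn hy))
  · exact Or.inl (Or.inr (covB_transfer h hn hs hy))
  · refine Or.inr (Or.inl ?_)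
    rw [disB_pre] at h ⊢
    obtain ⟨i, hi, h1, z, hz, h2, v, h3, h4⟩ := h
    exact ⟨i, hi, h1, z, by omega, h2, v, evaln_some_mono h3 hs,
      by rwa [← testBit_of_mod (hy z hz) hi]⟩
  · refine Or.inr (Or.inr ?_)
    rw [tryB_pre] at h ⊢
    obtain ⟨seg, h1, h2, h3, h4, h5, h6⟩ := h
    exact ⟨seg, le_trans h1 hn, h2, le_trans h3 hn,
      fun j hj => (h4 j hj).trans (hy j (by omega)), h5, convB_mono h6 List.prefix_rfl hs⟩

end transfer

lemma mem_phi_of_evaln {e s z v : ℕ} (h : Code.evaln s (Denumerable.ofNat Code e) z = some v) :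
    v ∈ phi e z := Code.evaln_sound h

lemma cert_sound (hc : c.eval = D.Psi cΦ c) {seg : List Move} {w : ℕ}
    (hw : w ∈ c.eval (certIn ctx seg)) :
    D.TargetOK ctx.1 (fun i => ctx.2.1.getD i 0) seg ∧
      convB cΦ (D.E (ctx.1 ++ seg)) ctx.2.2 w = true := by
  rw [cert_spec hc] at hw
  have h := Nat.rfind_spec hw
  simp only [Part.mem_some_iff, certB] at h
  generalize (decode (α := List ℕ) w.unpair.1.unpair.1).getD [] = es at h
  generalize w.unpair.1.unpair.2 = s at h
  replace h := h.symm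
  simp only [certB', Bool.and_eq_true, leB_iff] at h
  obtain ⟨⟨h1, h2⟩, ⟨h3, h4⟩, h5⟩ := h
  refine ⟨fun i hi1 hi2 Y hY hcomp j hj => ?_, h5⟩
  simp only [tgtB, List.all_eq_true, List.mem_range, Bool.or_eq_true, eqB_iff, Bool.and_eq_true,
    Bool.not_eq_true', eqB_false_iff] at h4
  rcases h4 j hj i hi2 with h | ⟨h6, h⟩
  · rw [h]; exact hcomp
  · rw [h]
    intro z hz
    rw [q_spec hc]
    simp only [qprog]
    cases hr : (List.range (z + 1)).any fun s => D.relB cΦ c ctx es s
    · rw [cond_false]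
      have hzs : z < s := by
        by_contra hzs
        have := List.any_eq_false.1 hr s (List.mem_range.2 (by omega))
        exact this h1
      simp only [agreeB, List.all_eq_true, List.mem_range, Bool.or_eq_true, eqB_iff,
        Bool.not_eq_true', leB_false_iff] at h3
      rcases h3 i hi2 with h7 | h7
      · exact absurd h7 h6
      · rcases h7 z (by omega) with h8 | h8
        · omega
        · rw [hY z hz (by omega)]
          exact mem_phi_of_evaln h8
    · rw [cond_true]
      exact hcomp z hz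

lemma cert_complete (hc : c.eval = D.Psi cΦ c) {seg : List Move} {s s₀ : ℕ}
    (h1 : D.relB cΦ c ctx es s = true) (h2 : s ≤ D.N (ctx.1.length + seg.length))
    (h3 : ∀ i < D.k + ctx.1.length, es.getD i 0 ≠ 0 → ∀ z, D.N ctx.1.length ≤ z →
      z < D.N (ctx.1.length + seg.length) →
      ((rowL (D.E (ctx.1 ++ seg)) z).1.testBit i).toNat ∈ phi (es.getD i 0 - 1) z)
    (h4 : D.tgtB c ctx es seg = true) (h5 : convB cΦ (D.E (ctx.1 ++ seg)) ctx.2.2 s₀ = true) :
    (c.eval (certIn ctx seg)).Dom := by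
  have : ∀ p : ℕ × ℕ, ∃ T, p.1 < D.k + ctx.1.length → es.getD p.1 0 ≠ 0 →
      D.N ctx.1.length ≤ p.2 → p.2 < D.N (ctx.1.length + seg.length) →
      Code.evaln T (Denumerable.ofNat Code (es.getD p.1 0 - 1)) p.2 =
        some ((rowL (D.E (ctx.1 ++ seg)) p.2).1.testBit p.1).toNat := by
    intro p
    by_cases hp : p.1 < D.k + ctx.1.length ∧ es.getD p.1 0 ≠ 0 ∧
      D.N ctx.1.length ≤ p.2 ∧ p.2 < D.N (ctx.1.length + seg.length)
    · obtain ⟨T, hT⟩ := Code.evaln_complete.1 (h3 p.1 hp.1 hp.2.1 p.2 hp.2.2.1 hp.2.2.2)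
      exact ⟨T, fun _ _ _ _ => hT⟩
    · exact ⟨0, fun a b c d => absurd ⟨a, b, c, d⟩ hp⟩
  choose T hT using this
  let T₀ := max s₀ ((Finset.range (D.k + ctx.1.length) ×ˢ
    Finset.range (D.N (ctx.1.length + seg.length))).sup T)
  have hw : T₀ ≤ Nat.pair (Nat.pair (encode es) s) T₀ := Nat.right_le_pair _ _
  rw [cert_spec hc, Nat.rfind_dom]
  refine ⟨Nat.pair (Nat.pair (encode es) s) T₀, ?_, fun _ => trivial⟩
  simp only [Part.mem_some_iff, certB, Nat.unpair_pair, encodek, Option.getD_some]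
  symm
  simp only [certB', Bool.and_eq_true, leB_iff]
  refine ⟨⟨h1, h2⟩, ⟨?_, h4⟩, convB_mono h5 List.prefix_rfl (le_trans (le_max_left _ _) hw)⟩
  simp only [agreeB, List.all_eq_true, List.mem_range, Bool.or_eq_true, eqB_iff,
    Bool.not_eq_true', leB_false_iff]
  intro i hi
  by_cases he : es.getD i 0 = 0
  · exact Or.inl he
  · refine Or.inr fun z hz => ?_
    by_cases hz' : D.N ctx.1.length ≤ z
    · refine Or.inr (evaln_some_mono (hT (i, z) hi he hz' hz) (le_trans ?_ hw))
      refine le_trans (Finset.le_sup (f := T) ?_) (le_max_right _ _)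
      simp [hi, hz]
    · exact Or.inl (not_le.1 hz')

/-- compactness for the finite guesses -/
lemma exists_path {K : ℕ} {β : List Row} {B : List ℕ → ℕ → Bool}
    (hB : ∀ y n n', B (pre y n) n = true → n ≤ n' → B (pre y n') n' = true)
    (h : ∀ s, ¬ (leB β.length s && (allLists (2 ^ K) s).all fun η =>
      !matchB K β η || B η s) = true) :
    ∃ y, Match K β y ∧ ∀ n, B (pre y n) n = false := by
  obtain ⟨y, -, hy⟩ := konig (F := fun _ => Set.Iio (2 ^ K)) (fun _ => Set.finite_Iio _)
    (P := fun n y => matchB K β (pre y β.length) = true ∧ B (pre y n) n = false)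
    (fun n => (local_pre _ fun l => matchB K β l = true).and (local_pre _ fun l => B l n = false))
    (fun n => by
      have := h (max n β.length)
      simp only [Bool.and_eq_true, leB_iff, le_max_right, List.all_eq_true, mem_allLists,
        Bool.or_eq_true, Bool.not_eq_true', true_and, not_forall, not_or,
        Bool.not_eq_false, Bool.not_eq_true] at this
      obtain ⟨η, ⟨h1, h2⟩, h3, h4⟩ := this
      have hη : η = pre (fun j => η.getD j 0) (max n β.length) := eq_pre_of h1 fun _ _ => rfl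
      refine ⟨fun j => η.getD j 0, fun j => ?_, fun i hi => ⟨?_, ?_⟩⟩
      · simp only [Set.mem_Iio]
        by_cases hj : j < η.length
        · rw [List.getD_eq_getElem _ _ hj]; exact h2 _ (List.getElem_mem _)
        · rw [List.getD_eq_default _ _ (not_lt.1 hj)]; positivity
      · rw [hη, matchB_pre] at h3
        exact matchB_pre.2 ⟨le_rfl, h3.2⟩
      · by_contra hc
        rw [Bool.not_eq_false] at hc
        have := hB _ _ (max n β.length) hc (le_trans hi (le_max_left _ _))
        rw [← hη, h4] at this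
        exact Bool.false_ne_true this)
  exact ⟨y, (matchB_pre.1 (hy 0).1).2, fun n => (hy n).2⟩

end Design

end Pool.Agent.MP_b427ce_lc

end MrgPart2

-- marker of a merged file
example : 731051 + 750024 = 731051 + 750024 := rfl
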