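import Mathlib.Tactic.Monotonicity.Lemmas
import Mathlib.Data.Set.Finite.List
import Mathlib.RingTheory.PiTensorProduct
import Mathlib.Probability.ProductMeasure
import Mathlib.Probability.Distributions.Uniform
import Mathlib.Tactic.Algebra.Basic
import Pool.Agent.MP_b427ce_lc.Kill
import Pool.Agent.MP_b427ce_lc.Basic

-- ======== part 0: formerly Pool.Agent.MP_b427ce_lc.Dichotomy
section MrgPart0

/-!
Every design has an extension that either forces a given functional to diverge somewhere or
forces a computable bound on its values.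
-/

namespace Pool.Agent.MP_b427ce_lc

open Encodable Nat.Partrec

lemma computable_of_eventually_eq {Y Z : ℕ → Bool} (hZ : Computable Z) {n : ℕ}
    (h : ∀ x, n ≤ x → Y x = Z x) : Computable Y := by
  have h1 : Computable fun x => bif leB n x then Z x else (pre Y n).getD x false := toC (by
    have := hZ.computableIn (O := ∅)
    fun_prop)
  refine h1.of_eq fun x => ?_
  by_cases hx : n ≤ x
  · rw [leB_iff.2 hx, cond_true, h x hx]
  · rw [leB_false_iff.2 (not_le.1 hx), cond_false, getD_pre _ (not_le.1 hx)]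

namespace Design

variable {D : Design} {cΦ c : Code}

/-- the targets of the context are admissible -/
def CtxOK (D : Design) (ctx : Ctx) : Prop :=
  D.Valid ctx.1 ∧ ∀ i < D.k + ctx.1.length, ctx.2.1.getD i 0 < D.k + ctx.1.length

/-- paths that are not covered by a certified segment -/
def Uncovered (D : Design) (c : Code) (ctx : Ctx) (y : ℕ → ℕ) : Prop :=
  Match (D.k + ctx.1.length) (D.E ctx.1) y ∧ D.Alive y ∧
    ∀ seg, ValidSeg D.k D.N ctx.1.length seg →
      Match (D.k + ctx.1.length) (D.E (ctx.1 ++ seg)) y → ¬ (c.eval (certIn ctx seg)).Dom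

lemma dom_of_certS {ctx : Ctx} {seg : List Move} {s : ℕ} (h : certS c ctx seg s = true) :
    ∃ w ≤ s, w ∈ c.eval (certIn ctx seg) := by
  simp only [certS, haltB_iff] at h
  obtain ⟨v, h1, h2⟩ := h
  exact ⟨v, h2, Code.evaln_sound h1⟩

lemma certS_of_dom {ctx : Ctx} {seg : List Move} (h : (c.eval (certIn ctx seg)).Dom) :
    ∃ s, certS c ctx seg s = true := by
  obtain ⟨v, hv⟩ := Part.dom_iff_mem.1 h
  obtain ⟨s, hs⟩ := Code.evaln_complete.1 hv
  exact ⟨max s v, haltB_iff.2 ⟨v, evaln_some_mono hs (le_max_left _ _), le_max_right _ _⟩⟩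

lemma uncovered_of_not {ctx : Ctx} {y : ℕ → ℕ} (hm : Match (D.k + ctx.1.length) (D.E ctx.1) y)
    (h : ∀ n, (D.deadB (pre y n) || D.covB c ctx (pre y n) n) = false) : D.Uncovered c ctx y := by
  refine ⟨hm, fun n => ?_, fun seg hv hs hd => ?_⟩
  · by_contra hn
    have h1 : D.deadB (pre y n) = true := deadB_pre.2 ⟨n, le_rfl, by simpa using hn⟩
    have := h n
    simp [h1] at this
  · obtain ⟨s, hs'⟩ := certS_of_dom hd
    have h1 : D.covB c ctx (pre y (max s (max seg.length (D.E (ctx.1 ++ seg)).length)))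
        (max s (max seg.length (D.E (ctx.1 ++ seg)).length)) = true :=
      covB_pre.2 ⟨seg, by omega, hv, by omega, hs, certS_mono hs' (le_max_left _ _)⟩
    have := h (max s (max seg.length (D.E (ctx.1 ++ seg)).length))
    simp [h1] at this

lemma tauF_lt {ctx : Ctx} (hctx : D.CtxOK ctx) (es : List ℕ) {d i : ℕ} (hd : ctx.1.length ≤ d)
    (hi : i < D.k + ctx.1.length) : D.tauF c ctx es d i < D.k + d := by
  unfold tauF
  cases h : (!eqB (es.getD i 0) 0 && leB (qidx c ctx es i + 1) (D.k + d))
  · rw [cond_false]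
    have := hctx.2 i hi
    omega
  · rw [cond_true]
    simp only [Bool.and_eq_true, leB_iff] at h
    omega

lemma not_released (hc : c.eval = D.Psi cΦ c) {ctx : Ctx} (hctx : D.CtxOK ctx) {y : ℕ → ℕ}
    (hy : D.Uncovered c ctx y) {es : List ℕ}
    (hes : ∀ i < D.k + ctx.1.length, es.getD i 0 ≠ 0 →
      ∀ z, ((y z).testBit i).toNat ∈ phi (es.getD i 0 - 1) z) (s : ℕ) :
    D.relB cΦ c ctx es s = false := by
  by_contra hr
  rw [Bool.not_eq_false] at hr
  have hr' := hr
  simp only [relB, Bool.and_eq_true, leB_iff, List.all_eq_true, mem_allLists, Bool.or_eq_true,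
    Bool.not_eq_true'] at hr'
  obtain ⟨hs, hall⟩ := hr'
  have hk : D.killB cΦ c ctx es (pre y s) s = true := by
    rcases hall (pre (fun j => y j % 2 ^ (D.k + ctx.1.length)) s) ⟨by simp, by
      intro x hx
      simp only [pre, List.mem_map] at hx
      obtain ⟨j, -, rfl⟩ := hx
      exact Nat.mod_lt _ (by positivity)⟩ with h | h
    · exfalso
      have : matchB (D.k + ctx.1.length) (D.E ctx.1)
          (pre (fun j => y j % 2 ^ (D.k + ctx.1.length)) s) = true :=
        matchB_pre.2 ⟨by rw [D.len _ hctx.1]; exact hs, fun j hj => by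
          rw [hy.1 j hj]; simp⟩
      rw [this] at h
      exact Bool.noConfusion h
    · exact killB_transfer h le_rfl le_rfl fun j _ => by simp
  simp only [killB, Bool.or_eq_true] at hk
  rcases hk with (h | h) | (h | h)
  · obtain ⟨m, -, hm⟩ := deadB_pre.1 h
    rw [hy.2.1 m] at hm
    exact Bool.noConfusion hm
  · obtain ⟨seg, -, h2, -, h4, h5⟩ := covB_pre.1 h
    obtain ⟨w, -, hw⟩ := dom_of_certS h5
    exact hy.2.2 seg h2 h4 (Part.dom_iff_mem.2 ⟨w, hw⟩)
  · obtain ⟨i, hi, h1, z, -, -, v, h3, h4⟩ := disB_pre.1 h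
    exact h4 (Part.mem_unique (mem_phi_of_evaln h3) (hes i hi h1 z))
  · obtain ⟨seg, -, h2, -, h4, h5, h6⟩ := tryB_pre.1 h
    have hv : D.Valid (ctx.1 ++ seg) := hctx.1.append0 h2
    let τ : ℕ → ℕ → ℕ := fun _ i => if i < D.k + ctx.1.length then ctx.2.1.getD i 0 else 0
    have hτ : ∀ d i, (ctx.1 ++ seg).length ≤ d → i < D.k + d → τ d i < D.k + d := by
      intro d i hd hi
      simp only [τ, List.length_append] at hd ⊢
      split_ifs with h
      · have := hctx.2 i h
        omega
      · omega
    have hv2 := D.valid_plainSeg y hτ s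
    have hv3 : D.Valid (ctx.1 ++ seg ++ D.plainSeg (ctx.1 ++ seg).length y τ s) := hv.append0 hv2
    have hm : Match (D.k + ctx.1.length)
        (D.E (ctx.1 ++ (seg ++ D.plainSeg (ctx.1 ++ seg).length y τ s))) y := by
      rw [← List.append_assoc]
      exact D.match_plainSeg hv hτ s (by simp) h4
    have hvs : ValidSeg D.k D.N ctx.1.length (seg ++ D.plainSeg (ctx.1 ++ seg).length y τ s) :=
      validSeg_append.2 ⟨h2, by simpa using hv2⟩
    refine hy.2.2 _ hvs hm (cert_complete hc hr (s₀ := s) ?_ ?_ ?_ ?_)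
    · exact le_trans (by simp; omega) (D.le_N _)
    · intro i hi he z _ hz
      have hz' : z < (D.E (ctx.1 ++ (seg ++ D.plainSeg (ctx.1 ++ seg).length y τ s))).length := by
        rw [D.len _ (hctx.1.append0 hvs), List.length_append]; exact hz
      rw [testBit_of_mod (hm z hz') hi]
      exact hes i hi he z
    · simp only [tgtB, List.all_eq_true, List.mem_range, Bool.or_eq_true, eqB_iff,
        Bool.and_eq_true, Bool.not_eq_true', eqB_false_iff]
      intro j hj i hi
      by_cases hjs : j < seg.length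
      · rw [mv_append_left hjs]
        simp only [followB, List.all_eq_true, List.mem_range, eqB_iff] at h5
        rw [h5 j hjs i hi]
        unfold tauF
        cases h : (!eqB (es.getD i 0) 0 &&
          leB (qidx c ctx es i + 1) (D.k + (ctx.1.length + j)))
        · exact Or.inl rfl
        · simp only [Bool.and_eq_true, Bool.not_eq_true', eqB_false_iff] at h
          exact Or.inr ⟨h.1, rfl⟩
      · obtain ⟨b, rfl⟩ := Nat.exists_eq_add_of_le (not_lt.1 hjs)
        have hb : b < s := by simp at hj; omega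
        rw [mv_append_right, D.mv_plainSeg hb]
        left
        simp only [plain]
        rw [getD_pre _ (by simp; omega)]
        simp [τ, hi]
    · rw [← List.append_assoc]
      exact convB_mono h6 (D.E_isPrefix hv3) le_rfl

/-- the case in which divergence can be forced -/
lemma exists_diverge (hC : D.C2) (hc : c.eval = D.Psi cΦ c) {ctx : Ctx} (hctx : D.CtxOK ctx)
    (hU : ∃ y, D.Uncovered c ctx y) :
    ∃ D' : Design, D'.NE ∧ D'.C2 ∧ (∀ a, D'.Mem a → D.Mem a) ∧ D.k ≤ D'.k ∧
      ∀ a, D'.Mem a → ∀ n v, v ∉ cΦ.eval (encode (pre a n, ctx.2.2)) := by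
  classical
  let C : (ℕ → ℕ) → Finset ℕ := fun y => (Finset.range (D.k + ctx.1.length)).filter fun i =>
    D.k ≤ i ∧ Computable fun z => (y z).testBit i
  obtain ⟨y₀, hy₀, hmax⟩ : ∃ y₀, D.Uncovered c ctx y₀ ∧
      ∀ y, D.Uncovered c ctx y → (C y).card ≤ (C y₀).card := by
    have hb : BddAbove ((fun y => (C y).card) '' {y | D.Uncovered c ctx y}) := by
      refine ⟨D.k + ctx.1.length, ?_⟩
      rintro _ ⟨y, -, rfl⟩
      exact le_trans (Finset.card_filter_le _ _) (by simp)
    obtain ⟨y₀, hy₀, h⟩ := Nat.sSup_mem (Set.Nonempty.image (fun y => (C y).card) hU) hb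
    exact ⟨y₀, hy₀, fun y hy => by
      simp only at h
      rw [h]; exact le_csSup hb ⟨y, hy, rfl⟩⟩
  have : ∀ i, ∃ e, (i ∈ C y₀ ↔ e ≠ 0) ∧
      (e ≠ 0 → ∀ z, ((y₀ z).testBit i).toNat ∈ phi (e - 1) z) := by
    intro i
    by_cases hi : i ∈ C y₀
    · obtain ⟨e, he⟩ := exists_index (Finset.mem_filter.1 hi).2.2
      exact ⟨e + 1, by simp [hi], fun _ => he⟩
    · exact ⟨0, by simp [hi], fun h => absurd rfl h⟩
  choose e he1 he2 using this
  let es := pre e (D.k + ctx.1.length)
  have hes : ∀ i < D.k + ctx.1.length, es.getD i 0 = e i := fun i hi => getD_pre _ hi _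
  have hrel : ∀ s, D.relB cΦ c ctx es s = false :=
    not_released hc hctx hy₀ fun i hi h => by rw [hes i hi] at h ⊢; exact he2 i h
  have cτ : Computable fun p : ℕ × ℕ => D.tauF c ctx es p.1 p.2 := toC (by fun_prop)
  have hτ : ∀ d i, ctx.1.length ≤ d → i < D.k + ctx.1.length → D.tauF c ctx es d i < D.k + d :=
    fun d i hd hi => tauF_lt hctx es hd hi
  have cdead' : Computable fun η : List ℕ => D.killB cΦ c ctx es η η.length := toC (by fun_prop)
  have halive : ∀ y, (D.restrict ctx.1 hctx.1 _ cτ hτ _ cdead').Alive y ↔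
      ∀ n, D.killB cΦ c ctx es (pre y n) n = false := by
    intro y
    refine forall_congr' fun n => ?_
    simp only [restrict, length_pre]
    rw [← Bool.not_eq_true, ← Bool.not_eq_true]
    exact not_congr ⟨fun h => killB_transfer h le_rfl le_rfl fun j _ => by simp,
      fun h => killB_transfer h le_rfl le_rfl fun j _ => by simp⟩
  have hunc : ∀ a, (D.restrict ctx.1 hctx.1 _ cτ hτ _ cdead').Mem a →
      D.Uncovered c ctx fun j => (a j).1 := by
    intro a ha
    obtain ⟨s, -, hl, hag, -⟩ := restrict_seg ha 0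
    rw [List.length_eq_zero_iff.1 hl, List.append_nil] at hag
    refine uncovered_of_not (hag.match _) fun n => ?_
    have := (halive _).1 ha.2 n
    simp only [killB, Bool.or_eq_false_iff] at this ⊢
    exact this.1
  have hsub : ∀ a, (D.restrict ctx.1 hctx.1 _ cτ hτ _ cdead').Mem a → D.Mem a := fun a ha =>
    mem_of_mem_restrict ha (hunc a ha).2.1
  refine ⟨D.restrict ctx.1 hctx.1 _ cτ hτ _ cdead', ?_, ?_, hsub, by simp [restrict], ?_⟩
  · obtain ⟨y, h1, h2⟩ := exists_path (K := D.k + ctx.1.length) (β := D.E ctx.1)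
      (B := D.killB cΦ c ctx es)
      (fun y n n' h hn => killB_transfer h hn hn fun _ _ => rfl)
      (fun s hs => by
        have := hrel s
        rw [D.len _ hctx.1] at hs
        unfold relB at this
        rw [hs] at this
        exact Bool.noConfusion this)
    refine ⟨y, (halive y).2 h2, ?_⟩
    simpa [restrict, overw, pre] using h1
  · intro a ha i hi
    by_cases hik : i < D.k
    · exact hC a (hsub a ha) i hik
    · intro hcomp
      have hi' : i < D.k + ctx.1.length := hi
      have hagree : ∀ i ∈ C y₀, ∀ z, D.N ctx.1.length ≤ z → col a i z = (y₀ z).testBit i := by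
        intro i hi z hz
        have hiK : i < D.k + ctx.1.length := Finset.mem_range.1 (Finset.mem_filter.1 hi).1
        have hne : e i ≠ 0 := (he1 i).1 hi
        obtain ⟨s, hs⟩ := Code.evaln_complete.1 (he2 i hne z)
        have h1 := (halive _).1 ha.2 (max s (z + 1))
        simp only [killB, Bool.or_eq_false_iff] at h1
        by_contra hcon
        have h2 : D.disB ctx es (pre (fun j => (a j).1) (max s (z + 1))) (max s (z + 1)) = true :=
          disB_pre.2 ⟨i, hiK, by rwa [hes i hiK], z, by omega, hz, _,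
            by rw [hes i hiK]; exact evaln_some_mono hs (le_max_left _ _), by
              intro h
              apply hcon
              simp only [col]
              revert h
              cases (y₀ z).testBit i <;> cases (a z).1.testBit i <;> simp⟩
        rw [h1.2.1] at h2
        exact Bool.noConfusion h2
      have hsubC : C y₀ ⊆ C fun j => (a j).1 := by
        intro i hi
        have h1 := Finset.mem_filter.1 hi
        exact Finset.mem_filter.2 ⟨h1.1, h1.2.1,
          computable_of_eventually_eq h1.2.2 (hagree i hi)⟩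
      have hiC : i ∈ C y₀ := by
        rw [Finset.eq_of_subset_of_card_le hsubC (hmax _ (hunc a ha))]
        exact Finset.mem_filter.2 ⟨Finset.mem_range.2 hi', not_lt.1 hik, hcomp⟩
      have hne : e i ≠ 0 := (he1 i).1 hiC
      refine good_of_restrict ha (q := qidx c ctx es i) (d₁ := qidx c ctx es i + 1)
        (not_lt.1 hik) hi' (fun d hd => ?_) ?_
      · unfold tauF
        rw [hes i hi', eqB_false_iff.2 hne, leB_iff.2 (by omega)]
        rfl
      · intro z hz
        rw [q_spec hc]
        simp only [qprog]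
        rw [List.any_eq_false.2 (fun s _ => by simp [hrel s]), cond_false, hes i hi',
          hagree i hiC z hz]
        exact he2 i hne z
  · intro a ha n v hv
    obtain ⟨T, hT⟩ := Code.evaln_complete.1 hv
    obtain ⟨s, hvs, hl, hag, ht⟩ := restrict_seg ha n
    have hlen : (D.E (ctx.1 ++ s)).length = D.N (ctx.1.length + n) := by
      rw [D.len _ (hctx.1.append0 hvs)]; simp [hl]
    have hn : n ≤ (D.E (ctx.1 ++ s)).length := by
      rw [hlen]; exact le_trans (by omega) (D.le_N _)
    let m := max (max T v) (D.E (ctx.1 ++ s)).length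
    have h1 := (halive _).1 ha.2 m
    simp only [killB, Bool.or_eq_false_iff] at h1
    have h2 : D.tryB cΦ c ctx es (pre (fun j => (a j).1) m) m = true := by
      refine tryB_pre.2 ⟨s, by omega, hvs, by omega, hag.match _, ?_, ?_⟩
      · simp only [followB, List.all_eq_true, List.mem_range, eqB_iff]
        intro j hj i hi
        exact ht j (by omega) i hi
      · refine convB_iff.2 ⟨n, hn, v, ?_, by omega⟩
        rw [hag.take_eq hn]
        exact evaln_some_mono hT (by omega)
    rw [h1.2.2] at h2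
    exact Bool.noConfusion h2

lemma finB_mono {ctx : Ctx} (hα : D.Valid ctx.1) {s s' : ℕ} (h : D.finB c ctx s = true)
    (hs : s ≤ s') : D.finB c ctx s' = true := by
  simp only [finB, Bool.and_eq_true, leB_iff, List.all_eq_true, mem_allLists, Bool.or_eq_true,
    Bool.not_eq_true'] at h ⊢
  refine ⟨le_trans h.1 hs, fun η ⟨h1, h2⟩ => ?_⟩
  have hη : η = pre (fun j => η.getD j 0) s' := eq_pre_of h1 fun _ _ => rfl
  rcases h.2 (pre (fun j => η.getD j 0) s) ⟨by simp, by
      intro x hx
      simp only [pre, List.mem_map, List.mem_range] at hx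
      obtain ⟨j, hj, rfl⟩ := hx
      rw [List.getD_eq_getElem _ _ (by omega)]
      exact h2 _ (List.getElem_mem _)⟩ with h3 | h3 | h3
  · left
    by_contra h4
    rw [Bool.not_eq_false, hη, matchB_pre] at h4
    rw [matchB_pre.2 ⟨by rw [D.len _ hα]; exact h.1, h4.2⟩] at h3
    exact Bool.noConfusion h3
  · right; left
    rw [hη]
    exact deadB_transfer le_rfl h3 hs fun _ _ => rfl
  · right; right
    rw [hη]
    exact covB_transfer h3 hs hs fun _ _ => rfl

lemma exists_finB {ctx : Ctx} (hα : D.Valid ctx.1) (h : ¬ ∃ y, D.Uncovered c ctx y) :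
    ∃ s, D.finB c ctx s = true := by
  by_contra hs
  apply h
  obtain ⟨y, h1, h2⟩ := exists_path (K := D.k + ctx.1.length) (β := D.E ctx.1)
    (B := fun η s => D.deadB η || D.covB c ctx η s)
    (fun y n n' h hn => by
      simp only [Bool.or_eq_true] at h ⊢
      rcases h with h | h
      · exact Or.inl (deadB_transfer le_rfl h hn fun _ _ => rfl)
      · exact Or.inr (covB_transfer h hn hn fun _ _ => rfl))
    (fun s h => hs ⟨s, by rw [D.len _ hα] at h; exact h⟩)
  exact ⟨y, uncovered_of_not h1 h2⟩

/-- all contexts of depth `d` are covered at stage `s` -/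
def stageB (D : Design) (c : Code) (d x s : ℕ) : Bool :=
  leB 1 s && (D.segs 0 d).all fun α => (allLists (D.k + d) (D.k + d)).all fun t =>
    D.finB c (α, t, x) s

lemma exists_uniform {ι : Type} (l : List ι) {P : ι → ℕ → Prop}
    (hm : ∀ i ∈ l, ∀ s s', P i s → s ≤ s' → P i s') (h : ∀ i ∈ l, ∃ s, P i s) :
    ∃ s, ∀ s', s ≤ s' → ∀ i ∈ l, P i s' := by
  induction l with
  | nil => exact ⟨0, fun _ _ i hi => by simp at hi⟩
  | cons a l ih =>
    obtain ⟨s, hs⟩ := ih (fun i hi => hm i (List.mem_cons_of_mem _ hi))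
      fun i hi => h i (List.mem_cons_of_mem _ hi)
    obtain ⟨s₀, hs₀⟩ := h a List.mem_cons_self
    refine ⟨max s s₀, fun s' hs' i hi => ?_⟩
    rcases List.mem_cons.1 hi with rfl | hi
    · exact hm _ List.mem_cons_self _ _ hs₀ (by omega)
    · exact hs s' (by omega) i hi

lemma ctxOK_of_mem {α : List Move} (hα : D.Valid α) {t : List ℕ}
    (ht : t ∈ allLists (D.k + α.length) (D.k + α.length)) (x : ℕ) : D.CtxOK (α, t, x) := by
  rw [mem_allLists] at ht
  refine ⟨hα, fun i hi => ?_⟩
  simp only at hi ⊢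
  rw [List.getD_eq_getElem _ _ (by omega)]
  exact ht.2 _ (List.getElem_mem _)

lemma exists_stageB (h : ∀ ctx, D.CtxOK ctx → ¬ ∃ y, D.Uncovered c ctx y) (d x : ℕ) :
    ∃ s, D.stageB c d x s = true := by
  obtain ⟨s, hs⟩ := exists_uniform (D.segs 0 d)
    (P := fun α s => ∀ t ∈ allLists (D.k + d) (D.k + d), D.finB c (α, t, x) s = true)
    (fun α hα s s' h hs t ht => finB_mono (D.mem_segs.1 hα).2 (h t ht) hs)
    (fun α hα => by
      obtain ⟨rfl, hv⟩ := D.mem_segs.1 hα
      obtain ⟨s, hs⟩ := exists_uniform (allLists (D.k + α.length) (D.k + α.length))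
        (P := fun t s => D.finB c (α, t, x) s = true)
        (fun t _ s s' h hs => finB_mono hv h hs)
        (fun t ht => exists_finB hv (h _ (ctxOK_of_mem hv ht x)))
      exact ⟨s, hs s le_rfl⟩)
  refine ⟨s + 1, ?_⟩
  simp only [stageB, Bool.and_eq_true, leB_iff, List.all_eq_true]
  exact ⟨by omega, hs (s + 1) (by omega)⟩

/-- the guess that consists of the stem and the rows of the move -/
def guess (D : Design) (α : List Move) (m : Move) : List ℕ := (D.E α).map Prod.fst ++ m.1

/-- a certified segment that follows the guess, if there is one -/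
def found (D : Design) (c : Code) (ctx : Ctx) (η : List ℕ) (s : ℕ) : Option (List Move) :=
  ((List.range (s + 1)).flatMap fun l => D.segs ctx.1.length l).find? fun seg =>
    matchB (D.k + ctx.1.length) (D.E (ctx.1 ++ seg)) η && certS c ctx seg s

/-- the context of a move -/
def ctxOf (D : Design) (α : List Move) (m : Move) (x : ℕ) : Ctx :=
  (α, pre (fun i => m.2.getD i 0) (D.k + α.length), x)

/-- the segment of the old design that answers a move in the new design -/
def next (D : Design) (c : Code) (x s : ℕ) (α : List Move) (m : Move) : List Move :=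
  (D.found c (D.ctxOf α m x) (D.guess α m) s).getD [] ++
    D.plainSeg (α ++ (D.found c (D.ctxOf α m x) (D.guess α m) s).getD []).length
      (fun z => (D.guess α m).getD z 0) (fun _ i => m.2.getD i 0)
      (s - ((D.found c (D.ctxOf α m x) (D.guess α m) s).getD []).length)

/-- translation of histories of the new design -/
def trans (D : Design) (c : Code) (δ : ℕ → ℕ) (h : List Move) (n : ℕ) : List Move :=
  natIter [] (fun j α => α ++ D.next c j (δ (j + 1) - δ j) α (mv h j)) n

section

variable {α : Type} [Primcodable α] {O : Set (ℕ →. ℕ)}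

@[fun_prop] lemma c_stageB {d x s : α → ℕ} (h1 : ComputableIn O d) (h2 : ComputableIn O x)
    (h3 : ComputableIn O s) : ComputableIn O fun a => D.stageB c (d a) (x a) (s a) := by
  unfold stageB; fun_prop

@[fun_prop] lemma c_guess {h : α → List Move} {m : α → Move} (h1 : ComputableIn O h)
    (h2 : ComputableIn O m) : ComputableIn O fun a => D.guess (h a) (m a) := by
  unfold guess
  exact c_append (c_map (f := fun a => D.E (h a)) (g := fun _ (r : Row) => r.1) (by fun_prop)
    (by fun_prop)) (by fun_prop)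

@[fun_prop] lemma c_found {ctx : α → Ctx} {η : α → List ℕ} {s : α → ℕ} (h1 : ComputableIn O ctx)
    (h2 : ComputableIn O η) (h3 : ComputableIn O s) :
    ComputableIn O fun a => D.found c (ctx a) (η a) (s a) := by
  unfold found; fun_prop

@[fun_prop] lemma c_ctxOf {h : α → List Move} {m : α → Move} {x : α → ℕ} (h1 : ComputableIn O h)
    (h2 : ComputableIn O m) (h3 : ComputableIn O x) :
    ComputableIn O fun a => D.ctxOf (h a) (m a) (x a) := by
  unfold ctxOf; fun_prop

@[fun_prop] lemma c_next {h : α → List Move} {m : α → Move} {x s : α → ℕ} (h1 : ComputableIn O h)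
    (h2 : ComputableIn O m) (h3 : ComputableIn O x) (h4 : ComputableIn O s) :
    ComputableIn O fun a => D.next c (x a) (s a) (h a) (m a) := by
  unfold next; fun_prop

lemma c_trans {δ : ℕ → ℕ} (hδ : Computable δ) :
    Computable fun h : List Move => D.trans c δ h h.length := toC (by
  have := hδ.computableIn (O := ∅)
  unfold trans; fun_prop)

end

lemma found_spec {ctx : Ctx} {η : List ℕ} {s : ℕ} {seg : List Move}
    (h : D.found c ctx η s = some seg) :
    seg.length ≤ s ∧ ValidSeg D.k D.N ctx.1.length seg ∧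
      matchB (D.k + ctx.1.length) (D.E (ctx.1 ++ seg)) η = true ∧ certS c ctx seg s = true := by
  have h1 := List.find?_some h
  have h2 := List.mem_of_find?_eq_some h
  simp only [List.mem_flatMap, List.mem_range, mem_segs] at h2
  obtain ⟨l, hl, rfl, h3⟩ := h2
  simp only [Bool.and_eq_true] at h1
  exact ⟨by omega, h3, h1.1, h1.2⟩

lemma match_guess (α : List Move) (m : Move) (K : ℕ) :
    Match K (D.E α) fun z => (D.guess α m).getD z 0 := by
  intro j hj
  simp only [guess]
  rw [List.getD_append _ _ _ _ (by simpa using hj)]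
  simp [rowL, List.getD_eq_getElem?_getD, List.getElem?_eq_getElem hj]

lemma next_spec (hc : c.eval = D.Psi cΦ c) {α : List Move} (hα : D.Valid α) {m : Move}
    (hm : ∀ i, i < D.k + α.length → m.2.getD i 0 < D.k + α.length)
    (hm' : ∀ i, D.k + α.length ≤ i → m.2.getD i 0 = 0) (x s : ℕ) :
    D.Valid (α ++ D.next c x s α m) ∧ (D.next c x s α m).length = s ∧
      Match (D.k + α.length) (D.E (α ++ D.next c x s α m)) (fun z => (D.guess α m).getD z 0) ∧
      D.TargetOK α (fun i => m.2.getD i 0) (D.next c x s α m) := by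
  have key : ∀ seg, seg.length ≤ s → ValidSeg D.k D.N α.length seg →
      Match (D.k + α.length) (D.E (α ++ seg)) (fun z => (D.guess α m).getD z 0) →
      D.TargetOK α (fun i => m.2.getD i 0) seg →
      let r := seg ++ D.plainSeg (α ++ seg).length (fun z => (D.guess α m).getD z 0)
        (fun _ i => m.2.getD i 0) (s - seg.length)
      D.Valid (α ++ r) ∧ r.length = s ∧
      Match (D.k + α.length) (D.E (α ++ r)) (fun z => (D.guess α m).getD z 0) ∧
      D.TargetOK α (fun i => m.2.getD i 0) r := by
    intro seg h1 h2 h3 h4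
    have hv := hα.append0 h2
    have hτ : ∀ d i, (α ++ seg).length ≤ d → i < D.k + d →
        (fun _ i => m.2.getD i 0 : ℕ → ℕ → ℕ) d i < D.k + d := by
      intro d i hd hi
      simp only [List.length_append] at hd ⊢
      by_cases h : i < D.k + α.length
      · have := hm i h
        omega
      · rw [hm' i (not_lt.1 h)]; omega
    refine ⟨?_, by simp; omega, ?_, h4.append_plain hv _ hτ (fun _ _ _ => rfl) _⟩
    · rw [← List.append_assoc]
      exact hv.append0 (D.valid_plainSeg _ hτ _)
    · rw [← List.append_assoc]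
      exact D.match_plainSeg hv hτ _ (by simp) h3
  unfold next
  cases hf : D.found c (D.ctxOf α m x) (D.guess α m) s with
  | none =>
    exact key [] (by simp) (validSeg_nil _ _ _) (by simpa using match_guess α m _)
      (TargetOK.nil _ _ _)
  | some seg =>
    obtain ⟨h1, h2, h3, h4⟩ := found_spec hf
    obtain ⟨w, -, hw⟩ := dom_of_certS h4
    refine key seg h1 h2 ?_ ?_
    · rw [← pre_getD (D.guess α m) 0, matchB_pre] at h3
      exact h3.2
    · have := (cert_sound hc hw).1
      intro i hi1 hi2 Y hY hcomp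
      refine this i hi1 hi2 Y hY ?_
      simp only [ctxOf]
      rwa [getD_pre _ hi2]

lemma trans_succ (δ : ℕ → ℕ) (h : List Move) (n : ℕ) : D.trans c δ h (n + 1) =
    D.trans c δ h n ++ D.next c n (δ (n + 1) - δ n) (D.trans c δ h n) (mv h n) := rfl

lemma trans_take (δ : ℕ → ℕ) (h : List Move) {d n : ℕ} (hn : n ≤ d) :
    D.trans c δ (h.take d) n = D.trans c δ h n := by
  induction n with
  | zero => rfl
  | succ n ih => rw [trans_succ, trans_succ, ih (by omega), mv_take (by omega)]

lemma trans_isPrefix (δ : ℕ → ℕ) (h : List Move) {n n' : ℕ} (hn : n ≤ n') :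
    D.trans c δ h n <+: D.trans c δ h n' := by
  induction n', hn using Nat.le_induction with
  | base => exact List.prefix_rfl
  | succ n' _ ih => rw [trans_succ]; exact ih.trans (List.prefix_append _ _)

lemma E_of_isPrefix {h h' : List Move} (hv : D.Valid h') (hp : h <+: h') : D.E h <+: D.E h' := by
  obtain ⟨t, rfl⟩ := hp
  exact D.E_isPrefix hv

section success

variable {δ : ℕ → ℕ}

lemma move_targets (hδ : StrictMono δ) {d : ℕ} {m : Move}
    (hm : ValidMove D.k (fun d => D.N (δ d)) d m) :
    (∀ i, i < D.k + δ d → m.2.getD i 0 < D.k + δ d) ∧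
      ∀ i, D.k + δ d ≤ i → m.2.getD i 0 = 0 := by
  have hd : d ≤ δ d := hδ.le_apply
  obtain ⟨-, -, h3, h4⟩ := hm
  refine ⟨fun i hi => ?_, fun i hi => List.getD_eq_default _ _ (by omega)⟩
  by_cases h : i < m.2.length
  · rw [List.getD_eq_getElem _ _ h]
    have := h4 _ (List.getElem_mem h)
    omega
  · rw [List.getD_eq_default _ _ (not_lt.1 h)]; omega

lemma trans_spec (hc : c.eval = D.Psi cΦ c) (hδ : StrictMono δ) (hδ0 : δ 0 = 0) {h : List Move}
    (hv : ValidSeg D.k (fun d => D.N (δ d)) 0 h) {n : ℕ} (hn : n ≤ h.length) :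
    D.Valid (D.trans c δ h n) ∧ (D.trans c δ h n).length = δ n := by
  induction n with
  | zero => exact ⟨validSeg_nil _ _ _, hδ0.symm⟩
  | succ n ih =>
    obtain ⟨h1, h2⟩ := ih (by omega)
    have hm := move_targets hδ (by simpa using hv n (by omega))
    rw [← h2] at hm
    obtain ⟨h3, h4, -⟩ := next_spec hc h1 hm.1 hm.2 n (δ (n + 1) - δ n)
    rw [trans_succ]
    refine ⟨h3, ?_⟩
    have := hδ (Nat.lt_succ_self n)
    rw [List.length_append, h2, h4]
    simp only [Nat.succ_eq_add_one] at this
    omega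

lemma trans_next (hc : c.eval = D.Psi cΦ c) (hδ : StrictMono δ) (hδ0 : δ 0 = 0) {h : List Move}
    (hv : ValidSeg D.k (fun d => D.N (δ d)) 0 h) {n : ℕ} (hn : n < h.length) :
    Match (D.k + δ n) (D.E (D.trans c δ h (n + 1)))
      (fun z => (D.guess (D.trans c δ h n) (mv h n)).getD z 0) ∧
    D.TargetOK (D.trans c δ h n) (fun i => (mv h n).2.getD i 0)
      (D.next c n (δ (n + 1) - δ n) (D.trans c δ h n) (mv h n)) := by
  obtain ⟨h1, h2⟩ := trans_spec hc hδ hδ0 hv hn.le
  have hm := move_targets hδ (by simpa using hv n (by omega))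
  rw [← h2] at hm
  obtain ⟨-, -, h5, h6⟩ := next_spec hc h1 hm.1 hm.2 n (δ (n + 1) - δ n)
  rw [h2] at h5
  exact ⟨h5, h6⟩

/-- the design all of whose branches make the functional converge -/
def cover (D : Design) (hc : c.eval = D.Psi cΦ c) (hδ : StrictMono δ) (hδ0 : δ 0 = 0)
    (cδ : Computable δ) : Design where
  k := D.k
  N := fun d => D.N (δ d)
  E := fun h => D.E (D.trans c δ h h.length)
  dead := D.dead
  cN := D.cN.comp cδ
  cE := D.cE.comp (c_trans cδ)
  cdead := D.cdead
  N_lt := fun d => D.N_strictMono (hδ (Nat.lt_succ_self d))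
  len := fun h hv => by
    obtain ⟨h1, h2⟩ := trans_spec hc hδ hδ0 hv le_rfl
    rw [D.len _ h1, h2]
  mono := fun h hv d => by
    rw [trans_take _ _ (by simp)]
    exact E_of_isPrefix (trans_spec hc hδ hδ0 hv le_rfl).1 (trans_isPrefix _ _ (by simp))
  bits := fun h hv d hd x h1 h2 => by
    obtain ⟨h3, h4⟩ := trans_spec hc hδ hδ0 hv hd.le
    obtain ⟨h5, h6⟩ := trans_spec hc hδ hδ0 hv (n := d + 1) hd
    have hx : x < (D.E (D.trans c δ h (d + 1))).length := by rw [D.len _ h5, h6]; exact h2
    rw [rowL_of_isPrefix (E_of_isPrefix (trans_spec hc hδ hδ0 hv le_rfl).1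
      (trans_isPrefix _ _ hd)) hx]
    have h7 := (trans_next hc hδ hδ0 hv hd).1 x hx
    have hd' : d ≤ δ d := hδ.le_apply
    rw [mod_pow_of_le h7 (by omega)]
    simp only [guess]
    obtain ⟨h8, h9, -⟩ := hv d hd
    simp only [zero_add] at h8 h9
    rw [List.getD_append_right _ _ _ _ (by simp only [List.length_map]; rw [D.len _ h3, h4]; exact h1)]
    simp only [List.length_map]
    rw [D.len _ h3, h4]
    apply Nat.mod_eq_of_lt
    rw [List.getD_eq_getElem _ _ (by omega)]
    exact h9 _ (List.getElem_mem _)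
  star := fun h hv d hd i hi1 hi2 Y hY hcomp j h1 h2 => by
    obtain ⟨h3, h4⟩ := trans_spec hc hδ hδ0 hv hd.le
    obtain ⟨h5, h6⟩ := trans_spec hc hδ hδ0 hv (n := d + 1) hd
    have hpre := E_of_isPrefix (trans_spec hc hδ hδ0 hv le_rfl).1
      (trans_isPrefix (D := D) (c := c) δ h hd)
    have hl : (D.E (D.trans c δ h (d + 1))).length = D.N (δ (d + 1)) := by rw [D.len _ h5, h6]
    have hd' : d ≤ δ d := hδ.le_apply
    have h7 : (D.trans c δ h d).length +
        (D.next c d (δ (d + 1) - δ d) (D.trans c δ h d) (mv h d)).length = δ (d + 1) := by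
      rw [trans_succ, List.length_append] at h6
      exact h6
    rw [rowL_of_isPrefix hpre (by rw [hl]; exact h2)]
    refine (trans_next hc hδ hδ0 hv hd).2.faithful h5 hi1 (by omega) (fun x hx1 hx2 => ?_)
      (by rw [h4]; exact hcomp) (by rw [h4]; exact h1) (by rw [h7]; exact h2)
    rw [h4] at hx1
    rw [h7] at hx2
    rw [hY x hx1 hx2, rowL_of_isPrefix hpre (by rw [hl]; exact hx2)]
    rfl

end success

/-- the case in which a computable bound can be forced -/
lemma exists_bound (hNE : D.NE) (hC : D.C2) (hc : c.eval = D.Psi cΦ c)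
    (h : ∀ ctx, D.CtxOK ctx → ¬ ∃ y, D.Uncovered c ctx y) :
    ∃ D' : Design, D'.NE ∧ D'.C2 ∧ (∀ a, D'.Mem a → D.Mem a) ∧ D.k ≤ D'.k ∧
      ∃ g : ℕ → ℕ, Computable g ∧ ∀ a, D'.Mem a → ∀ x, ∃ n v,
        v ∈ cΦ.eval (encode (pre a n, x)) ∧ v ≤ g x := by
  have hst := exists_stageB h
  let f : ℕ × ℕ → ℕ := fun p => Nat.find (hst p.1 p.2)
  have cf : ComputableIn ∅ f :=
    c_find (p := fun (p : ℕ × ℕ) s => D.stageB c p.1 p.2 s) (by fun_prop) fun p => hst p.1 p.2
  have hf : ∀ d x, D.stageB c d x (f (d, x)) = true := fun d x => Nat.find_spec (hst d x)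
  let δ : ℕ → ℕ := natIter 0 fun x d => d + f (d, x)
  have cδ : Computable δ := toC (f := fun n => natIter 0 (fun x d => d + f (d, x)) n) (by fun_prop)
  have hδs : ∀ x, δ (x + 1) - δ x = f (δ x, x) := fun x => by
    have : δ (x + 1) = δ x + f (δ x, x) := rfl
    omega
  have hδ : StrictMono δ := strictMono_nat_of_lt_succ fun x => by
    have h1 := hf (δ x) x
    simp only [stageB, Bool.and_eq_true, leB_iff] at h1
    have := hδs x
    omega
  have hδ0 : δ 0 = 0 := rfl
  have hsub : ∀ a, (D.cover hc hδ hδ0 cδ).Mem a → D.Mem a := by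
    intro a ha
    refine ⟨fun d => ?_, ha.2⟩
    obtain ⟨h', hv, hl, hag⟩ := ha.1 d
    obtain ⟨h1, h2⟩ := trans_spec hc hδ hδ0 hv le_rfl
    have : d ≤ δ d := hδ.le_apply
    exact ⟨(D.trans c δ h' h'.length).take d, h1.take d,
      by rw [List.length_take, h2, hl]; omega,
      Agree.of_isPrefix hag (D.mono _ h1 d)⟩
  refine ⟨D.cover hc hδ hδ0 cδ, hNE, fun a ha => hC a (hsub a ha), hsub, le_rfl,
    fun x => δ (x + 1), cδ.comp Computable.succ, fun a ha x => ?_⟩
  obtain ⟨h', hv, hl, hag⟩ := ha.1 (x + 1)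
  have hx : x < h'.length := by omega
  obtain ⟨h3, h4⟩ := trans_spec hc hδ hδ0 hv hx.le
  obtain ⟨h5, h6⟩ := trans_spec hc hδ hδ0 hv (n := x + 1) hx
  have hm := (trans_next hc hδ hδ0 hv hx).1
  have hag' : Agree (D.E (D.trans c δ h' (x + 1))) a := by
    have : (D.cover hc hδ hδ0 cδ).E h' = D.E (D.trans c δ h' (x + 1)) := by simp [cover, hl]
    rwa [this] at hag
  set α := D.trans c δ h' x with hα
  set m := mv h' x with hm'
  set s := δ (x + 1) - δ x with hs
  have hsle : s ≤ D.N (δ (x + 1)) := le_trans (by omega) (D.le_N _)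
  have hlen : (D.E (D.trans c δ h' (x + 1))).length = D.N (δ (x + 1)) := by rw [D.len _ h5, h6]
  have hga : ∀ j < D.N (δ (x + 1)), (a j).1 % 2 ^ (D.k + α.length) =
      (D.guess α m).getD j 0 % 2 ^ (D.k + α.length) := by
    intro j hj
    rw [← hag' j (by rw [hlen]; exact hj), h4]
    exact hm j (by rw [hlen]; exact hj)
  have hgl : (D.guess α m).length = D.N (δ (x + 1)) := by
    obtain ⟨h8, -⟩ := hv x hx
    simp only [zero_add, cover] at h8
    have := D.N_mono (hδ (Nat.lt_succ_self x)).le
    simp only [guess, List.length_append, List.length_map, D.len _ h3, h4]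
    simp only [Nat.succ_eq_add_one] at this
    rw [hm', h8]
    omega
  have hfin : D.finB c (D.ctxOf α m x) s = true := by
    have h1 := hf (δ x) x
    rw [← hδs x] at h1
    simp only [stageB, Bool.and_eq_true, List.all_eq_true] at h1
    refine h1.2 α (D.mem_segs.2 ⟨h4, h3⟩) _ (mem_allLists.2 ⟨by simp [h4], ?_⟩)
    intro t ht
    simp only [pre, List.mem_map, List.mem_range] at ht
    obtain ⟨i, hi, rfl⟩ := ht
    have hvx := hv x hx
    rw [zero_add] at hvx
    exact (move_targets hδ hvx).1 i (by rw [← h4]; exact hi)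
  have hcov : D.covB c (D.ctxOf α m x) (pre (fun j => (D.guess α m).getD j 0) s) s = true := by
    simp only [finB, Bool.and_eq_true, leB_iff, List.all_eq_true, mem_allLists, Bool.or_eq_true,
      Bool.not_eq_true'] at hfin
    rcases hfin.2 (pre (fun j => (a j).1 % 2 ^ (D.k + α.length)) s) ⟨by simp, by
        intro x hx
        simp only [pre, List.mem_map] at hx
        obtain ⟨j, -, rfl⟩ := hx
        exact Nat.mod_lt _ (by positivity)⟩ with h7 | h7 | h7
    · exfalso
      have : matchB (D.k + α.length) (D.E α)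
          (pre (fun j => (a j).1 % 2 ^ (D.k + α.length)) s) = true := by
        refine matchB_pre.2 ⟨by rw [D.len _ h3]; exact hfin.1, fun j hj => ?_⟩
        have := (hag'.of_isPrefix (E_of_isPrefix h5 (trans_isPrefix δ h' (Nat.le_succ x)))) j hj
        rw [this]; simp
      simp only [ctxOf] at h7
      rw [this] at h7
      exact Bool.noConfusion h7
    · exfalso
      obtain ⟨n, -, hn⟩ := deadB_pre.1 (deadB_transfer (K := D.k + α.length) (by omega) h7 le_rfl
        (y' := fun j => (a j).1) fun j _ => by simp)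
      have := ha.2 n
      simp only [cover] at this
      rw [this] at hn
      exact Bool.noConfusion hn
    · exact covB_transfer h7 le_rfl le_rfl fun j hj => by
        simp only [ctxOf, Nat.mod_mod]
        exact hga j (by omega)
  obtain ⟨seg₀, g1, g2, g3, g4, g5⟩ := covB_pre.1 hcov
  obtain ⟨seg, hseg⟩ : ∃ seg, D.found c (D.ctxOf α m x) (D.guess α m) s = some seg := by
    rw [← Option.isSome_iff_exists, found, List.find?_isSome]
    refine ⟨seg₀, List.mem_flatMap.2 ⟨seg₀.length, List.mem_range.2 (by omega),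
      D.mem_segs.2 ⟨rfl, g2⟩⟩, ?_⟩
    rw [Bool.and_eq_true]
    refine ⟨?_, g5⟩
    rw [← pre_getD (D.guess α m) 0, matchB_pre]
    exact ⟨by omega, g4⟩
  obtain ⟨-, k2, -, k4⟩ := found_spec hseg
  obtain ⟨w, hws, hw⟩ := dom_of_certS k4
  obtain ⟨n, hn, v, hv1, hv2⟩ := convB_iff.1 (cert_sound hc hw).2
  have hpre : α ++ seg <+: D.trans c δ h' (x + 1) := by
    rw [trans_succ, ← hα, ← hm', ← hs, next, hseg, Option.getD_some, ← List.append_assoc]
    exact List.prefix_append _ _
  have hag2 : Agree (D.E (α ++ seg)) a := hag'.of_isPrefix (E_of_isPrefix h5 hpre)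
  refine ⟨n, v, ?_, by simp only; omega⟩
  simp only [ctxOf] at hn hv1
  rw [hag2.take_eq hn] at hv1
  exact Code.evaln_sound hv1

theorem dichotomy (D : Design) (hNE : D.NE) (hC : D.C2) (cΦ : Code) :
    ∃ D' : Design, D'.NE ∧ D'.C2 ∧ (∀ a, D'.Mem a → D.Mem a) ∧ D.k ≤ D'.k ∧
      ((∃ x : ℕ, ∀ a, D'.Mem a → ∀ n v, v ∉ cΦ.eval (encode (pre a n, x))) ∨
       ∃ g : ℕ → ℕ, Computable g ∧ ∀ a, D'.Mem a → ∀ x, ∃ n v,
        v ∈ cΦ.eval (encode (pre a n, x)) ∧ v ≤ g x) := by
  obtain ⟨c, hc⟩ := D.exists_fix cΦ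
  by_cases h : ∃ ctx, D.CtxOK ctx ∧ ∃ y, D.Uncovered c ctx y
  · obtain ⟨ctx, hctx, hU⟩ := h
    obtain ⟨D', h1, h2, h3, h4, h5⟩ := exists_diverge hC hc hctx hU
    exact ⟨D', h1, h2, h3, h4, Or.inl ⟨_, h5⟩⟩
  · obtain ⟨D', h1, h2, h3, h4, h5⟩ := exists_bound hNE hC hc fun ctx hctx hU => h ⟨ctx, hctx, hU⟩
    exact ⟨D', h1, h2, h3, h4, Or.inr h5⟩

end Design

end Pool.Agent.MP_b427ce_lc

end MrgPart0

-- ======== part 1: formerly Pool.Agent.MP_b427ce_lc.Omniscient
section MrgPart1

/-!
A computably dominated oracle that BC-learns all computable reals.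
-/

namespace Pool.Agent.MP_b427ce_lc

open Encodable Nat.Partrec

/-- the requirements met at step `n` -/
def Step (n : ℕ) (D D' : Design) : Prop :=
  (∀ a, D'.Mem a → D.Mem a) ∧ D.k < D'.k ∧
  (∀ Z : ℕ → Bool, Computable Z → (∀ x, (Z x).toNat ∈ phi n x) →
    ∀ a, D'.Mem a → ∃ i m, ∀ x, m ≤ x → col a i x = Z x) ∧
  ((∃ x : ℕ, ∀ a, D'.Mem a → ∀ m v, v ∉ phi n (encode (pre a m, x))) ∨
    ∃ g : ℕ → ℕ, Computable g ∧ ∀ a, D'.Mem a → ∀ x, ∃ m v,
      v ∈ phi n (encode (pre a m, x)) ∧ v ≤ g x)

lemma exists_step (n : ℕ) (D : Design) (hNE : D.NE) (hC : D.C2) :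
    ∃ D' : Design, (D'.NE ∧ D'.C2) ∧ Step n D D' := by
  obtain ⟨Z₀, hZ₀, hZ⟩ : ∃ Z₀ : ℕ → Bool, Computable Z₀ ∧ ∀ Z : ℕ → Bool, Computable Z →
      (∀ x, (Z x).toNat ∈ phi n x) → Z = Z₀ := by
    by_cases h : ∃ Z : ℕ → Bool, Computable Z ∧ ∀ x, (Z x).toNat ∈ phi n x
    · obtain ⟨Z₀, h1, h2⟩ := h
      refine ⟨Z₀, h1, fun Z _ h3 => funext fun x => ?_⟩
      have := Part.mem_unique (h3 x) (h2 x)
      revert this
      cases Z x <;> cases Z₀ x <;> simp
    · exact ⟨fun _ => false, Computable.const _, fun Z h1 h2 => absurd ⟨Z, h1, h2⟩ h⟩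
  obtain ⟨D₁, a1, a2, a3, a4, a5⟩ := D.exists_promise hNE hC hZ₀
  obtain ⟨D₂, b1, b2, b3, b4, b5⟩ := D₁.dichotomy a1 a2 (Denumerable.ofNat Code n)
  refine ⟨D₂, ⟨b1, b2⟩, fun a ha => a3 a (b3 a ha), by omega, fun Z h1 h2 a ha => ?_, b5⟩
  rw [hZ Z h1 h2]
  exact a5 a (b3 a ha)

lemma exists_array : ∃ a : ℕ → Row, (∀ i, Good a i) ∧
    (∀ Z : ℕ → Bool, Computable Z → ∃ i m, ∀ x, m ≤ x → col a i x = Z x) ∧
    ∀ n, (∃ x : ℕ, ∀ m v, v ∉ phi n (encode (pre a m, x))) ∨
      ∃ g : ℕ → ℕ, Computable g ∧ ∀ x, ∃ m v, v ∈ phi n (encode (pre a m, x)) ∧ v ≤ g x := by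
  choose F hF1 hF2 using fun (n : ℕ) (D : {D : Design // D.NE ∧ D.C2}) =>
    exists_step n D.1 D.2.1 D.2.2
  let S : ℕ → {D : Design // D.NE ∧ D.C2} := fun n =>
    Nat.rec ⟨baseDesign, baseDesign_NE, baseDesign_C2⟩ (fun n D => ⟨F n D, hF1 n D⟩) n
  have hS : ∀ n, Step n (S n).1 (S (n + 1)).1 := fun n => hF2 n (S n)
  have hanti : ∀ m n, m ≤ n → ∀ a, (S n).1.Mem a → (S m).1.Mem a := by
    intro m n hmn
    induction n, hmn using Nat.le_induction with
    | base => exact fun _ h => h
    | succ n _ ih => exact fun a ha => ih a ((hS n).1 a ha)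
  have hk : ∀ n, n ≤ (S n).1.k := by
    intro n
    induction n with
    | zero => exact Nat.zero_le _
    | succ n ih => exact Nat.succ_le_of_lt (lt_of_le_of_lt ih (hS n).2.1)
  obtain ⟨a, -, ha⟩ := konig
    (F := fun j => (fun h => rowL ((S 0).1.E h) j) '' {h | h ∈ (S 0).1.segs 0 (j + 1)})
    (fun j => (List.finite_toSet _).image _)
    (P := fun n a => (∃ h, (S n.unpair.1).1.Valid h ∧ h.length = n.unpair.2 ∧
      Agree ((S n.unpair.1).1.E h) a) ∧
      (S n.unpair.1).1.dead (pre (fun j => (a j).1 % 2 ^ (S n.unpair.1).1.k) n.unpair.2) = false)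
    (fun n => Local.and
      ⟨(S n.unpair.1).1.N n.unpair.2, fun a b hab ⟨h, h1, h2, h3⟩ => ⟨h, h1, h2, fun j hj => by
        rw [h3 j hj]
        exact hab j (by rwa [Design.len _ _ h1, h2] at hj)⟩⟩
      ⟨n.unpair.2, fun a b hab h => by
        simp only at h ⊢
        rwa [← pre_congr (a := fun j => (a j).1 % 2 ^ (S n.unpair.1).1.k)
          fun j hj => by simp only [hab j hj]]⟩)
    (fun n => by
      obtain ⟨a, ha⟩ := (S n).1.exists_mem (S n).2.1
      refine ⟨a, fun j => ?_, fun i hi => ?_⟩
      · obtain ⟨h, h1, h2, h3⟩ := (hanti 0 n (Nat.zero_le _) a ha).1 (j + 1)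
        refine ⟨h, (Design.mem_segs _).2 ⟨h2, h1⟩, h3 j ?_⟩
        rw [Design.len _ _ h1, h2]
        exact lt_of_lt_of_le (Nat.lt_succ_self j) (Design.le_N _ _)
      · have := hanti i.unpair.1 n (le_trans (Nat.unpair_left_le i) hi) a ha
        exact ⟨this.1 _, this.2 _⟩)
  have hmem : ∀ n, (S n).1.Mem a := fun n =>
    ⟨fun d => by simpa using (ha (Nat.pair n d)).1, fun d => by simpa using (ha (Nat.pair n d)).2⟩
  refine ⟨a, fun i => (S (i + 1)).2.2 a (hmem (i + 1)) i (hk (i + 1)), fun Z hZ => ?_, fun n => ?_⟩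
  · obtain ⟨e, he⟩ := Design.exists_index hZ
    exact (hS e).2.2.1 Z hZ he a (hmem (e + 1))
  · rcases (hS n).2.2.2 with ⟨x, hx⟩ | ⟨g, hg, h⟩
    · exact Or.inl ⟨x, hx a (hmem (n + 1))⟩
    · exact Or.inr ⟨g, hg, h a (hmem (n + 1))⟩

/-- the graph of an array -/
def graphSet (a : ℕ → Row) : Set ℕ := {n | encode (a n.unpair.1) = n.unpair.2}

lemma oracle_graphSet (a : ℕ → Row) (n : ℕ) :
    oracle (graphSet a) n = Part.some (eqB (encode (a n.unpair.1)) n.unpair.2).toNat := by
  unfold oracle
  by_cases h : n ∈ graphSet a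
  · rw [Set.indicator_of_mem h, eqB_iff.2 h]; rfl
  · rw [Set.indicator_of_notMem h, eqB_false_iff.2 h]; rfl

lemma computableIn_array (a : ℕ → Row) : ComputableIn {oracle (graphSet a)} a := by
  have h0 : ComputableIn {oracle (graphSet a)}
      fun n : ℕ => (eqB (encode (a n.unpair.1)) n.unpair.2).toNat :=
    (RecursiveIn.oracle _ (Set.mem_singleton _)).of_eq (oracle_graphSet a)
  have h1 : ComputableIn {oracle (graphSet a)} fun p : ℕ × ℕ => eqB (encode (a p.1)) p.2 := by
    refine cin_of_eq (f := fun p : ℕ × ℕ => eqB (eqB (encode (a (Nat.pair p.1 p.2).unpair.1))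
      (Nat.pair p.1 p.2).unpair.2).toNat 1)
      (c_eqB (c_comp h0 (g := fun p : ℕ × ℕ => Nat.pair p.1 p.2) (by fun_prop)) (c_const _))
      fun p => ?_
    simp only [Nat.unpair_pair]
    cases eqB (encode (a p.1)) p.2 <;> rfl
  have h2 : ∀ j, ∃ v, eqB (encode (a j)) v = true := fun j => ⟨_, eqB_iff.2 rfl⟩
  have h3 := c_find (p := fun j v => eqB (encode (a j)) v) h1 h2
  refine cin_of_eq (f := fun j => (decode (α := Row) (Nat.find (h2 j))).getD default)
    (by fun_prop) fun j => ?_
  rw [← eqB_iff.1 (Nat.find_spec (h2 j)), encodek, Option.getD_some]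

lemma functional_oracle (a : ℕ → Row) : Functional a (oracle (graphSet a)) := by
  refine ⟨fun l n => bif leB (n.unpair.1 + 1) l.length then
    Part.some (eqB (encode (rowL l n.unpair.1)) n.unpair.2).toNat else Part.none, ?_, ?_, ?_⟩
  · exact Partrec.cond (α := List Row × ℕ) (toC (by fun_prop))
      (Computable.partrec (toC (by fun_prop))) Partrec.none
  · intro l l' x v hl hv
    by_cases hx : x.unpair.1 + 1 ≤ l.length
    · simp only [leB_iff.2 hx, leB_iff.2 (le_trans hx hl.length_le), cond_true] at hv ⊢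
      rwa [rowL_of_isPrefix hl hx]
    · simp [leB_false_iff.2 (not_le.1 hx)] at hv
  · intro x v hv
    refine ⟨x.unpair.1 + 1, ?_⟩
    rw [oracle_graphSet] at hv
    simp only [length_pre, leB_iff.2 le_rfl, cond_true]
    rwa [rowL, getD_pre _ (Nat.lt_succ_self _)]

lemma dominated_graphSet {a : ℕ → Row}
    (h : ∀ n, (∃ x : ℕ, ∀ m v, v ∉ phi n (encode (pre a m, x))) ∨
      ∃ g : ℕ → ℕ, Computable g ∧ ∀ x, ∃ m v, v ∈ phi n (encode (pre a m, x)) ∧ v ≤ g x) :
    Dominated (graphSet a) := by
  intro f hf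
  obtain ⟨G, cG, mG, hG⟩ := functional_of_recursiveIn a (functional_oracle a)
    (RecursiveIn.iff_nat.1 hf)
  obtain ⟨c, hc⟩ := Code.exists_code.1 cG
  have hphi : ∀ l x, phi (encode c) (encode (l, x)) = G l x := by
    intro l x
    simp only [phi, Denumerable.ofNat_encode, hc, encodek, Part.coe_some, Part.bind_some]
    exact Part.map_id' (fun _ => rfl) _
  rcases h (encode c) with ⟨x, hx⟩ | ⟨g, hg, h⟩
  · obtain ⟨m, hm⟩ := hG x (f x) (Part.mem_some _)
    exact absurd (hphi _ _ ▸ hm) (hx m (f x))
  · refine ⟨g, hg, fun x => ?_⟩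
    obtain ⟨m, v, hv, hvg⟩ := h x
    obtain ⟨m', hm'⟩ := hG x (f x) (Part.mem_some _)
    rw [hphi] at hv
    rw [Part.mem_unique (mG _ _ _ _ (pre_isPrefix a (le_max_right m m')) hm')
      (mG _ _ _ _ (pre_isPrefix a (le_max_left m m')) hv)]
    exact hvg

lemma exists_patch : ∃ P : List Bool → ℕ → ℕ, (Computable fun p : List Bool × ℕ => P p.1 p.2) ∧
    ∀ σ r x, phi (P σ r) x =
      if x < σ.length then Part.some (σ.getD x false).toNat else phi r x := by
  have h : Partrec fun n : ℕ =>
      bif leB (n.unpair.2 + 1) ((decode (α := List Bool × ℕ) n.unpair.1).getD default).1.length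
      then Part.some (((decode (α := List Bool × ℕ) n.unpair.1).getD default).1.getD n.unpair.2
        false).toNat
      else phi ((decode (α := List Bool × ℕ) n.unpair.1).getD default).2 n.unpair.2 :=
    Partrec.cond (toC (by fun_prop)) (Computable.partrec (toC (by fun_prop)))
      (Code.eval_part.comp (toC (by fun_prop)) (toC (by fun_prop)))
  obtain ⟨c, hc⟩ := Code.exists_code.1 (Partrec.nat_iff.1 h)
  refine ⟨fun σ r => encode (Code.curry c (encode (σ, r))), toC (by fun_prop), fun σ r x => ?_⟩
  conv_lhs => simp only [phi, Denumerable.ofNat_encode, Code.eval_curry, hc]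
  simp only [Nat.unpair_pair, encodek, Option.getD_some]
  split_ifs with hx
  · rw [leB_iff.2 hx, cond_true]
  · rw [leB_false_iff.2 (by omega), cond_false]; rfl

/-- the pair `p` of a column and a position is consistent with `σ` -/
def okB (a : ℕ → Row) (σ : List Bool) (p : ℕ) : Bool :=
  (List.range σ.length).all fun x =>
    !leB p.unpair.2 x || eqB (σ.getD x false) ((a x).1.testBit p.unpair.1)

lemma okB_pre {a : ℕ → Row} {Z : ℕ → Bool} {n p : ℕ} : okB a (pre Z n) p = true ↔
    ∀ x < n, p.unpair.2 ≤ x → col a p.unpair.1 x = Z x := by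
  simp only [okB, length_pre, List.all_eq_true, List.mem_range, Bool.or_eq_true,
    Bool.not_eq_true', leB_false_iff, eqB_iff]
  refine forall_congr' fun x => forall_congr' fun hx => ?_
  rw [getD_pre _ hx]
  constructor
  · rintro (h | h) h'
    · omega
    · exact h.symm
  · intro h
    by_cases h' : p.unpair.2 ≤ x
    · exact Or.inr (h h').symm
    · exact Or.inl (not_le.1 h')

lemma find?_range_eq {P : ℕ → Bool} {p n : ℕ} (hp : p < n) (h1 : P p = true)
    (h2 : ∀ q < p, P q = false) : (List.range n).find? P = some p := by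
  rw [List.find?_range_eq_some]
  exact ⟨h1, List.mem_range.2 hp, fun q hq => by simp [h2 q hq]⟩

lemma bcReals_graphSet {a : ℕ → Row} (hG : ∀ i, Good a i)
    (hZ : ∀ Z : ℕ → Bool, Computable Z → ∃ i m, ∀ x, m ≤ x → col a i x = Z x) :
    BCReals (graphSet a) := by
  classical
  obtain ⟨P, cP, hP⟩ := exists_patch
  refine ⟨fun σ => P σ ((a σ.length).2.getD
    (((List.range (σ.length + 1)).find? fun p => okB a σ p).getD 0).unpair.1 0), ?_, ?_⟩
  · have h1 := computableIn_array a
    have h2 := cP.computableIn (O := {oracle (graphSet a)})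
    unfold okB
    fun_prop
  · intro Z cZ
    have hex : ∃ p : ℕ, ∀ x, p.unpair.2 ≤ x → col a p.unpair.1 x = Z x := by
      obtain ⟨i, m, h⟩ := hZ Z cZ
      exact ⟨Nat.pair i m, by simpa using h⟩
    have hp := Nat.find_spec hex
    set p := Nat.find hex with hp'
    have : ∀ q, ∃ w, q < p → q.unpair.2 ≤ w ∧ col a q.unpair.1 w ≠ Z w := by
      intro q
      by_cases hq : q < p
      · have := Nat.find_min hex hq
        push Not at this
        obtain ⟨w, hw⟩ := this
        exact ⟨w, fun _ => hw⟩
      · exact ⟨0, fun h => absurd h hq⟩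
    choose w hw using this
    obtain ⟨n₁, hn₁⟩ := hG p.unpair.1 (computable_of_eventually_eq cZ hp)
    refine ⟨max (max n₁ p) ((Finset.range p).sup w), fun n hn => ?_⟩
    have hfind : ((List.range (n + 1)).find? fun q => okB a (pre Z n) q) = some p := by
      refine find?_range_eq (by omega) (okB_pre.2 fun x _ hx => hp x hx) fun q hq => ?_
      by_contra hc
      rw [Bool.not_eq_false, okB_pre] at hc
      have : w q ≤ (Finset.range p).sup w := Finset.le_sup (f := w) (Finset.mem_range.2 hq)
      exact (hw q hq).2 (hc (w q) (by omega) (hw q hq).1)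
    funext x
    rw [initSeg_eq, hP, length_pre, hfind, Option.getD_some]
    split_ifs with hx
    · rw [getD_pre _ hx]
    · have h1 := hn₁ n (by omega) x (by omega)
      have h2 := Nat.unpair_right_le p
      rw [hp x (by omega)] at h1
      exact Part.eq_some_iff.2 h1

theorem exists_dominated_bcReals : ∃ A : Set ℕ, Dominated A ∧ BCReals A := by
  obtain ⟨a, h1, h2, h3⟩ := exists_array
  exact ⟨graphSet a, dominated_graphSet h3, bcReals_graphSet h1 h2⟩

end Pool.Agent.MP_b427ce_lc

end MrgPart1

-- ======== part 2: formerly Pool.Agent.MP_b427ce_lc.Uniform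
section MrgPart2

/-!
The uniform measure on Cantor space, counting, and almost sure randomness.
-/

namespace Pool.Agent.MP_b427ce_lc

open Encodable Nat.Partrec MeasureTheory Filter Topology

/-- all binary strings of length `n` -/
def strs (n : ℕ) : List (List Bool) :=
  natIter [[]] (fun _ L => L.flatMap fun l => [l ++ [false], l ++ [true]]) n

@[fun_prop] lemma c_strs {α : Type} [Primcodable α] {O : Set (ℕ →. ℕ)} {f : α → ℕ}
    (hf : ComputableIn O f) : ComputableIn O fun a => strs (f a) := by
  unfold strs; fun_prop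

lemma strs_succ (n : ℕ) : strs (n + 1) = (strs n).flatMap fun l => [l ++ [false], l ++ [true]] :=
  rfl

lemma mem_strs {n : ℕ} {l : List Bool} : l ∈ strs n ↔ l.length = n := by
  induction n generalizing l with
  | zero => simp [strs, natIter]
  | succ n ih =>
    simp only [strs_succ, List.mem_flatMap, ih, List.mem_cons, List.not_mem_nil, or_false]
    constructor
    · rintro ⟨l', h, rfl | rfl⟩ <;> simp [h]
    · intro h
      rcases List.eq_nil_or_concat l with rfl | ⟨l', b, rfl⟩
      · simp at h
      · exact ⟨l', by simpa using h, by cases b <;> simp⟩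

lemma nodup_strs (n : ℕ) : (strs n).Nodup := by
  induction n with
  | zero => simp [strs, natIter]
  | succ n ih =>
    rw [strs_succ, List.nodup_flatMap]
    refine ⟨fun l _ => by simp, ih.imp fun {a b} hab => ?_⟩
    simp only [Function.onFun, List.disjoint_cons_left, List.mem_cons, List.not_mem_nil, or_false,
      List.append_cancel_right_eq, List.disjoint_nil_left, and_true, not_or]
    refine ⟨⟨hab, fun h => ?_⟩, fun h => ?_, hab⟩ <;>
      simpa using (List.append_inj' h rfl).2

lemma length_strs (n : ℕ) : (strs n).length = 2 ^ n := by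
  induction n with
  | zero => rfl
  | succ n ih => rw [strs_succ, List.length_flatMap]; simp [ih, pow_succ]

lemma mem_cyl {σ : List Bool} {X : ℕ → Bool} : X ∈ cyl σ ↔ pre X σ.length = σ := by
  simp [cyl, initSeg_eq]

lemma mem_cyl_pre (X : ℕ → Bool) (n : ℕ) : X ∈ cyl (pre X n) := by simp [mem_cyl]

lemma mem_cyl_iff {σ : List Bool} {X : ℕ → Bool} :
    X ∈ cyl σ ↔ ∀ i < σ.length, X i = σ.getD i false := by
  rw [mem_cyl]
  constructor
  · intro h i hi
    rw [← h, getD_pre _ hi]
  · intro h
    exact (eq_pre_of rfl fun j hj => (h j hj).symm).symm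

lemma cyl_eq_pi (σ : List Bool) :
    cyl σ = Set.pi (Finset.range σ.length : Set ℕ) fun i => {σ.getD i false} := by
  ext X
  simp [mem_cyl_iff]

lemma measurableSet_cyl (σ : List Bool) : MeasurableSet (cyl σ) := by
  rw [cyl_eq_pi]
  exact MeasurableSet.pi (Finset.countable_toSet _) fun _ _ => measurableSet_singleton _

lemma cyl_mono {σ τ : List Bool} (h : σ <+: τ) : cyl τ ⊆ cyl σ := by
  intro X hX
  rw [mem_cyl_iff] at hX ⊢
  intro i hi
  rw [hX i (lt_of_lt_of_le hi h.length_le), getD_of_isPrefix h hi]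

lemma mem_cyl_concat {σ : List Bool} {b : Bool} {X : ℕ → Bool} :
    X ∈ cyl (σ ++ [b]) ↔ X ∈ cyl σ ∧ X σ.length = b := by
  simp only [mem_cyl, List.length_append, List.length_singleton, pre_succ]
  constructor
  · intro h
    have := List.append_inj' h rfl
    exact ⟨this.1, by simpa using this.2⟩
  · rintro ⟨h1, h2⟩
    rw [h1, h2]

lemma real_cyl_split (μ : Measure (ℕ → Bool)) [IsFiniteMeasure μ] (σ : List Bool) (b : Bool) :
    μ.real (cyl (σ ++ [b])) + μ.real (cyl (σ ++ [!b])) = μ.real (cyl σ) := by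
  rw [← measureReal_union _ (measurableSet_cyl _)]
  · congr 1
    ext X
    simp only [Set.mem_union, mem_cyl_concat]
    cases b <;> cases X σ.length <;> simp
  · rw [Set.disjoint_left]
    intro X h1 h2
    have := (mem_cyl_concat.1 h1).2.symm.trans (mem_cyl_concat.1 h2).2
    cases b <;> simp at this

open Classical in
lemma setOf_pre_eq (n : ℕ) (Q : List Bool → Prop) :
    {R | Q (pre R n)} = ⋃ σ ∈ (strs n).toFinset.filter Q, cyl σ := by
  ext R
  simp only [Set.mem_ofPred_eq, Finset.mem_filter, List.mem_toFinset, mem_strs, Set.mem_iUnion,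
    mem_cyl, exists_prop]
  constructor
  · intro h
    exact ⟨pre R n, ⟨by simp, h⟩, by simp⟩
  · rintro ⟨σ, ⟨rfl, h1⟩, h2⟩
    rwa [h2]

lemma measurableSet_pre (n : ℕ) (Q : List Bool → Prop) : MeasurableSet {R | Q (pre R n)} := by
  rw [setOf_pre_eq]
  exact Finset.measurableSet_biUnion _ fun σ _ => measurableSet_cyl σ

/-- the uniform measure -/
noncomputable def unif : Measure (ℕ → Bool) :=
  Measure.infinitePi fun _ : ℕ => (PMF.uniformOfFintype Bool).toMeasure

instance : IsProbabilityMeasure unif := by unfold unif; infer_instance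

lemma unif_cyl (σ : List Bool) : unif.real (cyl σ) = 1 / 2 ^ σ.length := by
  rw [measureReal_def, cyl_eq_pi, unif, Measure.infinitePi_pi _ fun _ _ => measurableSet_singleton _]
  simp [PMF.uniformOfFintype_apply]

open Classical in
lemma unif_pre (n : ℕ) (Q : List Bool → Prop) :
    unif.real {R | Q (pre R n)} = (((strs n).toFinset.filter Q).card : ℝ) / 2 ^ n := by
  rw [setOf_pre_eq, measureReal_biUnion_finset _ fun σ _ => measurableSet_cyl σ]
  · rw [Finset.sum_congr rfl (g := fun _ => (1 : ℝ) / 2 ^ n)]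
    · simp [div_eq_mul_inv]
    · intro σ hσ
      rw [unif_cyl, mem_strs.1 (List.mem_toFinset.1 (Finset.mem_filter.1 hσ).1)]
  · intro σ hσ τ hτ hne
    have h1 := mem_strs.1 (List.mem_toFinset.1 (Finset.mem_filter.1 hσ).1)
    have h2 := mem_strs.1 (List.mem_toFinset.1 (Finset.mem_filter.1 hτ).1)
    rw [Function.onFun, Set.disjoint_left]
    intro X hX1 hX2
    rw [mem_cyl, h1] at hX1
    rw [mem_cyl, h2] at hX2
    exact hne (hX1.symm.trans hX2)

/-- the number of strings of length `n` with property `Q` -/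
def cnt (n : ℕ) (Q : List Bool → Bool) : ℕ := ((strs n).filter Q).length

@[fun_prop] lemma c_cnt {α : Type} [Primcodable α] {O : Set (ℕ →. ℕ)} {f : α → ℕ}
    {Q : α → List Bool → Bool} (hf : ComputableIn O f)
    (hQ : ComputableIn O fun p : α × List Bool => Q p.1 p.2) :
    ComputableIn O fun a => cnt (f a) (Q a) := by
  unfold cnt; fun_prop

lemma unif_cnt (n : ℕ) (Q : List Bool → Bool) :
    unif.real {R | Q (pre R n) = true} = (cnt n Q : ℝ) / 2 ^ n := by
  classical
  rw [unif_pre n fun l => Q l = true, cnt,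
    ← List.toFinset_card_of_nodup ((nodup_strs n).filter Q), List.toFinset_filter]
  congr

lemma swap_le {r σ : List Bool} (h : r.length = σ.length) {t : ℕ} (ht : r.length ≤ t)
    (Q : List Bool → Prop) :
    unif.real (cyl r ∩ {R | Q (σ ++ (pre R t).drop r.length)}) ≤ unif.real {X | Q (pre X t)} := by
  classical
  have : cyl r ∩ {R | Q (σ ++ (pre R t).drop r.length)} =
      {R | (fun l : List Bool => l.take r.length = r ∧ Q (σ ++ l.drop r.length)) (pre R t)} := by
    ext R
    simp only [Set.mem_inter_iff, mem_cyl, Set.mem_ofPred_eq, take_pre _ ht]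
  rw [this, unif_pre t fun l : List Bool => l.take r.length = r ∧ Q (σ ++ l.drop r.length),
    unif_pre t Q]
  refine div_le_div_of_nonneg_right (Nat.cast_le.2 ?_) (by positivity)
  refine Finset.card_le_card_of_injOn (fun l : List Bool => σ ++ l.drop r.length) ?_ ?_
  · intro l hl
    simp only [Finset.coe_filter, List.mem_toFinset, mem_strs, Set.mem_ofPred_eq] at hl ⊢
    exact ⟨by simp; omega, hl.2.2⟩
  · intro l hl l' hl' hll
    simp only [Finset.coe_filter, List.mem_toFinset, mem_strs, Set.mem_ofPred_eq] at hl hl'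
    simp only [List.append_cancel_left_eq] at hll
    rw [← List.take_append_drop r.length l, ← List.take_append_drop r.length l', hll, hl.2.1,
      hl'.2.1]

lemma contraction {T : List Bool → Prop} {N : ℕ → ℕ} (hN : Monotone N) (j₀ : ℕ)
    (hT : ∀ R m n, m ≤ n → T (pre R n) → T (pre R m))
    (h : ∀ j, j₀ ≤ j → ∀ r : List Bool, r.length = N j → T r →
      unif.real (cyl r ∩ {R | T (pre R (N (j + 1)))}) ≤ 3 / 4 * (1 / 2 ^ N j)) :
    unif {R | ∀ n, T (pre R n)} = 0 := by
  classical
  have step : ∀ j, j₀ ≤ j →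
      unif.real {R | T (pre R (N (j + 1)))} ≤ 3 / 4 * unif.real {R | T (pre R (N j))} := by
    intro j hj
    have hsub : {R | T (pre R (N (j + 1)))} ⊆
        ⋃ r ∈ (strs (N j)).toFinset.filter T, cyl r ∩ {R | T (pre R (N (j + 1)))} := by
      intro R hR
      simp only [Set.mem_iUnion, Finset.mem_filter, List.mem_toFinset, mem_strs, exists_prop]
      exact ⟨pre R (N j), ⟨by simp, hT R _ _ (hN (Nat.le_succ j)) hR⟩, mem_cyl_pre _ _, hR⟩
    refine (measureReal_mono hsub (measure_ne_top _ _)).trans ((measureReal_biUnion_finset_le _ _).trans ?_)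
    rw [unif_pre (N j) T]
    refine (Finset.sum_le_card_nsmul _ _ (3 / 4 * (1 / 2 ^ N j)) fun r hr => ?_).trans ?_
    · have := Finset.mem_filter.1 hr
      exact h j hj r (mem_strs.1 (List.mem_toFinset.1 this.1)) this.2
    · rw [nsmul_eq_mul]
      apply le_of_eq
      ring
  have iter : ∀ m, unif.real {R | T (pre R (N (j₀ + m)))} ≤ (3 / 4) ^ m := by
    intro m
    induction m with
    | zero => simp
    | succ m ih =>
      refine (step (j₀ + m) (by omega)).trans ?_
      rw [pow_succ']
      gcongr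
  rw [← measureReal_eq_zero_iff]
  refine le_antisymm ?_ measureReal_nonneg
  refine ge_of_tendsto' (tendsto_pow_atTop_nhds_zero_of_lt_one (r := (3 / 4 : ℝ)) (by norm_num)
    (by norm_num)) fun m => le_trans (measureReal_mono fun R hR => hR _) (iter m)

lemma countable_re : {W : ℕ × List Bool → Prop | REPred W}.Countable := by
  refine (Set.countable_range fun (c : Code) (a : ℕ × List Bool) =>
    (c.eval (encode a)).Dom).mono ?_
  intro W hW
  obtain ⟨c, hc⟩ := Code.exists_code.1 hW
  refine ⟨c, funext fun a => propext ?_⟩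
  simp only [hc, encodek, Part.coe_some, Part.bind_some, Part.dom_iff_mem, Part.mem_map_iff,
    Part.mem_assert_iff]
  simp

lemma ae_random (μ : Measure (ℕ → Bool)) : μ {X | ¬ MLRandom μ X} = 0 := by
  have hsub : {X | ¬ MLRandom μ X} ⊆ ⋃ W ∈ {W : ℕ × List Bool → Prop | REPred W ∧
      ∀ n : ℕ, μ (⋃ σ ∈ {σ | W (n, σ)}, cyl σ) ≤ 1 / 2 ^ n},
      ⋂ n, ⋃ σ ∈ {σ | W (n, σ)}, cyl σ := by
    intro X hX
    simp only [MLRandom, Set.mem_ofPred_eq, not_forall, not_exists, not_not] at hX
    obtain ⟨W, h1, h2, h3⟩ := hX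
    exact Set.mem_biUnion (show W ∈ _ from ⟨h1, h2⟩) (Set.mem_iInter.2 h3)
  refine measure_mono_null hsub ((measure_biUnion_null_iff
    (countable_re.mono fun W hW => hW.1)).2 fun W hW => ?_)
  refine le_antisymm ?_ zero_le
  refine ge_of_tendsto' (ENNReal.tendsto_pow_atTop_nhds_zero_of_lt_one (r := 2⁻¹) (by norm_num))
    fun n => (measure_mono (Set.iInter_subset _ n)).trans ?_
  rw [← ENNReal.inv_pow, ← one_div]
  exact hW.2 n

lemma exists_isIndex {μ : Measure (ℕ → Bool)} {f : List Bool → ℕ} (hf : Computable f)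
    (h : ∀ σ, μ.real (cyl σ) = (f σ : ℝ) / 2 ^ σ.length) : ∃ e, IsIndex e μ := by
  have h1 : Computable fun n : ℕ =>
      f ((decode (α := List Bool × ℕ) n).getD default).1 *
        2 ^ ((decode (α := List Bool × ℕ) n).getD default).2 /
        2 ^ ((decode (α := List Bool × ℕ) n).getD default).1.length := toC (by
    have := hf.computableIn (O := ∅)
    fun_prop)
  obtain ⟨c, hc⟩ := Code.exists_code.1 (Partrec.nat_iff.1 h1.partrec)
  refine ⟨encode c, fun σ n => ⟨f σ * 2 ^ n / 2 ^ σ.length, ?_, ?_⟩⟩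
  · simp only [phi, Denumerable.ofNat_encode, hc, PFun.coe_val, encodek, Option.getD_some,
      Part.mem_some_iff]
  · rw [h]
    have h2 : ((f σ * 2 ^ n / 2 ^ σ.length : ℕ) : ℝ) ≤ (f σ * 2 ^ n : ℝ) / 2 ^ σ.length := by
      exact_mod_cast Nat.cast_div_le (α := ℝ) (m := f σ * 2 ^ n) (n := 2 ^ σ.length)
    have h3 : (f σ * 2 ^ n : ℝ) / 2 ^ σ.length < ((f σ * 2 ^ n / 2 ^ σ.length : ℕ) : ℝ) + 1 := by
      rw [div_lt_iff₀ (by positivity)]
      have := Nat.lt_div_mul_add (a := f σ * 2 ^ n) (b := 2 ^ σ.length) (by positivity)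
      have h4 : ((f σ * 2 ^ n : ℕ) : ℝ) <
          ((f σ * 2 ^ n / 2 ^ σ.length * 2 ^ σ.length + 2 ^ σ.length : ℕ) : ℝ) := by
        exact_mod_cast this
      push_cast at h4
      linarith
    have h5 : (f σ : ℝ) / 2 ^ σ.length = ((f σ * 2 ^ n : ℝ) / 2 ^ σ.length) / 2 ^ n := by
      field_simp
    rw [h5, ← sub_div, abs_div, abs_of_pos (show (0 : ℝ) < 2 ^ n by positivity)]
    gcongr
    rw [abs_le]
    constructor <;> linarith

lemma unif_computable : ComputableMeasure unif :=
  ⟨inferInstance, exists_isIndex (f := fun _ => 1) (Computable.const _) fun σ => by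
    simp [unif_cyl]⟩

lemma unif_singleton (X : ℕ → Bool) : unif {X} = 0 := by
  rw [← measureReal_eq_zero_iff]
  refine le_antisymm ?_ measureReal_nonneg
  refine ge_of_tendsto' (tendsto_pow_atTop_nhds_zero_of_lt_one (r := (1 / 2 : ℝ)) (by norm_num)
    (by norm_num)) fun m => ?_
  refine (measureReal_mono (Set.singleton_subset_iff.2 (mem_cyl_pre X m))).trans ?_
  rw [unif_cyl]
  simp

end Pool.Agent.MP_b427ce_lc

end MrgPart2

-- ======== part 3: formerly Pool.Agent.MP_b427ce_lc.NoMeasure
section MrgPart3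

/-!
A computably dominated oracle does not BC-learn a class of probability measures that contains all
continuous computable measures.
-/

namespace Pool.Agent.MP_b427ce_lc

open Encodable Nat.Partrec MeasureTheory Filter Topology

def prec (N : ℕ) : ℕ := 2 * N + 4

def ylen (i N : ℕ) : ℕ := N + 1 + prec N * (i + 1)

def convI (i N t : ℕ) : Bool :=
  leB (ylen i N) t && (List.range (ylen i N + 1)).all fun n => (strs n).all fun τ =>
    (Code.evaln t (Denumerable.ofNat Code i) (encode (τ, prec N))).isSome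

def goodB (L : List Bool → ℕ) (N t : ℕ) (ρ : List Bool) : Bool :=
  (List.range (t + 1)).any fun m => leB (N + 1) m && convI (L (ρ.take m)) N t

def stopB (L : List Bool → ℕ) (N t : ℕ) : Bool :=
  leB (N + 1) t && leB (cnt t (fun ρ => !goodB L N t ρ) * 2 ^ (N + 2)) (2 ^ t)

@[fun_prop] lemma c_prec {α : Type} [Primcodable α] {O : Set (ℕ →. ℕ)} {f : α → ℕ}
    (hf : ComputableIn O f) : ComputableIn O fun a => prec (f a) := by
  unfold prec; fun_prop

@[fun_prop] lemma c_convI {α : Type} [Primcodable α] {O : Set (ℕ →. ℕ)} {f g h : α → ℕ}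
    (hf : ComputableIn O f) (hg : ComputableIn O g) (hh : ComputableIn O h) :
    ComputableIn O fun a => convI (f a) (g a) (h a) := by
  unfold convI ylen; fun_prop

lemma c_stopB {O : Set (ℕ →. ℕ)} {L : List Bool → ℕ} (hL : ComputableIn O L) :
    ComputableIn O fun p : ℕ × ℕ => stopB L p.1 p.2 := by
  unfold stopB goodB; fun_prop

lemma convI_iff {i N t : ℕ} : convI i N t = true ↔ ylen i N ≤ t ∧ ∀ τ : List Bool,
    τ.length ≤ ylen i N →
      ∃ a, Code.evaln t (Denumerable.ofNat Code i) (encode (τ, prec N)) = some a := by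
  simp only [convI, Bool.and_eq_true, leB_iff, List.all_eq_true, List.mem_range, mem_strs,
    Option.isSome_iff_exists, Nat.lt_succ_iff]
  exact and_congr_right fun _ =>
    ⟨fun h τ hτ => h _ hτ τ rfl, fun h n hn τ hτ => h τ (hτ ▸ hn)⟩

lemma convI_mono {i N t t' : ℕ} (h : convI i N t = true) (ht : t ≤ t') : convI i N t' = true := by
  rw [convI_iff] at h ⊢
  refine ⟨le_trans h.1 ht, fun τ hτ => ?_⟩
  obtain ⟨a, ha⟩ := h.2 τ hτ
  exact ⟨a, Code.evaln_mono ht ha⟩

lemma exists_convI {i : ℕ} {μ : Measure (ℕ → Bool)} (h : IsIndex i μ) (N : ℕ) :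
    ∃ t, convI i N t = true := by
  have : ∀ τ : List Bool, ∃ t a,
      Code.evaln t (Denumerable.ofNat Code i) (encode (τ, prec N)) = some a := by
    intro τ
    obtain ⟨a, ha, -⟩ := h τ (prec N)
    obtain ⟨t, ht⟩ := Code.evaln_complete.1 ha
    exact ⟨t, a, ht⟩
  choose T a hT using this
  have hfin : {τ : List Bool | τ.length ≤ ylen i N}.Finite := List.finite_length_le _ _
  refine ⟨max (ylen i N) (hfin.toFinset.sup T), convI_iff.2 ⟨le_max_left _ _, fun τ hτ =>
    ⟨a τ, Code.evaln_mono (le_trans ?_ (le_max_right _ _)) (hT τ)⟩⟩⟩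
  exact Finset.le_sup (f := T) (by simpa using hτ)

lemma goodB_pre {L : List Bool → ℕ} {N t : ℕ} {X : ℕ → Bool} : goodB L N t (pre X t) = true ↔
    ∃ m ≤ t, N + 1 ≤ m ∧ convI (L (pre X m)) N t = true := by
  simp only [goodB, List.any_eq_true, List.mem_range, Bool.and_eq_true, leB_iff, Nat.lt_succ_iff]
  exact exists_congr fun m => and_congr_right fun hm => by rw [take_pre _ hm]

lemma exists_stopB {L : List Bool → ℕ}
    (hL : ∀ X, MLRandom unif X → ∃ n₀, ∀ n > n₀, ∃ μ', IsIndex (L (pre X n)) μ') (N : ℕ) :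
    ∃ t, stopB L N t = true := by
  let Bad : ℕ → Set (ℕ → Bool) := fun t => {X | (!goodB L N t (pre X t)) = true}
  have hanti : Antitone Bad := by
    intro t t' ht X hX
    simp only [Bad, Set.mem_ofPred_eq, Bool.not_eq_true', ← Bool.not_eq_true, goodB_pre] at hX ⊢
    rintro ⟨m, h1, h2, h3⟩
    exact hX ⟨m, le_trans h1 ht, h2, convI_mono h3 ht⟩
  have hnull : unif (⋂ t, Bad t) = 0 := by
    refine measure_mono_null (t := {X | ¬ MLRandom unif X}) (fun X hX hr => ?_) (ae_random unif)
    obtain ⟨n₀, h⟩ := hL X hr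
    obtain ⟨μ', hμ'⟩ := h (max n₀ N + 1) (by omega)
    obtain ⟨t, ht⟩ := exists_convI hμ' N
    have := Set.mem_iInter.1 hX (max t (max n₀ N + 1))
    simp only [Bad, Set.mem_ofPred_eq, Bool.not_eq_true', ← Bool.not_eq_true, goodB_pre] at this
    exact this ⟨_, le_max_right _ _, by omega, convI_mono ht (le_max_left _ _)⟩
  have hlim := tendsto_measure_iInter_atTop (μ := unif) (s := Bad)
    (fun t => (measurableSet_pre t fun l => (!goodB L N t l) = true).nullMeasurableSet) hanti
    ⟨0, measure_ne_top _ _⟩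
  rw [hnull] at hlim
  have hlim' : Tendsto (fun t => unif.real (Bad t)) atTop (𝓝 0) :=
    (ENNReal.tendsto_toReal ENNReal.zero_ne_top).comp hlim
  obtain ⟨t, ht1, ht2⟩ := ((hlim'.eventually (eventually_le_nhds
    (show (0 : ℝ) < 1 / 2 ^ (N + 2) by positivity))).and (eventually_ge_atTop (N + 1))).exists
  refine ⟨t, ?_⟩
  simp only [stopB, Bool.and_eq_true, leB_iff]
  refine ⟨ht2, ?_⟩
  rw [show unif.real (Bad t) = _ from unif_cnt t fun l => !goodB L N t l,
    div_le_div_iff₀ (by positivity) (by positivity), one_mul] at ht1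
  exact_mod_cast ht1

section construction

variable (G : ℕ → ℕ)

def bstart (p : ℕ) : ℕ := natIter 0 (fun p b => bif eqB (p + 1) (G b) then p + 1 else b) p

def approx (i N : ℕ) (τ : List Bool) : ℕ :=
  (Code.evaln (G N) (Denumerable.ofNat Code i) (encode (τ, prec N))).getD 0

def greedy (σ : List Bool) : Bool :=
  leB (approx G ((σ.length - bstart G σ.length - 1) / prec (bstart G σ.length))
      (bstart G σ.length) (σ ++ [true]) + 1)
    (approx G ((σ.length - bstart G σ.length - 1) / prec (bstart G σ.length))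
      (bstart G σ.length) (σ ++ [false]))

def nb (σ : List Bool) (r : Bool) : Bool :=
  bif eqB σ.length (bstart G σ.length) || !σ.getD (bstart G σ.length) false then r
  else greedy G σ

def theta (r : List Bool) : List Bool := r.foldl (fun σ b => σ ++ [nb G σ b]) []

def Theta (R : ℕ → Bool) (p : ℕ) : Bool := (theta G (pre R (p + 1))).getD p false

def blk (j : ℕ) : ℕ := natIter 0 (fun _ b => G b) j

def right (r : List Bool) : List Bool :=
  theta G (r ++ true :: List.replicate (G r.length - r.length - 1) false)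

variable {G}

lemma c_theta {O : Set (ℕ →. ℕ)} (cG : Computable G) : ComputableIn O (theta G) := by
  have := cG.computableIn (O := O)
  unfold theta nb greedy approx bstart
  fun_prop

lemma theta_concat (r : List Bool) (b : Bool) :
    theta G (r ++ [b]) = theta G r ++ [nb G (theta G r) b] := by
  simp [theta, List.foldl_append]

@[simp] lemma length_theta (r : List Bool) : (theta G r).length = r.length := by
  induction r using List.reverseRecOn with
  | nil => rfl
  | append_singleton l b ih => simp [theta_concat, ih]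

lemma Theta_eq (R : ℕ → Bool) (p : ℕ) : Theta G R p = nb G (theta G (pre R p)) (R p) := by
  rw [Theta, pre_succ, theta_concat, List.getD_append_right _ _ _ _ (by simp)]
  simp

lemma pre_Theta (R : ℕ → Bool) (n : ℕ) : pre (Theta G R) n = theta G (pre R n) := by
  induction n with
  | zero => rfl
  | succ n ih => rw [pre_succ, pre_succ, theta_concat, ih, Theta_eq]

lemma measurable_Theta : Measurable (Theta G) :=
  measurable_pi_lambda _ fun p => measurable_to_bool
    (measurableSet_pre (p + 1) fun l => (theta G l).getD p false = true)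

lemma blk_succ (j : ℕ) : blk G (j + 1) = G (blk G j) := rfl

variable (hG : ∀ N, N < G N)
include hG

lemma blk_strictMono : StrictMono (blk G) := strictMono_nat_of_lt_succ fun _ => hG _

lemma bstart_eq {j p : ℕ} (h1 : blk G j ≤ p) (h2 : p < blk G (j + 1)) : bstart G p = blk G j := by
  induction p generalizing j with
  | zero => exact (Nat.le_zero.1 h1).symm
  | succ p ih =>
    have hs : bstart G (p + 1) = bif eqB (p + 1) (G (bstart G p)) then p + 1 else bstart G p := rfl
    rw [hs]
    by_cases h : blk G j ≤ p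
    · rw [ih h (by omega), eqB_false_iff.2 (by rw [blk_succ] at h2; omega), cond_false]
    · cases j with
      | zero => exact absurd (Nat.zero_le p) h
      | succ j =>
        have := blk_strictMono hG (Nat.lt_succ_self j)
        simp only [Nat.succ_eq_add_one] at this
        have h3 := blk_succ (G := G) j
        rw [ih (j := j) (by omega) (by omega), eqB_iff.2 (by omega), cond_true]
        omega

lemma Theta_start (R : ℕ → Bool) (j : ℕ) : Theta G R (blk G j) = R (blk G j) := by
  rw [Theta_eq, nb]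
  simp only [length_theta, length_pre]
  rw [bstart_eq hG le_rfl (hG _), eqB_iff.2 rfl]
  rfl

lemma Theta_copy {R : ℕ → Bool} {j p : ℕ} (hR : R (blk G j) = false) (h1 : blk G j ≤ p)
    (h2 : p < blk G (j + 1)) : Theta G R p = R p := by
  rcases h1.eq_or_lt with rfl | h1'
  · exact Theta_start hG R j
  · rw [Theta_eq, nb]
    simp only [length_theta, length_pre]
    rw [bstart_eq hG h1 h2, ← pre_Theta, getD_pre _ h1', Theta_start hG, hR]
    simp

lemma Theta_greedy {R : ℕ → Bool} {j p : ℕ} (hR : R (blk G j) = true) (h1 : blk G j < p)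
    (h2 : p < blk G (j + 1)) : Theta G R p = greedy G (pre (Theta G R) p) := by
  rw [Theta_eq, nb]
  simp only [length_theta, length_pre]
  rw [bstart_eq hG h1.le h2, ← pre_Theta, getD_pre _ h1, Theta_start hG, hR,
    eqB_false_iff.2 h1.ne']
  rfl

lemma pre_Theta_right {R : ℕ → Bool} {r : List Bool} {j : ℕ} (hr : r.length = blk G j)
    (hR : R ∈ cyl r) (hR1 : R (blk G j) = true) :
    pre (Theta G R) (blk G (j + 1)) = right G r := by
  let l := r ++ true :: List.replicate (G r.length - r.length - 1) false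
  have hl : l.length = blk G (j + 1) := by
    have := hG r.length
    simp only [l, List.length_append, List.length_cons, List.length_replicate, blk_succ, ← hr]
    omega
  let R' : ℕ → Bool := fun p => l.getD p false
  have hR' : R' (blk G j) = true := by
    simp only [R', l, ← hr]
    rw [List.getD_append_right _ _ _ _ le_rfl]
    simp
  have h0 : ∀ p ≤ blk G j, R p = R' p := by
    intro p hp
    rcases hp.eq_or_lt with rfl | hp
    · rw [hR1, hR']
    · rw [mem_cyl_iff.1 hR p (by omega)]
      exact (List.getD_append _ _ _ _ (by omega)).symm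
  have key : ∀ p ≤ blk G (j + 1), pre (Theta G R) p = pre (Theta G R') p := by
    intro p
    induction p with
    | zero => intro _; rfl
    | succ p ih =>
      intro hp
      by_cases h : p ≤ blk G j
      · rw [pre_Theta, pre_Theta, pre_congr fun i hi => h0 i (by omega)]
      · rw [pre_succ, pre_succ, Theta_greedy hG hR1 (not_le.1 h) (by omega),
          Theta_greedy hG hR' (not_le.1 h) (by omega), ih (by omega)]
  rw [key _ le_rfl, pre_Theta, ← hl, pre_getD]
  rfl

lemma pre_Theta_left {R : ℕ → Bool} {r : List Bool} {j t : ℕ} (hr : r.length = blk G j)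
    (hR : R ∈ cyl r) (hR1 : R (blk G j) = false) (h1 : blk G j ≤ t) (h2 : t ≤ blk G (j + 1)) :
    pre (Theta G R) t = theta G r ++ (pre R t).drop r.length := by
  induction t, h1 using Nat.le_induction with
  | base =>
    rw [pre_Theta, ← hr, mem_cyl.1 hR]
    simp
  | succ t ht ih =>
    rw [pre_succ, pre_succ, ih (by omega), Theta_copy hG hR1 ht (by omega),
      List.drop_append_of_le_length (by simp; omega), List.append_assoc]

lemma greedy_small {μ : Measure (ℕ → Bool)} [IsProbabilityMeasure μ] {i j t : ℕ}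
    (hi : IsIndex i μ) (hc : convI i (blk G j) t = true) (ht : t ≤ blk G (j + 1))
    {R : ℕ → Bool} (hR : R (blk G j) = true) :
    μ.real (cyl (pre (Theta G R) (blk G (j + 1)))) ≤ 3 / 2 ^ prec (blk G j) := by
  set N := blk G j with hN
  obtain ⟨hy, hc⟩ := convI_iff.1 hc
  have happ : ∀ τ : List Bool, τ.length ≤ ylen i N →
      |μ.real (cyl τ) - (approx G i N τ : ℝ) / 2 ^ prec N| ≤ 1 / 2 ^ prec N := by
    intro τ hτ
    obtain ⟨a, ha⟩ := hc τ hτ
    obtain ⟨a', ha', h⟩ := hi τ (prec N)
    have h1 : Code.evaln (G N) (Denumerable.ofNat Code i) (encode (τ, prec N)) = some a :=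
      Code.evaln_mono ht ha
    rw [approx, h1, Option.getD_some, Part.mem_unique (Code.evaln_sound ha) ha']
    exact h
  have hw : 0 < prec N := by unfold prec; omega
  have key : ∀ q ≤ prec N, μ.real (cyl (pre (Theta G R) (N + 1 + prec N * i + q))) ≤
      1 / 2 ^ q + 2 / 2 ^ prec N := by
    intro q
    induction q with
    | zero =>
      intro _
      have : μ.real (cyl (pre (Theta G R) (N + 1 + prec N * i + 0))) ≤ 1 := measureReal_le_one
      have h2 : (0 : ℝ) ≤ 2 / 2 ^ prec N := by positivity
      simp only [pow_zero, div_one]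
      linarith
    | succ q ih =>
      intro hq
      have ih := ih (by omega)
      set p := N + 1 + prec N * i + q with hp
      have hpy : p + 1 ≤ ylen i N := by unfold ylen; rw [mul_add]; omega
      have hidx : (p - N - 1) / prec N = i := by
        rw [show p - N - 1 = q + prec N * i by omega, Nat.add_mul_div_left _ _ hw,
          Nat.div_eq_of_lt (by omega), zero_add]
      have hg : Theta G R p = leB (approx G i N (pre (Theta G R) p ++ [true]) + 1)
          (approx G i N (pre (Theta G R) p ++ [false])) := by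
        rw [Theta_greedy hG hR (by omega) (by omega), greedy]
        simp only [length_pre]
        rw [bstart_eq hG (j := j) (by omega) (by omega), ← hN, hidx]
      have hle : approx G i N (pre (Theta G R) p ++ [Theta G R p]) ≤
          approx G i N (pre (Theta G R) p ++ [!Theta G R p]) := by
        cases h : Theta G R p
        · rw [h] at hg
          have := leB_false_iff.1 hg.symm
          simp only [Bool.not_false]
          omega
        · rw [h] at hg
          have := leB_iff.1 hg.symm
          simp only [Bool.not_true]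
          omega
      have h1 := abs_le.1 (happ (pre (Theta G R) p ++ [Theta G R p]) (by simpa using hpy))
      have h2 := abs_le.1 (happ (pre (Theta G R) p ++ [!Theta G R p]) (by simpa using hpy))
      have h3 := real_cyl_split μ (pre (Theta G R) p) (Theta G R p)
      have h4 : (approx G i N (pre (Theta G R) p ++ [Theta G R p]) : ℝ) / 2 ^ prec N ≤
          (approx G i N (pre (Theta G R) p ++ [!Theta G R p]) : ℝ) / 2 ^ prec N := by
        gcongr
      rw [show N + 1 + prec N * i + (q + 1) = p + 1 by omega, pre_succ]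
      have h5 : (1 : ℝ) / 2 ^ (q + 1) = 1 / 2 ^ q / 2 := by rw [pow_succ]; field_simp
      have h6 : (2 : ℝ) / 2 ^ prec N = 2 * (1 / 2 ^ prec N) := by ring
      linarith [h1.1, h1.2, h2.1, h2.2]
  have h1 := key (prec N) le_rfl
  have h2 : N + 1 + prec N * i + prec N ≤ blk G (j + 1) := by
    unfold ylen at hy; rw [mul_add] at hy; omega
  refine (measureReal_mono (cyl_mono (pre_isPrefix _ h2))).trans (h1.trans (le_of_eq ?_))
  ring

end construction

/-- the test against the measure with index `i` -/
def testW (G : ℕ → ℕ) (i : ℕ) (p : ℕ × List Bool) : Prop :=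
  ∃ r : List Bool, p.1 ≤ r.length ∧ p.2 = right G r ∧
    ∃ a ∈ phi i (encode (p.2, prec r.length)), a ≤ 4

lemma testW_re {G : ℕ → ℕ} (cG : Computable G) (i : ℕ) : REPred (testW G i) := by
  have h1 := cG.computableIn (O := ∅)
  have h2 := c_theta (O := ∅) cG
  refine (re_of_exists (B := fun (p : ℕ × List Bool) w =>
    leB p.1 ((decode (α := List Bool) w.unpair.1).getD []).length &&
    (eqB p.2 (right G ((decode (α := List Bool) w.unpair.1).getD [])) &&
    ((Code.evaln w.unpair.2 (Denumerable.ofNat Code i)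
      (encode (p.2, prec ((decode (α := List Bool) w.unpair.1).getD []).length))).isSome &&
    leB ((Code.evaln w.unpair.2 (Denumerable.ofNat Code i)
      (encode (p.2, prec ((decode (α := List Bool) w.unpair.1).getD []).length))).getD 0) 4)))
    (toC (by unfold right; fun_prop))).of_eq fun p => ?_
  simp only [Bool.and_eq_true, leB_iff, eqB_iff, Option.isSome_iff_exists]
  constructor
  · rintro ⟨w, k1, k2, ⟨a, k3⟩, k4⟩
    rw [k3, Option.getD_some] at k4
    exact ⟨_, k1, k2, a, Code.evaln_sound k3, k4⟩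
  · rintro ⟨r, k1, k2, a, k3, k4⟩
    obtain ⟨s, hs⟩ := Code.evaln_complete.1 k3
    refine ⟨Nat.pair (encode r) s, ?_⟩
    simp only [Nat.unpair_pair, encodek, Option.getD_some]
    have hs' : Code.evaln s (Denumerable.ofNat Code i) (encode (p.2, prec r.length)) = some a := hs
    rw [hs']
    exact ⟨k1, k2, ⟨a, rfl⟩, k4⟩

lemma testW_measure (G : ℕ → ℕ) {i : ℕ} {μ : Measure (ℕ → Bool)} [IsProbabilityMeasure μ]
    (hi : IsIndex i μ) (n : ℕ) : μ (⋃ σ ∈ {σ | testW G i (n, σ)}, cyl σ) ≤ 1 / 2 ^ n := by
  classical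
  let V : ℕ → Set (ℕ → Bool) := fun N => ⋃ r ∈ (strs N).toFinset.filter
    (fun r => ∃ a ∈ phi i (encode (right G r, prec N)), a ≤ 4), cyl (right G r)
  have hV : ∀ N, μ (V N) ≤ 2⁻¹ ^ (N + 1) := by
    intro N
    have h1 : μ.real (V N) ≤ 2⁻¹ ^ (N + 1) := by
      refine (measureReal_biUnion_finset_le _ _).trans ?_
      refine (Finset.sum_le_card_nsmul _ _ (5 / 2 ^ prec N) fun r hr => ?_).trans ?_
      · obtain ⟨a, ha, ha4⟩ := (Finset.mem_filter.1 hr).2
        obtain ⟨a', ha', h⟩ := hi (right G r) (prec N)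
        rw [← Part.mem_unique ha ha'] at h
        have h2 : (a : ℝ) / 2 ^ prec N ≤ 4 / 2 ^ prec N := by
          gcongr
          exact_mod_cast ha4
        have h3 : (5 : ℝ) / 2 ^ prec N = 4 / 2 ^ prec N + 1 / 2 ^ prec N := by ring
        linarith [(abs_le.1 h).2]
      · have h2 : (((strs N).toFinset.filter
            (fun r => ∃ a ∈ phi i (encode (right G r, prec N)), a ≤ 4)).card : ℝ) ≤ 2 ^ N := by
          have := (Finset.card_filter_le _ fun r => ∃ a ∈ phi i (encode (right G r, prec N)),
            a ≤ 4).trans (List.toFinset_card_le (strs N))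
          rw [length_strs] at this
          exact_mod_cast this
        rw [nsmul_eq_mul]
        refine (mul_le_mul_of_nonneg_right h2 (by positivity)).trans ?_
        rw [prec, inv_pow, show 2 * N + 4 = N + (N + 1) + 3 by omega, pow_add, pow_add]
        field_simp
        norm_num
    rw [← ofReal_measureReal (measure_ne_top _ _)]
    refine (ENNReal.ofReal_le_ofReal h1).trans (le_of_eq ?_)
    rw [ENNReal.ofReal_pow (by norm_num), ENNReal.ofReal_inv_of_pos (by norm_num)]
    simp
  have hsub : (⋃ σ ∈ {σ | testW G i (n, σ)}, cyl σ) ⊆ ⋃ j, V (n + j) := by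
    intro X hX
    simp only [Set.mem_iUnion, Set.mem_ofPred_eq, exists_prop] at hX
    obtain ⟨σ, ⟨r, h1, h2, h3⟩, h4⟩ := hX
    simp only at h1 h2 h3
    subst h2
    refine Set.mem_iUnion.2 ⟨r.length - n, ?_⟩
    rw [show n + (r.length - n) = r.length by omega]
    simp only [V, Set.mem_iUnion, Finset.mem_filter, List.mem_toFinset, mem_strs, exists_prop]
    exact ⟨r, ⟨rfl, h3⟩, h4⟩
  refine (measure_mono hsub).trans ((measure_iUnion_le _).trans
    ((ENNReal.tsum_le_tsum fun j => hV (n + j)).trans (le_of_eq ?_)))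
  simp_rw [show ∀ j, n + j + 1 = n + (j + 1) from fun j => rfl, pow_add _ n]
  rw [ENNReal.tsum_mul_left, ENNReal.tsum_geometric_add_one, ENNReal.one_sub_inv_two, inv_inv,
    ENNReal.inv_mul_cancel (by norm_num) (by norm_num), mul_one, one_div, ENNReal.inv_pow]

theorem not_bcMeasures {A : Set ℕ} (hA : Dominated A) {C : Set (Measure (ℕ → Bool))}
    (hC : ∀ μ ∈ C, IsProbabilityMeasure μ)
    (hc : ∀ μ, ComputableMeasure μ → (∀ X, μ {X} = 0) → μ ∈ C) : ¬ BCMeasures A C := by
  rintro ⟨L, cL, hL⟩
  simp only [initSeg_eq] at hL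
  have hstop := exists_stopB (L := L) fun X hX => by
    obtain ⟨n₀, μ', -, -, h⟩ := hL unif (hc _ unif_computable unif_singleton) X hX
    exact ⟨n₀, fun n hn => ⟨μ', h n hn⟩⟩
  obtain ⟨g, cg, hg⟩ := hA _ (c_find (p := stopB L) (c_stopB cL) hstop)
  let G : ℕ → ℕ := fun N => max (g N) (N + 1)
  have cG : Computable G := toC (by
    have := cg.computableIn (O := ∅)
    simp only [G]; fun_prop)
  have hG : ∀ N, N < G N := fun N => lt_of_lt_of_le (Nat.lt_succ_self N) (le_max_right _ _)
  have hmono := (blk_strictMono hG).monotone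
  let μ : Measure (ℕ → Bool) := unif.map (Theta G)
  have hprob : IsProbabilityMeasure μ := Measure.isProbabilityMeasure_map
    measurable_Theta.aemeasurable
  have hμc : ComputableMeasure μ := by
    refine ⟨hprob, exists_isIndex (f := fun σ => cnt σ.length fun r => eqB (theta G r) σ)
      (toC (by have := c_theta (O := ∅) cG; fun_prop)) fun σ => ?_⟩
    rw [← unif_cnt, measureReal_def, measureReal_def,
      Measure.map_apply measurable_Theta (measurableSet_cyl σ)]
    congr 2
    ext R
    simp [mem_cyl, pre_Theta]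
  have hhalf : ∀ (r : List Bool) (b : Bool),
      unif.real (cyl (r ++ [b])) = 1 / 2 * (1 / 2 ^ r.length) := by
    intro r b
    rw [unif_cyl, List.length_append, List.length_singleton, pow_succ]
    field_simp
  have hμa : ∀ X, μ {X} = 0 := by
    intro X
    rw [Measure.map_apply measurable_Theta (measurableSet_singleton X)]
    refine measure_mono_null (t := {R | ∀ n, theta G (pre R n) = pre X (pre R n).length})
      (fun R hR n => ?_) (contraction
      (T := fun r => theta G r = pre X r.length) hmono 0 (fun R m n hmn h => ?_)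
      fun j _ r hr _ => ?_)
    · rw [← pre_Theta, Set.mem_singleton_iff.1 hR, length_pre]
    · rw [← pre_Theta, length_pre] at h ⊢
      rw [← take_pre _ hmn, h, take_pre _ hmn]
    · refine (measureReal_mono (s₂ := cyl (r ++ [X (blk G j)])) ?_).trans ?_
      · rintro R ⟨h1, h2⟩
        refine mem_cyl_concat.2 ⟨h1, ?_⟩
        simp only [Set.mem_ofPred_eq, length_pre, ← pre_Theta] at h2
        rw [hr, ← Theta_start hG R j, ← getD_pre (Theta G R) (hG (blk G j)) false, ← blk_succ (G := G), h2,
          getD_pre _ (show blk G j < blk G (j + 1) from hG _)]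
      · rw [hhalf, hr]
        exact mul_le_mul_of_nonneg_right (by norm_num) (by positivity)
  let T : ℕ × ℕ × ℕ → List Bool → Prop := fun q r =>
    (∃ μ' : Measure (ℕ → Bool), IsProbabilityMeasure μ' ∧ IsIndex q.2.1 μ' ∧
      ∀ n, q.1 < n → n ≤ r.length → IsIndex (L ((theta G r).take n)) μ') ∧
    ∀ τ, testW G q.2.1 (q.2.2, τ) → ¬ τ <+: theta G r
  have hT : ∀ q, unif {R | ∀ n, T q (pre R n)} = 0 := by
    rintro ⟨n₀, i, n₁⟩
    refine contraction hmono (max n₀ n₁) (fun R m n hmn h => ?_) fun j hj r hr _ => ?_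
    · obtain ⟨⟨μ', k1, k2, k3⟩, k4⟩ := h
      simp only [← pre_Theta, length_pre] at k3 k4
      refine ⟨⟨μ', k1, k2, fun n' h1 h2 => ?_⟩, fun τ hτ hp => k4 τ hτ ?_⟩
      · simp only [length_pre] at h2
        have := k3 n' h1 (by omega)
        rw [take_pre _ (by omega)] at this
        rwa [← pre_Theta, take_pre _ h2]
      · rw [← pre_Theta] at hp
        exact hp.trans (pre_isPrefix _ hmn)
    · have hjN : j ≤ blk G j := (blk_strictMono hG).le_apply
      by_cases hsmall : testW G i (n₁, right G r)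
      · refine (measureReal_mono (s₂ := cyl (r ++ [false])) ?_).trans ?_
        · rintro R ⟨h1, -, h2⟩
          refine mem_cyl_concat.2 ⟨h1, ?_⟩
          by_contra h3
          rw [Bool.not_eq_false, hr] at h3
          refine h2 _ hsmall ?_
          rw [← pre_Theta, pre_Theta_right hG hr h1 h3]
        · rw [hhalf, hr]
          exact mul_le_mul_of_nonneg_right (by norm_num) (by positivity)
      · have ht := Nat.find_spec (hstop (blk G j))
        have htG : Nat.find (hstop (blk G j)) ≤ blk G (j + 1) :=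
          le_trans (hg _) (le_max_left _ _)
        generalize Nat.find (hstop (blk G j)) = t at ht htG
        simp only [stopB, Bool.and_eq_true, leB_iff] at ht
        refine (measureReal_mono (s₂ := cyl (r ++ [true]) ∪ (cyl r ∩
          {R | (!goodB L (blk G j) t (theta G r ++ (pre R t).drop r.length)) = true})) ?_).trans
          ((measureReal_union_le _ _).trans ?_)
        · rintro R ⟨h1, ⟨μ', k1, k2, k3⟩, -⟩
          cases h3 : R (blk G j)
          · right
            refine ⟨h1, ?_⟩
            simp only [Set.mem_ofPred_eq, Bool.not_eq_true', ← Bool.not_eq_true]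
            rw [← pre_Theta_left hG hr h1 h3 (by omega) htG, goodB_pre]
            rintro ⟨m, hm1, hm2, hm3⟩
            have h4 := k3 m (by simp only; omega) (by simp only [length_pre]; omega)
            rw [← pre_Theta, take_pre _ (by omega)] at h4
            let R' : ℕ → Bool := fun p => (r ++ [true]).getD p false
            have hR' : R' ∈ cyl (r ++ [true]) := mem_cyl_iff.2 fun _ _ => rfl
            obtain ⟨h5, h6⟩ := mem_cyl_concat.1 hR'
            rw [hr] at h6
            have h7 := greedy_small hG h4 hm3 htG h6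
            rw [pre_Theta_right hG hr h5 h6] at h7
            obtain ⟨a, ha, h8⟩ := k2 (right G r) (prec r.length)
            refine hsmall ⟨r, by simp only; omega, rfl, a, ha, ?_⟩
            rw [hr] at h8
            have h9 : (a : ℝ) / 2 ^ prec (blk G j) ≤ 4 / 2 ^ prec (blk G j) := by
              have : (4 : ℝ) / 2 ^ prec (blk G j) =
                3 / 2 ^ prec (blk G j) + 1 / 2 ^ prec (blk G j) := by ring
              linarith [(abs_le.1 h8).1]
            rw [div_le_div_iff_of_pos_right (by positivity)] at h9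
            exact_mod_cast h9
          · left
            exact mem_cyl_concat.2 ⟨h1, by rw [hr]; exact h3⟩
        · have h1 := swap_le (r := r) (σ := theta G r) (by simp) (t := t) (by omega)
            fun l => (!goodB L (blk G j) t l) = true
          rw [unif_cnt t fun l => !goodB L (blk G j) t l] at h1
          have h2 : ((cnt t fun l => !goodB L (blk G j) t l : ℕ) : ℝ) / 2 ^ t ≤
              1 / 4 * (1 / 2 ^ blk G j) := by
            rw [div_le_iff₀ (by positivity)]
            have h3 : ((cnt t fun l => !goodB L (blk G j) t l : ℕ) : ℝ) * 2 ^ (blk G j + 2) ≤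
                2 ^ t := by exact_mod_cast ht.2
            rw [pow_add] at h3
            have h4 : (0 : ℝ) < 2 ^ blk G j := by positivity
            field_simp
            linarith
          rw [hhalf, hr] at *
          linarith
  have hbad : unif (Theta G ⁻¹' {X | ¬ MLRandom μ X}) = 0 :=
    le_antisymm ((Measure.le_map_apply measurable_Theta.aemeasurable _).trans (ae_random μ).le)
      zero_le
  have hall : unif Set.univ = 0 := by
    refine measure_mono_null (t := Theta G ⁻¹' {X | ¬ MLRandom μ X} ∪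
      ⋃ q, {R | ∀ n, T q (pre R n)}) (fun R _ => ?_)
      (measure_union_null hbad (measure_iUnion_null hT))
    by_cases hR : MLRandom μ (Theta G R)
    · right
      obtain ⟨n₀, μ', k1, k2, k3⟩ := hL μ (hc μ hμc hμa) _ hR
      have := hC μ' k1
      have hi := k3 (n₀ + 1) (Nat.lt_succ_self _)
      obtain ⟨n₁, hn₁⟩ := k2 _ (testW_re cG _) (testW_measure G hi)
      refine Set.mem_iUnion.2 ⟨(n₀, _, n₁), fun n => ⟨⟨μ', this, hi, fun n' h1 h2 => ?_⟩,
        fun τ hτ hp => hn₁ ?_⟩⟩
      · rw [← pre_Theta, take_pre _ (by simpa using h2)]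
        exact k3 n' h1
      · rw [← pre_Theta] at hp
        exact Set.mem_biUnion (show τ ∈ {σ | testW G _ (n₁, σ)} from hτ)
          (cyl_mono hp (mem_cyl_pre _ _))
    · exact Or.inl hR
  simp at hall

end Pool.Agent.MP_b427ce_lc

end MrgPart3

-- marker of a merged file
example : 731051 + 736064 = 731051 + 736064 := rfl
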